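import Pool.Agent.H85P.Step

/-!
# The graph of the configurations of a space bounded machine
-/

set_option autoImplicit false

namespace LSC

open H85L

variable {C : NClass} [Calc C]
variable {α β : Type} [Ctx α] [Ctx β]

/-! ### Components and sizes -/

@[fun_prop] theorem fn_comp (j : Fin (dim α)) : Fn C (fun a : α => (e a j : ℕ)) := by
  intro i
  have h := Calc.proj (C := C) (dim α) j
  have h2 : (fun v : Fin (dim α) → ℕ => (e ((fun a : α => (e a j : ℕ)) (e.symm v)) :
      Fin 1 → ℕ) i) = fun a => a j := by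
    funext v
    show e (e.symm v) j = _
    rw [Equiv.apply_symm_apply]
  exact h2 ▸ h

theorem Fn.finsum {k : ℕ} {f : Fin k → α → ℕ} (hf : ∀ j, Fn C (f j)) :
    Fn C (fun a => ∑ j, f j a) := by
  induction k with
  | zero => exact (Fn.const 0).congr fun a => by simp
  | succ k ih =>
    have h1 := ih (f := fun j => f j.castSucc) fun j => hf _
    have h2 := hf (Fin.last k)
    have h3 : Fn C (fun a => ∑ j : Fin k, f j.castSucc a + f (Fin.last k) a) := by fun_prop
    exact h3.congr fun a => Fin.sum_univ_castSucc _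

@[fun_prop] theorem fn_sz : Fn C (fun a : α => sz a) := by
  have h : Fn C (fun a : α => ∑ j, Nat.size (e a j)) := Fn.finsum fun j => by fun_prop
  exact h

@[fun_prop] protected theorem Fn.sz {f : α → β} (hf : Fn C f) : Fn C (fun a => sz (f a)) :=
  fn_sz.comp hf

theorem comp_lt_pow (x : β) {b : ℕ} (hb : sz x ≤ b) (j : Fin (dim β)) : e x j < 2 ^ b :=
  (Nat.lt_size_self _).trans_le (Nat.pow_le_pow_right (by norm_num)
    ((comp_le_tsz (e x) j).trans hb))

/-! ### Packing -/

/-- all components in one number -/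
def pk (b : ℕ) (x : β) : ℕ := ∑ j, e x j * 2 ^ (b * (j : ℕ))

/-- the components of a number -/
def upk (b n : ℕ) : β := e.symm fun j => n / 2 ^ (b * (j : ℕ)) % 2 ^ b

theorem digits_lt {k : ℕ} (b : ℕ) (v : Fin k → ℕ) (hv : ∀ j, v j < 2 ^ b) :
    ∑ j, v j * 2 ^ (b * (j : ℕ)) < 2 ^ (b * k) := by
  induction k with
  | zero => simp
  | succ k ih =>
    rw [Fin.sum_univ_castSucc]
    have h1 := ih (fun j => v j.castSucc) fun j => hv _
    have h2 := hv (Fin.last k)
    simp only [Fin.val_castSucc, Fin.val_last] at h1 ⊢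
    rw [Nat.mul_succ, pow_add]
    nlinarith [Nat.zero_le (2 ^ (b * k))]

theorem digits_get {k : ℕ} (b : ℕ) (v : Fin k → ℕ) (hv : ∀ j, v j < 2 ^ b) (i : Fin k) :
    (∑ j, v j * 2 ^ (b * (j : ℕ))) / 2 ^ (b * (i : ℕ)) % 2 ^ b = v i := by
  induction k with
  | zero => exact i.elim0
  | succ k ih =>
    rw [Fin.sum_univ_castSucc]
    have h1 := digits_lt b (fun j => v j.castSucc) fun j => hv _
    simp only [Fin.val_castSucc, Fin.val_last] at h1 ⊢
    refine Fin.lastCases ?_ (fun i => ?_) i
    · rw [Fin.val_last, Nat.add_mul_div_right _ _ (by positivity), Nat.div_eq_of_lt h1, zero_add,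
        Nat.mod_eq_of_lt (hv _)]
    · rw [Fin.val_castSucc]
      have h2 := ih (fun j => v j.castSucc) (fun j => hv _) i
      rw [← h2]
      obtain ⟨m, hm⟩ : ∃ m, k = i + 1 + m := ⟨k - (i + 1), by omega⟩
      have h3 : v (Fin.last k) * 2 ^ (b * k) =
          v (Fin.last k) * 2 ^ (b * m) * 2 ^ b * 2 ^ (b * (i : ℕ)) := by
        have : b * k = b * m + b + b * (i : ℕ) := (congrArg (b * ·) hm).trans (by ring)
        rw [this, pow_add, pow_add]
        ring
      rw [h3, Nat.add_mul_div_right _ _ (by positivity), Nat.add_mul_mod_self_right]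

theorem pk_lt (b : ℕ) (x : β) (hb : sz x ≤ b) : pk b x < 2 ^ (b * dim β) :=
  digits_lt b _ (comp_lt_pow x hb)

theorem upk_pk (b : ℕ) (x : β) (hb : sz x ≤ b) : upk b (pk b x) = x := by
  unfold upk
  rw [Equiv.symm_apply_eq]
  funext j
  exact digits_get b _ (comp_lt_pow x hb) j

theorem pk_inj (b : ℕ) {x y : β} (hx : sz x ≤ b) (hy : sz y ≤ b) (h : pk b x = pk b y) : x = y := by
  rw [← upk_pk b x hx, h, upk_pk b y hy]

theorem fn_pow2mul {b : α → ℕ} (hb : Fn C b) {c : ℕ} (hc : ∀ a, b a ≤ c * (sz a + 1)) (j : ℕ) :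
    Fn C (fun a => 2 ^ (b a * j)) :=
  Fn.pow2 (by fun_prop) (c * j) fun a => by
    calc b a * j ≤ c * (sz a + 1) * j := Nat.mul_le_mul_right _ (hc a)
      _ = c * j * (sz a + 1) := by ring

theorem Fn.pk {b : α → ℕ} (hb : Fn C b) {c : ℕ} (hc : ∀ a, b a ≤ c * (sz a + 1)) {f : α → β}
    (hf : Fn C f) : Fn C (fun a => pk (b a) (f a)) := by
  refine Fn.finsum (f := fun j a => e (f a) j * 2 ^ (b a * (j : ℕ))) fun j => ?_
  have h1 := fn_pow2mul hb hc (j : ℕ)
  have h2 : Fn C (fun a => (e (f a) j : ℕ)) := (fn_comp j).comp hf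
  fun_prop

omit [Calc C] in
theorem fn_symm {f : α → Fin (dim β) → ℕ} (hf : ∀ j, Fn C (fun a => f a j)) :
    Fn C (fun a => (e.symm (f a) : β)) := by
  intro j
  have h := hf j 0
  have h2 : (fun v : Fin (dim α) → ℕ => (e ((fun a => (e.symm (f a) : β)) (e.symm v)) :
      Fin (dim β) → ℕ) j) = fun v => e (f (e.symm v) j) 0 := by
    funext v
    show e (e.symm (f (e.symm v))) j = _
    rw [Equiv.apply_symm_apply]
    rfl
  exact h2 ▸ h

theorem Fn.upk {b : α → ℕ} (hb : Fn C b) {c : ℕ} (hc : ∀ a, b a ≤ c * (sz a + 1)) {f : α → ℕ}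
    (hf : Fn C f) : Fn C (fun a => (upk (b a) (f a) : β)) := by
  refine fn_symm fun j => ?_
  have h1 := fn_pow2mul hb hc (j : ℕ)
  have h2 : Fn C (fun a => 2 ^ b a) := Fn.pow2 hb c hc
  fun_prop

/-! ### Short computations -/

/-- iteration with guesses -/
def pathFrom {X : Type} (S : Bool → X → X) (g : ℕ → Bool) (x : X) : ℕ → X
  | 0 => x
  | t + 1 => S (g t) (pathFrom S g x t)

theorem pathFrom_add {X : Type} (S : Bool → X → X) (g : ℕ → Bool) (x : X) (s t : ℕ) :
    pathFrom S g x (s + t) = pathFrom S (fun i => g (s + i)) (pathFrom S g x s) t := by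
  induction t with
  | zero => rfl
  | succ t ih =>
    show S (g (s + t)) (pathFrom S g x (s + t)) = _
    rw [ih]
    rfl

theorem pathFrom_congr {X : Type} (S : Bool → X → X) (g g' : ℕ → Bool) (x : X) (t : ℕ)
    (h : ∀ i < t, g i = g' i) : pathFrom S g x t = pathFrom S g' x t := by
  induction t with
  | zero => rfl
  | succ t ih =>
    show S (g t) (pathFrom S g x t) = S (g' t) (pathFrom S g' x t)
    rw [ih fun i hi => h i (by omega), h t (by omega)]

theorem short_path {X : Type} (S : Bool → X → X) (x : X) (N : ℕ) (φ : X → ℕ)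
    (hφ : ∀ g t, φ (pathFrom S g x t) < N)
    (hinj : ∀ g t g' t', φ (pathFrom S g x t) = φ (pathFrom S g' x t') →
      pathFrom S g x t = pathFrom S g' x t') (y : X)
    (h : ∃ g t, pathFrom S g x t = y) : ∃ g, ∃ t < N, pathFrom S g x t = y := by
  classical
  have hex : ∃ t, ∃ g, pathFrom S g x t = y := by
    obtain ⟨g, t, h⟩ := h
    exact ⟨t, g, h⟩
  obtain ⟨g, hg⟩ := Nat.find_spec hex
  refine ⟨g, Nat.find hex, ?_, hg⟩
  by_contra hlt
  push Not at hlt
  obtain ⟨i, j, hij, heq⟩ : ∃ i j : Fin (Nat.find hex + 1), i < j ∧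
      φ (pathFrom S g x i) = φ (pathFrom S g x j) := by
    by_contra hne
    push Not at hne
    have hinj' : Function.Injective fun i : Fin (Nat.find hex + 1) =>
        (⟨φ (pathFrom S g x i), hφ g i⟩ : Fin N) := by
      intro i j hij
      have hij' : φ (pathFrom S g x i) = φ (pathFrom S g x j) := by
        simpa using hij
      rcases lt_trichotomy i j with h1 | h1 | h1
      · exact absurd hij' (hne i j h1)
      · exact h1
      · exact absurd hij'.symm (hne j i h1)
    have := Fintype.card_le_of_injective _ hinj'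
    rw [Fintype.card_fin, Fintype.card_fin] at this
    omega
  have h1 := hinj g i g j heq
  obtain ⟨d, hd⟩ : ∃ d, Nat.find hex = j + d := ⟨Nat.find hex - j, by omega⟩
  have h2 : pathFrom S (fun k => if k < (i : ℕ) then g k else g (k - i + j)) x (i + d) = y := by
    rw [pathFrom_add, pathFrom_congr S _ g x i (fun k hk => by simp [hk]), h1,
      pathFrom_congr S _ (fun k => g (j + k)) _ d (fun k _ => by
        simp [add_comm]), ← pathFrom_add, ← hd]
    exact hg
  exact Nat.find_min hex (m := i + d) (by have : (i : ℕ) < j := hij; omega) ⟨_, h2⟩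

/-! ### The two black boxes -/

theorem run_det {Δ Q Γ K : Type} {M : Mach Δ Q Γ K} (h : M.Det) (v : View Δ) (g g' : ℕ → Bool)
    (t : ℕ) : M.run v g t = M.run v g' t := by
  induction t with
  | zero => rfl
  | succ t ih =>
    show M.step v (g t) (M.run v g t) = M.step v (g' t) (M.run v g' t)
    rw [ih]
    unfold Mach.step
    rw [h _ _ _ (g t) (g' t)]

/-- reachability in at most `d` moves in a graph with the vertices `0, ..., N - 1` -/
def Reach (E : ℕ → ℕ → Prop) (N : ℕ) : ℕ → ℕ → ℕ → Prop
  | 0, u, v => u = v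
  | d + 1, u, v => ∃ w < N, Reach E N d u w ∧ (w = v ∨ E w v)

theorem Reach.mono {E : ℕ → ℕ → Prop} {N u v : ℕ} (hv : v < N) {d d' : ℕ} (hd : d ≤ d')
    (h : Reach E N d u v) : Reach E N d' u v := by
  induction d', hd using Nat.le_induction with
  | base => exact h
  | succ n _ ih => exact ⟨v, hv, ih, Or.inl rfl⟩

variable {Δ Q Γ K : Type} [Finite Δ] [Finite Q] [Finite Γ] [Finite K]

/-- everything about the codes of the configurations of a space bounded machine -/
theorem space_codes (M : Mach Δ Q Γ K) {look : α → ℕ → Option Δ}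
    (hl : Fn C (fun p : α × ℕ => nmo (look p.1 p.2))) {c0 : ℕ}
    (hb : ∀ a g t i, ((M.run (fun q => look a q.length) g t).s i).length ≤ c0 * (sz a + 1)) :
    ∃ (S : α × ℕ × CC K → CC K) (c : ℕ), Fn C S ∧
      (∀ a g t, cc M (M.run (fun q => look a q.length) g t) =
        pathFrom (fun b x => S (a, b.toNat, x)) g (cc M M.init) t) ∧
      (∀ a g t, sz (cc M (M.run (fun q => look a q.length) g t)) ≤ c * (sz a + 1)) ∧
      ∀ a, M.Accepts (fun q => look a q.length) ↔
        ∃ g, ∃ t < 2 ^ (c * (sz a + 1) * dim (CC K)),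
          M.out (M.run (fun q => look a q.length) g t).q = some true := by
  obtain ⟨S, hS, hstep⟩ := exists_step (C := C) M hl
  obtain ⟨c', hc'⟩ := sz_cc_le M
  have hpath : ∀ a g t, cc M (M.run (fun q => look a q.length) g t) =
        pathFrom (fun b x => S (a, b.toNat, x)) g (cc M M.init) t := by
    intro a g t
    induction t with
    | zero => rfl
    | succ t ih =>
      show cc M (M.step _ (g t) (M.run _ g t)) = S (a, (g t).toNat, _)
      rw [← ih, hstep]
  have hsz : ∀ a g t, sz (cc M (M.run (fun q => look a q.length) g t)) ≤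
      c' * (c0 + 1) * (sz a + 1) := by
    intro a g t
    refine (hc' _ _ (hb a g t)).trans ?_
    rw [mul_assoc]
    exact Nat.mul_le_mul_left c' (by nlinarith [Nat.zero_le (sz a)])
  refine ⟨S, c' * (c0 + 1), hS, hpath, hsz, fun a => ⟨?_, ?_⟩⟩
  · rintro ⟨g, t, ht⟩
    obtain ⟨g', t', ht', h⟩ := short_path (fun b x => S (a, b.toNat, x)) (cc M M.init)
      (2 ^ (c' * (c0 + 1) * (sz a + 1) * dim (CC K))) (pk (c' * (c0 + 1) * (sz a + 1)))
      (fun g t => by
        rw [← hpath]
        exact pk_lt _ _ (hsz a g t))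
      (fun g t g' t' h => by
        rw [← hpath, ← hpath] at h ⊢
        exact pk_inj _ (hsz a g t) (hsz a g' t') h)
      (cc M (M.run (fun q => look a q.length) g t)) ⟨g, t, (hpath a g t).symm⟩
    refine ⟨g', t', ht', ?_⟩
    have h1 : (M.run (fun q => look a q.length) g' t').q =
        (M.run (fun q => look a q.length) g t).q := by
      rw [← hpath] at h
      exact nm_inj.mp (congrArg Prod.fst h)
    rw [h1, ht]
  · rintro ⟨g, t, -, h⟩
    exact ⟨g, t, h⟩

/-- acceptance by a deterministic space bounded machine is decided in every class with the closure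
properties -/
theorem det_space (M : Mach Δ Q Γ K) {look : α → ℕ → Option Δ}
    (hl : Fn C (fun p : α × ℕ => nmo (look p.1 p.2))) (hdet : M.Det) {c0 : ℕ}
    (hb : ∀ a g t i, ((M.run (fun q => look a q.length) g t).s i).length ≤ c0 * (sz a + 1)) :
    Pr C (fun a => M.Accepts (fun q => look a q.length)) := by
  obtain ⟨S, c, hS, hpath, hsz, hacc⟩ := space_codes (C := C) M hl hb
  have hn : Fn C (fun a : α => 2 ^ (c * (sz a + 1) * dim (CC K))) :=
    fn_pow2mul (b := fun a => c * (sz a + 1)) (by fun_prop) (fun a => le_rfl) _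
  have hR : Fn C (fun a : α => cc M (M.run (fun q => look a q.length) (fun _ => false)
      (2 ^ (c * (sz a + 1) * dim (CC K))))) := by
    refine Fn.iter (F := fun a t => cc M (M.run (fun q => look a q.length) (fun _ => false) t))
      (g := fun _ => cc M M.init) (h := fun x => S (x.1, 0, x.2.2)) hn (by fun_prop) (by fun_prop)
      (fun a => rfl) (fun a i _ => ?_) ⟨c, fun a i _ => hsz a _ i⟩
    show cc M (M.run (fun q => look a q.length) (fun _ => false) (i + 1)) =
      S (a, 0, cc M (M.run (fun q => look a q.length) (fun _ => false) i))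
    rw [hpath, hpath]
    rfl
  have hP : Pr C (fun a : α => ∃ q : Q, M.out q = some true ∧
      (cc M (M.run (fun q => look a q.length) (fun _ => false)
        (2 ^ (c * (sz a + 1) * dim (CC K))))).1 = nm q) :=
    (pr_state (C := C) (K := K) fun q : Q => M.out q = some true).comp hR
  refine hP.congr fun a => ?_
  rw [state_iff M (fun q => M.out q = some true), hacc]
  constructor
  · rintro ⟨g, t, ht, h⟩
    rw [run_det hdet _ g (fun _ => false)] at h
    obtain ⟨u, hu⟩ := Nat.exists_eq_add_of_le ht.le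
    rw [hu]
    show M.out (M.runFrom _ _ M.init (t + u)).q = some true
    rw [Mach.runFrom_halted M _ _ M.init t u (by
      show (M.out (M.run _ _ t).q).isSome
      rw [h]; rfl)]
    exact h
  · intro h
    exact (hacc a).mp ⟨_, _, h⟩

/-- acceptance by a space bounded machine is reachability in a graph -/
theorem space_graph (M : Mach Δ Q Γ K) {look : α → ℕ → Option Δ}
    (hl : Fn C (fun p : α × ℕ => nmo (look p.1 p.2))) {c0 : ℕ}
    (hb : ∀ a g t i, ((M.run (fun q => look a q.length) g t).s i).length ≤ c0 * (sz a + 1)) :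
    ∃ (E : α → ℕ → ℕ → Prop) (N u0 : α → ℕ) (A : α → ℕ → Prop) (c : ℕ),
      Pr C (fun p : α × ℕ × ℕ => E p.1 p.2.1 p.2.2) ∧ Fn C N ∧ Fn C u0 ∧
      Pr C (fun p : α × ℕ => A p.1 p.2) ∧ (∀ a, N a = 2 ^ (c * (sz a + 1))) ∧ (∀ a, u0 a < N a) ∧
      ∀ a, M.Accepts (fun q => look a q.length) ↔
        ∃ v < N a, A a v ∧ Reach (E a) (N a) (N a) (u0 a) v := by
  obtain ⟨S, c, hS, hpath, hsz, hacc⟩ := space_codes (C := C) M hl hb
  have hbb : Fn C (fun a : α => c * (sz a + 1)) := by fun_prop
  have hn : Fn C (fun a : α => 2 ^ (c * (sz a + 1) * dim (CC K))) :=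
    fn_pow2mul (b := fun a => c * (sz a + 1)) (by fun_prop) (fun a => le_rfl) _
  have hup : Fn C (fun p : α × ℕ => (upk (c * (sz p.1 + 1)) p.2 : CC K)) :=
    Fn.upk (c := c) (by fun_prop) (fun p => by
      obtain ⟨a, n⟩ := p
      show c * (sz a + 1) ≤ c * (sz (a, n) + 1)
      rw [sz_prod]
      exact Nat.mul_le_mul_left c (by omega)) (by fun_prop)
  have hE : ∀ b : ℕ, Pr C (fun p : α × ℕ × ℕ =>
      p.2.2 = pk (c * (sz p.1 + 1)) (S (p.1, b, upk (c * (sz p.1 + 1)) p.2.1))) := by
    intro b
    have h1 : Fn C (fun p : α × ℕ × ℕ => (upk (c * (sz p.1 + 1)) p.2.1 : CC K)) :=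
      hup.comp (f := fun p : α × ℕ × ℕ => (p.1, p.2.1)) (by fun_prop)
    have h2 : Fn C (fun p : α × ℕ × ℕ => S (p.1, b, upk (c * (sz p.1 + 1)) p.2.1)) := by fun_prop
    have h3 : Fn C (fun p : α × ℕ × ℕ =>
        pk (c * (sz p.1 + 1)) (S (p.1, b, upk (c * (sz p.1 + 1)) p.2.1))) :=
      Fn.pk (c := c) (by fun_prop) (fun p => by
        obtain ⟨a, n, m⟩ := p
        show c * (sz a + 1) ≤ c * (sz (a, n, m) + 1)
        rw [sz_prod]
        exact Nat.mul_le_mul_left c (by omega)) h2
    fun_prop
  refine ⟨fun a u v => v = pk (c * (sz a + 1)) (S (a, 0, upk (c * (sz a + 1)) u)) ∨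
      v = pk (c * (sz a + 1)) (S (a, 1, upk (c * (sz a + 1)) u)),
    fun a => 2 ^ (c * (sz a + 1) * dim (CC K)), fun a => pk (c * (sz a + 1)) (cc M M.init),
    fun a v => ∃ q : Q, M.out q = some true ∧ (upk (c * (sz a + 1)) v : CC K).1 = nm q,
    c * dim (CC K), (hE 0).or (hE 1), hn, ?_, ?_, fun a => by ring_nf, fun a => ?_, fun a => ?_⟩
  · exact Fn.pk (c := c) (by fun_prop) (fun a => le_rfl) (by fun_prop)
  · exact (pr_state (C := C) (K := K) fun q : Q => M.out q = some true).comp hup
  · exact pk_lt _ _ (hsz a (fun _ => false) 0)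
  · have hstep : ∀ g t (b : Bool), pk (c * (sz a + 1)) (S (a, b.toNat, upk (c * (sz a + 1))
        (pk (c * (sz a + 1)) (cc M (M.run (fun q => look a q.length) g t))))) =
        pk (c * (sz a + 1)) (cc M (M.run (fun q => look a q.length)
          (fun i => if i < t then g i else b) (t + 1))) := by
      intro g t b
      rw [upk_pk _ _ (hsz a g t), hpath, hpath]
      show _ = pk _ (S (a, (if t < t then g t else b).toNat, pathFrom _ _ _ t))
      rw [if_neg (lt_irrefl t), pathFrom_congr (fun b x => S (a, b.toNat, x))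
        (fun i => if i < t then g i else b) g _ t (fun i hi => if_pos hi)]
    have hmem : ∀ g t, pk (c * (sz a + 1)) (cc M (M.run (fun q => look a q.length) g t)) <
        2 ^ (c * (sz a + 1) * dim (CC K)) := fun g t => pk_lt _ _ (hsz a g t)
    rw [hacc]
    constructor
    · rintro ⟨g, t, ht, h⟩
      refine ⟨pk (c * (sz a + 1)) (cc M (M.run (fun q => look a q.length) g t)), hmem g t,
        ⟨_, h, ?_⟩, Reach.mono (hmem g t) ht.le ?_⟩
      · rw [upk_pk _ _ (hsz a g t)]
        rfl
      · clear ht h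
        induction t with
        | zero => rfl
        | succ t ih =>
          refine ⟨_, hmem g t, ih, Or.inr ?_⟩
          have h1 := hstep g t (g t)
          have h2 : M.run (fun q => look a q.length) (fun i => if i < t then g i else g t) (t + 1) =
              M.run (fun q => look a q.length) g (t + 1) :=
            M.runFrom_congr _ _ _ _ _ fun i hi => by
              by_cases h : i < t
              · simp [h]
              · rw [if_neg h]
                congr 1
                omega
          rw [h2] at h1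
          rw [← h1]
          cases g t
          · exact Or.inl rfl
          · exact Or.inr rfl
    · rintro ⟨v, hv, ⟨q, hq, hvq⟩, hr⟩
      have key : ∀ d v, Reach (fun u v => v = pk (c * (sz a + 1))
          (S (a, 0, upk (c * (sz a + 1)) u)) ∨ v = pk (c * (sz a + 1))
          (S (a, 1, upk (c * (sz a + 1)) u))) (2 ^ (c * (sz a + 1) * dim (CC K))) d
          (pk (c * (sz a + 1)) (cc M M.init)) v →
          ∃ g t, v = pk (c * (sz a + 1)) (cc M (M.run (fun q => look a q.length) g t)) := by
        intro d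
        induction d with
        | zero =>
          intro v hv
          exact ⟨fun _ => false, 0, hv.symm⟩
        | succ d ih =>
          rintro v ⟨w, -, hw, hwv⟩
          obtain ⟨g, t, rfl⟩ := ih w hw
          rcases hwv with rfl | h1 | h1
          · exact ⟨g, t, rfl⟩
          · exact ⟨_, _, h1.trans (hstep g t false)⟩
          · exact ⟨_, _, h1.trans (hstep g t true)⟩
      obtain ⟨g, t, rfl⟩ := key _ v hr
      rw [upk_pk _ _ (hsz a g t)] at hvq
      refine (hacc a).mp ⟨g, t, ?_⟩
      have : (M.run (fun q => look a q.length) g t).q = q := nm_inj.mp hvq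
      rw [this, hq]

end LSC
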