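import Pool.Agent.H85P.Word
import Pool.Agent.H69P.HistR

/-!
# Deterministic linear space is the smallest class; bits; packing; recursion with the history
-/

set_option autoImplicit false

namespace LSC

open H85L LSP Function

variable {C : NClass} [Calc C] {κ : Kind} {α β : Type} [Ctx α] [Ctx β]

/-- deterministic linear space -/
abbrev DL : Kind := ⟨true, false⟩

theorem Cmp.lift {k : ℕ} {F : (Fin k → ℕ) → ℕ} (h : Cmp DL F) : Cmp κ F := by
  intro Δ
  obtain ⟨p, hdet, c, hp⟩ := h Δ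
  refine ⟨p, fun _ => hdet rfl, c, fun v a => ?_⟩
  obtain ⟨B, T, h1, h2, h3, h4⟩ := hp v a
  exact ⟨B, T, h1, h2, fun _ => h3 rfl, h4⟩

theorem Fn.lift {f : α → β} (h : Fn (KC DL) f) : Fn (KC κ) f := fun j => Cmp.lift (h j)

theorem Pr.lift {p : α → Prop} (h : Pr (KC DL) p) : Pr (KC κ) p := by
  obtain ⟨f, hf, h⟩ := h
  exact ⟨f, hf.lift, h⟩

/-! ### Packing -/

theorem upk_pk' (b : ℕ) (x : β) (hb : ∀ j, e x j < 2 ^ b) : upk b (pk b x) = x := by
  unfold upk
  rw [Equiv.symm_apply_eq]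
  funext j
  exact digits_get b _ hb j

theorem pk_lt' (b : ℕ) (x : β) (hb : ∀ j, e x j < 2 ^ b) : pk b x < 2 ^ (b * dim β) :=
  digits_lt b _ hb

theorem upk_lt (b n : ℕ) (j : Fin (dim β)) : e (upk b n : β) j < 2 ^ b := by
  unfold upk
  rw [Equiv.apply_symm_apply]
  exact Nat.mod_lt _ (by positivity)

theorem digits_sum (b k n : ℕ) (hn : n < 2 ^ (b * k)) :
    ∑ j : Fin k, n / 2 ^ (b * (j : ℕ)) % 2 ^ b * 2 ^ (b * (j : ℕ)) = n := by
  have key : ∀ k, ∑ j : Fin k, n / 2 ^ (b * (j : ℕ)) % 2 ^ b * 2 ^ (b * (j : ℕ)) =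
      n % 2 ^ (b * k) := by
    intro k
    induction k with
    | zero => simp [Nat.mod_one]
    | succ k ih =>
      rw [Fin.sum_univ_castSucc]
      simp only [Fin.val_castSucc, Fin.val_last]
      rw [ih, Nat.mul_succ, pow_add, Nat.mod_mul]
      ring
  rw [key, Nat.mod_eq_of_lt hn]

theorem pk_upk (b n : ℕ) (hn : n < 2 ^ (b * dim β)) : pk b (upk b n : β) = n := by
  unfold pk upk
  rw [Equiv.apply_symm_apply]
  exact digits_sum b _ n hn

/-! ### Bits -/

/-- the bit `j` of `n` -/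
def bt (n j : ℕ) : ℕ := n / 2 ^ j % 2

theorem bt_le (n j : ℕ) : bt n j ≤ 1 := Nat.lt_succ_iff.mp (Nat.mod_lt _ (by norm_num))

theorem fn_bt : Fn C (fun p : ℕ × ℕ => bt p.1 p.2) := by
  have h0 := fn_cpow (C := C)
  have h : Fn C (fun p : ℕ × ℕ => p.1 / min (2 ^ p.2) (p.1 + 1) % 2) := by fun_prop
  refine h.congr fun p => ?_
  obtain ⟨n, j⟩ := p
  unfold bt
  simp only
  by_cases hj : 2 ^ j ≤ n + 1
  · rw [min_eq_left hj]
  · rw [min_eq_right (by omega), Nat.div_eq_of_lt (by omega), Nat.div_eq_of_lt (by omega)]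

@[fun_prop] protected theorem Fn.bt {f g : α → ℕ} (hf : Fn C f) (hg : Fn C g) :
    Fn C (fun a => bt (f a) (g a)) := fn_bt.comp (f := fun a => (f a, g a)) (hf.pair hg)

theorem bits_sum (n V : ℕ) (hn : n < 2 ^ V) : ∑ j ∈ Finset.range V, bt n j * 2 ^ j = n := by
  have h := digits_sum 1 V n (by simpa using hn)
  simp only [one_mul, pow_one] at h
  rw [Finset.sum_range]
  exact h

open Classical in
/-- the number with the given bits -/
noncomputable def ofBits (V : ℕ) (p : ℕ → Prop) : ℕ :=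
  ∑ j ∈ Finset.range V, (if p j then 1 else 0) * 2 ^ j

theorem ofBits_congr {V : ℕ} {p q : ℕ → Prop} (h : ∀ j < V, p j ↔ q j) :
    ofBits V p = ofBits V q := by
  classical
  unfold ofBits
  refine Finset.sum_congr rfl fun j hj => ?_
  have := h j (Finset.mem_range.mp hj)
  by_cases hp : p j
  · rw [if_pos hp, if_pos (this.mp hp)]
  · rw [if_neg hp, if_neg (fun hq => hp (this.mpr hq))]

theorem ofBits_bt (V n : ℕ) (hn : n < 2 ^ V) : ofBits V (fun j => bt n j = 1) = n := by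
  classical
  unfold ofBits
  rw [← bits_sum n V hn]
  refine Finset.sum_congr rfl fun j _ => ?_
  rw [bits_sum n V hn]
  have := bt_le n j
  by_cases h : bt n j = 1
  · rw [if_pos h, h]
  · rw [if_neg h]
    have : bt n j = 0 := by omega
    rw [this]

theorem Fn.ofBits {V : α → ℕ} {p : α → ℕ → Prop} (hV : Fn C V) {c : ℕ}
    (hc : ∀ a, V a ≤ c * (sz a + 1)) (hp : Pr C (fun q : α × ℕ => p q.1 q.2)) :
    Fn C (fun a => ofBits (V a) (p a)) := by
  classical
  have h2 : Fn C (fun q : α × ℕ => 2 ^ min q.2 (V q.1)) := by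
    refine Fn.pow2 (by fun_prop) c fun q => ?_
    obtain ⟨a, j⟩ := q
    simp only [sz_prod]
    refine (min_le_right _ _).trans ((hc a).trans (Nat.mul_le_mul_left c (by omega)))
  have h3 : Fn C (fun a => ∑ j ∈ Finset.range (V a), (if p a j then 1 else 0) * 2 ^ min j (V a)) := by
    refine Fn.sum hV ?_
    exact Fn.mul (Fn.ite hp (Fn.const 1) (Fn.const 0)) h2
  refine h3.congr fun a => ?_
  unfold LSC.ofBits
  refine Finset.sum_congr rfl fun j hj => ?_
  rw [min_eq_left (Finset.mem_range.mp hj).le]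

/-! ### Recursion with the history -/

/-- recursion with access to all earlier values has a solution -/
theorem exists_hist {X : Type} {r : ℕ} (g : X) (Q : ℕ → X → Fin r → ℕ)
    (H : ℕ → X → (Fin r → X) → X) : ∃ f : ℕ → X, f 0 = g ∧
      ∀ t, f (t + 1) = H t (f t) fun j => f (min (Q t (f t) j) t) := by
  let F : ℕ → ℕ → X := fun n => Nat.rec (fun _ => g) (fun t Ft => fun i =>
    if i ≤ t then Ft i else H t (Ft t) fun j => Ft (min (Q t (Ft t) j) t)) n
  have hF : ∀ t i, F (t + 1) i = if i ≤ t then F t i else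
    H t (F t t) fun j => F t (min (Q t (F t t) j) t) := fun t i => rfl
  have h1 : ∀ t i, i ≤ t → F t i = F i i := by
    intro t
    induction t with
    | zero =>
      intro i hi
      obtain rfl : i = 0 := by omega
      rfl
    | succ t ih =>
      intro i hi
      by_cases h : i ≤ t
      · rw [hF, if_pos h, ih i h]
      · obtain rfl : i = t + 1 := by omega
        rfl
  refine ⟨fun t => F t t, rfl, fun t => ?_⟩
  show F (t + 1) (t + 1) = _
  rw [hF, if_neg (by omega)]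
  congr 1
  funext j
  exact h1 t _ (min_le_right _ _)

theorem Fn.hist (hκ : κ.time = true) {r : ℕ} {f : α → ℕ → ℕ} {g : α → ℕ}
    {Q : Fin r → α × ℕ × ℕ → ℕ} {H : α × ℕ × ℕ × (Fin r → ℕ) → ℕ} (hg : Fn (KC κ) g)
    (hQ : ∀ j, Fn (KC κ) (Q j)) (hH : Fn (KC κ) H) (h0 : ∀ a, f a 0 = g a)
    (hs : ∀ a t, f a (t + 1) = H (a, t, f a t, fun j => f a (min (Q j (a, t, f a t)) t)))
    (hb : ∃ c, ∀ a t, Nat.size (f a t) ≤ c * (sz a + Nat.size t + 1)) :
    Fn (KC κ) (fun p : α × ℕ => f p.1 p.2) := by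
  obtain ⟨c, hc⟩ := hb
  have c1 : ∀ i : Fin (dim α), Fn (KC κ) (fun v : Fin (dim α + 1 + 1 + r) → ℕ =>
      v (Fin.castAdd r i.castSucc.castSucc)) := fun i => Fn.apply Fn.id _
  have c2 : Fn (KC κ) (fun v : Fin (dim α + 1 + 1 + r) → ℕ =>
      v (Fin.castAdd r (Fin.last (dim α)).castSucc)) := Fn.apply Fn.id _
  have c3 : Fn (KC κ) (fun v : Fin (dim α + 1 + 1 + r) → ℕ =>
      v (Fin.castAdd r (Fin.last (dim α + 1)))) := Fn.apply Fn.id _
  have c4 : Fn (KC κ) (fun v : Fin (dim α + 1 + 1 + r) → ℕ =>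
      fun j : Fin r => v (Fin.natAdd (dim α + 1 + 1) j)) := Fn.pi fun j => Fn.apply Fn.id _
  have c5 : Fn (KC κ) (fun v : Fin (dim α + 1 + 1 + r) → ℕ =>
      (e.symm (fun i => v (Fin.castAdd r i.castSucc.castSucc)) : α)) := fn_symm c1
  have d1 : ∀ i : Fin (dim α), Fn (KC κ) (fun v : Fin (dim α + 1 + 1) → ℕ =>
      v i.castSucc.castSucc) := fun i => Fn.apply Fn.id _
  have d2 : Fn (KC κ) (fun v : Fin (dim α + 1 + 1) → ℕ =>
      v (Fin.last (dim α)).castSucc) := Fn.apply Fn.id _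
  have d3 : Fn (KC κ) (fun v : Fin (dim α + 1 + 1) → ℕ =>
      v (Fin.last (dim α + 1))) := Fn.apply Fn.id _
  have d5 : Fn (KC κ) (fun v : Fin (dim α + 1 + 1) → ℕ =>
      (e.symm (fun i => v i.castSucc.castSucc) : α)) := fn_symm d1
  have hHc : Cmp κ (fun v : Fin (dim α + 1 + 1 + r) → ℕ =>
      H (e.symm (fun i => v (Fin.castAdd r i.castSucc.castSucc)),
        v (Fin.castAdd r (Fin.last (dim α)).castSucc), v (Fin.castAdd r (Fin.last (dim α + 1))),
        fun j : Fin r => v (Fin.natAdd (dim α + 1 + 1) j))) :=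
    fn_kc.mp (hH.comp (c5.pair (c2.pair (c3.pair c4))))
  have hQc : ∀ j, Cmp κ (fun v : Fin (dim α + 1 + 1) → ℕ =>
      Q j (e.symm (fun i => v i.castSucc.castSucc), v (Fin.last (dim α)).castSucc,
        v (Fin.last (dim α + 1)))) :=
    fun j => fn_kc.mp ((hQ j).comp (d5.pair (d2.pair d3)))
  have hgc : Cmp κ (fun v : Fin (dim α) → ℕ => g (e.symm v)) := fn_kc.mp (hg.comp
    (fn_symm (β := α) (f := fun v : Fin (dim α) → ℕ => v) fun j => Fn.apply Fn.id _))
  have key := Cmp.hist hκ (k := dim α) (r := r) (g := fun v => g (e.symm v)) (Q := fun j => fun v =>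
      Q j (e.symm (fun i => v i.castSucc.castSucc), v (Fin.last (dim α)).castSucc,
        v (Fin.last (dim α + 1)))) (H := fun v =>
      H (e.symm (fun i => v (Fin.castAdd r i.castSucc.castSucc)),
        v (Fin.castAdd r (Fin.last (dim α)).castSucc), v (Fin.castAdd r (Fin.last (dim α + 1))),
        fun j : Fin r => v (Fin.natAdd (dim α + 1 + 1) j))) hgc hQc hHc
    (fun v t => f (e.symm v) t) (fun v => h0 _) (fun v t => by
      rw [hs]
      simp only [Fin.append_left, Fin.append_right, Fin.snoc_castSucc, Fin.snoc_last])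
    ⟨c, fun v t => by
      have h := hc (e.symm v) t
      have h2 : sz (e.symm v : α) = LSP.sz v := by
        unfold LSC.sz
        rw [Equiv.apply_symm_apply]
        rfl
      rw [h2] at h
      exact h⟩
  have h3 := fn_kc.mpr key
  have h4 : Fn (KC κ) (fun p : α × ℕ => (e p : Fin (dim α + 1) → ℕ)) := by
    refine Fn.pi fun j => ?_
    exact fn_comp (α := α × ℕ) j
  have h5 := h3.comp h4
  refine h5.congr fun p => ?_
  obtain ⟨a, n⟩ := p
  have h6 : (fun i : Fin (dim α) => (e (a, n) : Fin (dim α + 1) → ℕ) (Fin.castSucc i)) = e a := by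
    funext i
    exact Fin.append_left (e a) (e n) i
  have h7 : (e (a, n) : Fin (dim α + 1) → ℕ) (Fin.last _) = n :=
    Fin.append_right (e a) (e n) 0
  show f a n = f (e.symm (fun i => (e (a, n) : Fin (dim α + 1) → ℕ) (Fin.castSucc i)))
    ((e (a, n) : Fin (dim α + 1) → ℕ) (Fin.last _))
  rw [h6, h7, Equiv.symm_apply_apply]

end LSC
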