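import Pool.Agent.H85P.Calc

/-!
# Arithmetic in a class of number functions
-/

set_option autoImplicit false

namespace LSC

variable {C : NClass} [Calc C]
variable {α β γ δ : Type} [Ctx α] [Ctx β] [Ctx γ] [Ctx δ]

/-! ### Binary lengths -/

theorem size_add_le (a b : ℕ) : Nat.size (a + b) ≤ Nat.size a + Nat.size b + 1 := by
  rw [Nat.size_le]
  have h1 := Nat.lt_size_self a
  have h2 := Nat.lt_size_self b
  have h3 : 2 ^ (Nat.size a + Nat.size b + 1) = 2 ^ (Nat.size a + Nat.size b) * 2 := pow_succ _ _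
  have h4 : 2 ^ Nat.size a ≤ 2 ^ (Nat.size a + Nat.size b) :=
    Nat.pow_le_pow_right (by norm_num) (by omega)
  have h5 : 2 ^ Nat.size b ≤ 2 ^ (Nat.size a + Nat.size b) :=
    Nat.pow_le_pow_right (by norm_num) (by omega)
  omega

theorem size_mul_le (a b : ℕ) : Nat.size (a * b) ≤ Nat.size a + Nat.size b := by
  rw [Nat.size_le, pow_add]
  exact Nat.mul_lt_mul'' (Nat.lt_size_self a) (Nat.lt_size_self b)

theorem size_le_succ (a : ℕ) : Nat.size a ≤ Nat.size (a + 1) := Nat.size_le_size (by omega)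

theorem size_succ_le (a : ℕ) : Nat.size (a + 1) ≤ Nat.size a + 1 := by
  have := size_add_le a 1
  rw [Nat.size_le]
  have h1 := Nat.lt_size_self a
  rw [pow_succ]
  omega

theorem size_le_self (a : ℕ) : Nat.size a ≤ a := by
  rw [Nat.size_le]
  exact Nat.lt_two_pow_self

theorem size_mono {a b : ℕ} (h : a ≤ b) : Nat.size a ≤ Nat.size b := Nat.size_le_size h

theorem pow_size_le {a : ℕ} (h : a ≠ 0) : 2 ^ Nat.size a ≤ 2 * a := by
  have h1 : Nat.size a ≠ 0 := fun h0 => h (Nat.size_eq_zero.mp h0)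
  obtain ⟨k, hk⟩ := Nat.exists_eq_succ_of_ne_zero h1
  rw [hk, pow_succ]
  have h2 : 2 ^ k ≤ a := Nat.lt_size.mp (by omega)
  omega

/-! ### Bootstrapping -/

theorem fn_pred : Fn C (fun n : ℕ => n - 1) := by
  have h : Fn C (fun p : Unit × ℕ => (fun (_ : Unit) (i : ℕ) => i - 1) p.1 p.2) :=
    Fn.recn (F := fun (_ : Unit) (i : ℕ) => i - 1) (g := fun _ => 0) (h := fun q : Unit × ℕ × ℕ => q.2.1) (by fun_prop) (by fun_prop)
      (fun _ => rfl) (fun _ _ => rfl) ⟨1, fun a i => by
        simp only [sz_unit, sz_nat]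
        have := size_mono (show i - 1 ≤ i by omega)
        omega⟩
  exact h.comp (Fn.pair (Fn.const ()) Fn.id)

@[fun_prop] protected theorem Fn.pred {f : α → ℕ} (hf : Fn C f) : Fn C (fun a => f a - 1) := fn_pred.comp hf

theorem fn_sub : Fn C (fun p : ℕ × ℕ => p.1 - p.2) :=
  Fn.recn (F := fun a i => a - i) (g := fun a => a) (h := fun q : ℕ × ℕ × ℕ => q.2.2 - 1)
    (by fun_prop) (by fun_prop) (fun _ => rfl) (fun _ _ => rfl) ⟨1, fun a i => by
      simp only [sz_nat]
      have := size_mono (show a - i ≤ a by omega)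
      omega⟩

@[fun_prop] protected theorem Fn.sub {f g : α → ℕ} (hf : Fn C f) (hg : Fn C g) :
    Fn C (fun a => f a - g a) := fn_sub.comp (hf.pair hg)

theorem fn_add : Fn C (fun p : ℕ × ℕ => p.1 + p.2) :=
  Fn.recn (F := fun a i => a + i) (g := fun a => a) (h := fun q : ℕ × ℕ × ℕ => q.2.2 + 1)
    (by fun_prop) (by fun_prop) (fun _ => rfl) (fun _ _ => rfl) ⟨1, fun a i => by
      simp only [sz_nat]
      have := size_add_le a i
      omega⟩

@[fun_prop] protected theorem Fn.add {f g : α → ℕ} (hf : Fn C f) (hg : Fn C g) :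
    Fn C (fun a => f a + g a) := fn_add.comp (hf.pair hg)

theorem fn_mul : Fn C (fun p : ℕ × ℕ => p.1 * p.2) :=
  Fn.recn (F := fun a i => a * i) (g := fun _ => 0) (h := fun q : ℕ × ℕ × ℕ => q.2.2 + q.1)
    (by fun_prop) (by fun_prop) (fun _ => rfl) (fun _ _ => rfl) ⟨1, fun a i => by
      simp only [sz_nat]
      have := size_mul_le a i
      omega⟩

@[fun_prop] protected theorem Fn.mul {f g : α → ℕ} (hf : Fn C f) (hg : Fn C g) :
    Fn C (fun a => f a * g a) := fn_mul.comp (hf.pair hg)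

/-- case distinction -/
def ifz {β : Type} (n : ℕ) (x y : β) : β := match n with
  | 0 => x
  | _ + 1 => y

theorem fn_ifz : Fn C (fun p : (β × β) × ℕ => ifz p.2 p.1.1 p.1.2) :=
  Fn.recn (F := fun (a : β × β) i => ifz i a.1 a.2) (g := fun a => a.1)
    (h := fun q : (β × β) × ℕ × β => q.1.2) (by fun_prop) (by fun_prop) (fun _ => rfl)
    (fun _ _ => rfl) ⟨1, fun a i => by
      obtain ⟨x, y⟩ := a
      rw [sz_prod]
      cases i with
      | zero => show sz x ≤ _; omega
      | succ i => show sz y ≤ _; omega⟩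

@[fun_prop] protected theorem Fn.ifz {n : α → ℕ} {f g : α → β} (hn : Fn C n) (hf : Fn C f) (hg : Fn C g) :
    Fn C (fun a => ifz (n a) (f a) (g a)) := fn_ifz.comp ((hf.pair hg).pair hn)

/-! ### Predicates -/

/-- the predicate is decided by a function of the class -/
@[fun_prop] def Pr (C : NClass) {α : Type} [Ctx α] (p : α → Prop) : Prop :=
  ∃ f : α → ℕ, Fn C f ∧ ∀ a, p a ↔ f a ≠ 0

@[fun_prop] protected theorem Pr.comp {p : β → Prop} {f : α → β} (hp : Pr C p) (hf : Fn C f) : Pr C (fun a => p (f a)) := by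
  obtain ⟨g, hg, h⟩ := hp
  exact ⟨fun a => g (f a), hg.comp hf, fun a => h (f a)⟩

omit [Calc C] in
protected theorem Pr.congr {p q : α → Prop} (hp : Pr C p) (h : ∀ a, q a ↔ p a) : Pr C q := by
  obtain ⟨f, hf, h'⟩ := hp
  exact ⟨f, hf, fun a => (h a).trans (h' a)⟩

@[fun_prop] protected theorem Pr.not {p : α → Prop} (hp : Pr C p) : Pr C (fun a => ¬ p a) := by
  obtain ⟨f, hf, h⟩ := hp
  refine ⟨fun a => 1 - f a, by fun_prop, fun a => ?_⟩
  show ¬ p a ↔ 1 - f a ≠ 0
  rw [h a]
  omega

@[fun_prop] protected theorem Pr.and {p q : α → Prop} (hp : Pr C p) (hq : Pr C q) :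
    Pr C (fun a => p a ∧ q a) := by
  obtain ⟨f, hf, h⟩ := hp
  obtain ⟨g, hg, h'⟩ := hq
  refine ⟨fun a => f a * g a, by fun_prop, fun a => ?_⟩
  show p a ∧ q a ↔ f a * g a ≠ 0
  rw [h a, h' a]
  simp

@[fun_prop] protected theorem Pr.or {p q : α → Prop} (hp : Pr C p) (hq : Pr C q) :
    Pr C (fun a => p a ∨ q a) := by
  obtain ⟨f, hf, h⟩ := hp
  obtain ⟨g, hg, h'⟩ := hq
  refine ⟨fun a => f a + g a, by fun_prop, fun a => ?_⟩
  show p a ∨ q a ↔ f a + g a ≠ 0
  rw [h a, h' a]
  omega

@[fun_prop] protected theorem Pr.imp {p q : α → Prop} (hp : Pr C p) (hq : Pr C q) :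
    Pr C (fun a => p a → q a) :=
  (hp.not.or hq).congr fun _ => imp_iff_not_or

@[fun_prop] protected theorem Pr.iff {p q : α → Prop} (hp : Pr C p) (hq : Pr C q) :
    Pr C (fun a => p a ↔ q a) :=
  ((hp.imp hq).and (hq.imp hp)).congr fun _ => iff_iff_implies_and_implies

@[fun_prop] protected theorem Pr.const (p : Prop) : Pr C (fun _ : α => p) := by
  by_cases h : p
  · exact ⟨fun _ => 1, by fun_prop, fun _ => by simp [h]⟩
  · exact ⟨fun _ => 0, by fun_prop, fun _ => by simp [h]⟩

@[fun_prop] protected theorem Pr.lt {f g : α → ℕ} (hf : Fn C f) (hg : Fn C g) :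
    Pr C (fun a => f a < g a) :=
  ⟨fun a => g a - f a, by fun_prop, fun a => by
    show f a < g a ↔ g a - f a ≠ 0
    omega⟩

@[fun_prop] protected theorem Pr.le {f g : α → ℕ} (hf : Fn C f) (hg : Fn C g) :
    Pr C (fun a => f a ≤ g a) :=
  ⟨fun a => g a + 1 - f a, by fun_prop, fun a => by
    show f a ≤ g a ↔ g a + 1 - f a ≠ 0
    omega⟩

@[fun_prop] protected theorem Pr.eq {f g : α → ℕ} (hf : Fn C f) (hg : Fn C g) :
    Pr C (fun a => f a = g a) :=
  ((Pr.le hf hg).and (Pr.le hg hf)).congr fun a => by omega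

@[fun_prop] protected theorem Fn.ite {p : α → Prop} [DecidablePred p] {f g : α → β} (hp : Pr C p) (hf : Fn C f)
    (hg : Fn C g) : Fn C (fun a => if p a then f a else g a) := by
  obtain ⟨s, hs, h⟩ := hp
  have h1 : (fun a => if p a then f a else g a) = fun a => ifz (s a) (g a) (f a) := by
    funext a
    by_cases hp : p a
    · rw [if_pos hp]
      have := (h a).mp hp
      cases hsa : s a with
      | zero => exact absurd hsa this
      | succ k => rfl
    · rw [if_neg hp]
      have : s a = 0 := by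
        by_contra h0
        exact hp ((h a).mpr h0)
      rw [this]
      rfl
  rw [h1]
  fun_prop

/-- case distinction for any property -/
noncomputable def ifp {β : Type} (p : Prop) (x y : β) : β := by
  classical
  exact if p then x else y

theorem ifp_pos {β : Type} {p : Prop} (h : p) (x y : β) : ifp p x y = x := by
  unfold ifp
  rw [if_pos h]

theorem ifp_neg {β : Type} {p : Prop} (h : ¬ p) (x y : β) : ifp p x y = y := by
  unfold ifp
  rw [if_neg h]

@[fun_prop] protected theorem Fn.ifp {p : α → Prop} {f g : α → β} (hp : Pr C p) (hf : Fn C f)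
    (hg : Fn C g) : Fn C (fun a => ifp (p a) (f a) (g a)) := by
  classical
  exact Fn.ite hp hf hg

omit [Calc C] in
protected theorem Fn.congr {f g : α → β} (hf : Fn C f) (h : ∀ a, g a = f a) : Fn C g := by
  have : g = f := funext h
  exact this ▸ hf

@[fun_prop] protected theorem Fn.max {f g : α → ℕ} (hf : Fn C f) (hg : Fn C g) :
    Fn C (fun a => max (f a) (g a)) := by
  have h : Fn C (fun a => f a + (g a - f a)) := by fun_prop
  exact h.congr fun a => by omega

@[fun_prop] protected theorem Fn.min {f g : α → ℕ} (hf : Fn C f) (hg : Fn C g) :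
    Fn C (fun a => min (f a) (g a)) := by
  have h : Fn C (fun a => f a - (f a - g a)) := by fun_prop
  exact h.congr fun a => by omega

/-! ### Iteration -/

/-- functions with linear length of the results -/
def Lb {α β : Type} [Ctx α] [Ctx β] (f : α → β) : Prop := ∃ c, ∀ a, sz (f a) ≤ c * (sz a + 1)

/-- recursion up to `n a` -/
protected theorem Fn.iter {F : α → ℕ → β} {g : α → β} {h : α × ℕ × β → β} {n : α → ℕ} (hn : Fn C n)
    (hg : Fn C g) (hh : Fn C h) (h0 : ∀ a, F a 0 = g a)
    (h1 : ∀ a i, i < n a → F a (i + 1) = h (a, i, F a i))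
    (hb : ∃ c, ∀ a i, i ≤ n a → sz (F a i) ≤ c * (sz a + 1)) : Fn C (fun a => F a (n a)) := by
  obtain ⟨c, hc⟩ := hb
  have key : Fn C (fun p : α × ℕ => F p.1 (min p.2 (n p.1))) := by
    refine Fn.recn (F := fun a i => F a (min i (n a))) (g := g)
      (h := fun q => if q.2.1 < n q.1 then h q else q.2.2) hg ?_ ?_ ?_ ?_
    · exact Fn.ite (by fun_prop) hh (by fun_prop)
    · intro a
      rw [Nat.zero_min, h0]
    · intro a i
      by_cases hi : i < n a
      · rw [if_pos (by exact hi), min_eq_left (show i + 1 ≤ n a by omega), min_eq_left hi.le]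
        exact h1 a i hi
      · rw [if_neg (by exact hi), min_eq_right (by omega), min_eq_right (by omega)]
    · refine ⟨c, fun a i => (hc a _ (min_le_right _ _)).trans (Nat.mul_le_mul_left c (by omega))⟩
  have h2 : Fn C (fun a => (a, n a)) := by fun_prop
  exact (key.comp h2).congr fun a => by simp

theorem lin_trans {c c' s t u : ℕ} (h1 : u ≤ c * (t + 1)) (h2 : t ≤ c' * (s + 1)) :
    u ≤ c * (c' + 1) * (s + 1) := by
  refine h1.trans ?_
  have : t + 1 ≤ (c' + 1) * (s + 1) := by nlinarith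
  calc c * (t + 1) ≤ c * ((c' + 1) * (s + 1)) := Nat.mul_le_mul_left _ this
    _ = _ := by ring

/-- bounded sums -/
protected theorem Fn.sum {n : α → ℕ} {f : α → ℕ → ℕ} (hn : Fn C n) (hf : Fn C (fun p : α × ℕ => f p.1 p.2)) :
    Fn C (fun a => ∑ i ∈ Finset.range (n a), f a i) := by
  obtain ⟨c, hc⟩ := hf.bd
  obtain ⟨c', hc'⟩ := hn.bd
  simp only [sz_nat] at hc'
  refine Fn.iter (F := fun a j => ∑ i ∈ Finset.range j, f a i) (g := fun _ => 0)
    (h := fun q => q.2.2 + f q.1 q.2.1) hn (by fun_prop) ?_ (fun a => by simp)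
    (fun a i _ => Finset.sum_range_succ _ _) ?_
  · have : Fn C (fun q : α × ℕ × ℕ => (fun p : α × ℕ => f p.1 p.2) (q.1, q.2.1)) := by fun_prop
    fun_prop
  · refine ⟨c * (c' + 2) + c', fun a j hj => ?_⟩
    rw [sz_nat, Nat.size_le]
    have h1 : ∀ i ∈ Finset.range j, f a i ≤ 2 ^ (c * (sz a + Nat.size (n a) + 1)) := by
      intro i hi
      have h2 := hc (a, i)
      simp only [sz_prod, sz_nat] at h2
      have h3 : Nat.size i ≤ Nat.size (n a) := size_mono (by
        have := Finset.mem_range.mp hi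
        omega)
      refine (Nat.lt_size_self _).le.trans (Nat.pow_le_pow_right (by norm_num) (h2.trans ?_))
      exact Nat.mul_le_mul_left c (by omega)
    have h4 := Finset.sum_le_card_nsmul _ _ _ h1
    rw [Finset.card_range, smul_eq_mul] at h4
    have h5 : j < 2 ^ (c' * (sz a + 1)) :=
      lt_of_le_of_lt hj (lt_of_lt_of_le (Nat.lt_size_self _)
        (Nat.pow_le_pow_right (by norm_num) (hc' a)))
    have h6 : c * (sz a + Nat.size (n a) + 1) ≤ c * (c' + 2) * (sz a + 1) := by
      have := hc' a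
      rw [mul_assoc]
      refine Nat.mul_le_mul_left c ?_
      nlinarith
    calc ∑ i ∈ Finset.range j, f a i ≤ j * 2 ^ (c * (sz a + Nat.size (n a) + 1)) := h4
      _ < 2 ^ (c' * (sz a + 1)) * 2 ^ (c * (c' + 2) * (sz a + 1)) := by
        refine Nat.mul_lt_mul_of_lt_of_le h5 (Nat.pow_le_pow_right (by norm_num) h6) (by positivity)
      _ = 2 ^ ((c * (c' + 2) + c') * (sz a + 1)) := by
        rw [← pow_add]
        congr 1
        ring

open Classical in
theorem pr_iff {p : α → Prop} : Pr C p ↔ Fn C (fun a => if p a then 1 else 0) := by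
  constructor
  · intro h
    exact Fn.ite h (by fun_prop) (by fun_prop)
  · intro h
    exact ⟨_, h, fun a => by by_cases hp : p a <;> simp [hp]⟩

open Classical in
/-- counting -/
protected theorem Fn.count {n : α → ℕ} {p : α → ℕ → Prop} (hn : Fn C n)
    (hp : Pr C (fun q : α × ℕ => p q.1 q.2)) :
    Fn C (fun a => ((Finset.range (n a)).filter (p a)).card) := by
  have h := Fn.sum (f := fun a i => if p a i then 1 else 0) hn (pr_iff.mp hp)
  exact h.congr fun a => Finset.card_filter _ _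

protected theorem Pr.ex {n : α → ℕ} {p : α → ℕ → Prop} (hn : Fn C n)
    (hp : Pr C (fun q : α × ℕ => p q.1 q.2)) : Pr C (fun a => ∃ i < n a, p a i) := by
  classical
  refine ⟨_, Fn.count hn hp, fun a => ?_⟩
  rw [← Nat.pos_iff_ne_zero, Finset.card_pos]
  constructor
  · rintro ⟨i, hi, h⟩
    exact ⟨i, Finset.mem_filter.mpr ⟨Finset.mem_range.mpr hi, h⟩⟩
  · rintro ⟨i, h⟩
    rw [Finset.mem_filter, Finset.mem_range] at h
    exact ⟨i, h⟩

protected theorem Pr.all {n : α → ℕ} {p : α → ℕ → Prop} (hn : Fn C n)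
    (hp : Pr C (fun q : α × ℕ => p q.1 q.2)) : Pr C (fun a => ∀ i < n a, p a i) := by
  have h := (Pr.ex hn (p := fun a i => ¬ p a i) hp.not).not
  exact h.congr fun a => by push Not; rfl

/-- the least number below `n` with the property, or `n` -/
noncomputable def mu (n : ℕ) (p : ℕ → Prop) : ℕ := by
  classical
  exact if h : ∃ i, i < n ∧ p i then Nat.find h else n

theorem mu_le (n : ℕ) (p : ℕ → Prop) : mu n p ≤ n := by
  classical
  unfold mu
  split_ifs with h
  · exact (Nat.find_spec h).1.le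
  · exact le_rfl

theorem mu_spec {n : ℕ} {p : ℕ → Prop} (h : mu n p < n) : p (mu n p) := by
  classical
  unfold mu at h ⊢
  split_ifs at h ⊢ with h'
  · exact (Nat.find_spec h').2
  · exact absurd h (lt_irrefl n)

theorem mu_min {n : ℕ} {p : ℕ → Prop} {i : ℕ} (h : i < mu n p) : ¬ p i := by
  classical
  intro hi
  have hn : i < n := lt_of_lt_of_le h (mu_le n p)
  have h' : ∃ i, i < n ∧ p i := ⟨i, hn, hi⟩
  unfold mu at h
  rw [dif_pos h'] at h
  exact Nat.find_min h' h ⟨hn, hi⟩

theorem mu_eq {n : ℕ} {p : ℕ → Prop} {i : ℕ} (hi : i < n) (h : p i) (hmin : ∀ j < i, ¬ p j) :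
    mu n p = i := by
  rcases lt_trichotomy (mu n p) i with h1 | h1 | h1
  · exact absurd (mu_spec (h1.trans hi)) (hmin _ h1)
  · exact h1
  · exact absurd h (mu_min h1)

theorem mu_zero (p : ℕ → Prop) : mu 0 p = 0 := Nat.le_zero.mp (mu_le 0 p)

open Classical in
theorem mu_succ (n : ℕ) (p : ℕ → Prop) :
    mu (n + 1) p = if mu n p < n then mu n p else if p n then n else n + 1 := by
  by_cases h : mu n p < n
  · rw [if_pos h]
    exact mu_eq (by omega) (mu_spec h) (fun j hj => mu_min hj)
  · rw [if_neg h]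
    have h0 : mu n p = n := le_antisymm (mu_le _ _) (by omega)
    by_cases hn : p n
    · rw [if_pos hn]
      exact mu_eq (by omega) hn (fun j hj => mu_min (n := n) (h0.symm ▸ hj))
    · rw [if_neg hn]
      refine le_antisymm (mu_le _ _) ?_
      by_contra h1
      have h2 := mu_spec (p := p) (show mu (n + 1) p < n + 1 by omega)
      rcases Nat.lt_or_ge (mu (n + 1) p) n with h3 | h3
      · exact mu_min (n := n) (p := p) (by omega) h2
      · have h4 : mu (n + 1) p = n := by omega
        rw [h4] at h2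
        exact hn h2

protected theorem Fn.mu {n : α → ℕ} {p : α → ℕ → Prop} (hn : Fn C n)
    (hp : Pr C (fun q : α × ℕ => p q.1 q.2)) : Fn C (fun a => mu (n a) (p a)) := by
  classical
  obtain ⟨c, hc⟩ := hn.bd
  simp only [sz_nat] at hc
  refine Fn.iter (F := fun a j => LSC.mu j (p a)) (g := fun _ => 0)
    (h := fun q => if q.2.2 < q.2.1 then q.2.2 else if p q.1 q.2.1 then q.2.1 else q.2.1 + 1) hn
    (by fun_prop) ?_ (fun a => mu_zero _) (fun a i _ => mu_succ _ _) ⟨c, fun a i hi => ?_⟩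
  · have hp' : Pr C (fun q : α × ℕ × ℕ => p q.1 q.2.1) :=
      hp.comp (f := fun q : α × ℕ × ℕ => (q.1, q.2.1)) (by fun_prop)
    exact Fn.ite (by fun_prop) (by fun_prop) (Fn.ite hp' (by fun_prop) (by fun_prop))
  · rw [sz_nat]
    exact (size_mono ((mu_le _ _).trans hi)).trans (hc a)

/-! ### Division -/

theorem div_eq_mu (a b : ℕ) : a / b = if b = 0 then 0 else mu (a + 1) fun i => a < (i + 1) * b := by
  split_ifs with h
  · simp [h]
  · have hb : 0 < b := Nat.pos_of_ne_zero h
    symm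
    refine mu_eq ?_ ?_ ?_
    · have := Nat.div_le_self a b
      omega
    · have := Nat.lt_succ_iff.mpr (le_refl (a / b))
      exact (Nat.div_lt_iff_lt_mul hb).mp this
    · intro j hj
      have := (Nat.le_div_iff_mul_le hb).mp (show j + 1 ≤ a / b from hj)
      omega

@[fun_prop] protected theorem Fn.div {f g : α → ℕ} (hf : Fn C f) (hg : Fn C g) :
    Fn C (fun a => f a / g a) := by
  have h1 : Fn C (fun a => mu (f a + 1) fun i => f a < (i + 1) * g a) := by
    refine Fn.mu (by fun_prop) ?_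
    have h2 : Fn C (fun q : α × ℕ => f q.1) := by fun_prop
    have h3 : Fn C (fun q : α × ℕ => g q.1) := by fun_prop
    fun_prop
  have h4 := Fn.ite (p := fun a => g a = 0) (by fun_prop) (Fn.const 0) h1
  exact h4.congr fun a => div_eq_mu _ _

@[fun_prop] protected theorem Fn.mod {f g : α → ℕ} (hf : Fn C f) (hg : Fn C g) :
    Fn C (fun a => f a % g a) := by
  have h : Fn C (fun a => f a - g a * (f a / g a)) := by fun_prop
  exact h.congr fun a => by
    have := Nat.mod_add_div (f a) (g a)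
    omega

/-- powers, if the result has linear length -/
protected theorem Fn.pow {f g : α → ℕ} (hf : Fn C f) (hg : Fn C g) (hb : Lb (fun a => f a ^ g a)) :
    Fn C (fun a => f a ^ g a) := by
  obtain ⟨c, hc⟩ := hb
  obtain ⟨c', hc'⟩ := hf.bd
  simp only [sz_nat] at hc hc'
  refine Fn.iter (F := fun a j => f a ^ j) (g := fun _ => 1) (h := fun q => q.2.2 * f q.1) hg
    (by fun_prop) (by fun_prop) (fun a => by simp) (fun a i _ => pow_succ _ _)
    ⟨c + 1, fun a i hi => ?_⟩
  rw [sz_nat]
  rcases Nat.eq_zero_or_pos (f a) with h0 | h0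
  · rcases Nat.eq_zero_or_pos i with h1 | h1
    · rw [h1, pow_zero, Nat.size_one]
      nlinarith
    · rw [h0, zero_pow (by omega), Nat.size_zero]
      omega
  · have := (size_mono (Nat.pow_le_pow_right h0 hi)).trans (hc a)
    nlinarith

theorem size_eq_mu (n : ℕ) : Nat.size n = mu (n + 1) fun i => n < 2 ^ i := by
  symm
  refine mu_eq ?_ (Nat.lt_size_self n) ?_
  · have := size_le_self n
    omega
  · intro j hj hlt
    have := Nat.size_le.mpr hlt
    omega

/-- `2 ^ i`, cut off -/
theorem fn_cpow : Fn C (fun p : ℕ × ℕ => min (2 ^ p.2) (p.1 + 1)) := by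
  refine Fn.recn (F := fun a i => min (2 ^ i) (a + 1)) (g := fun _ => 1)
    (h := fun q => min (2 * q.2.2) (q.1 + 1)) (by fun_prop) (by fun_prop) (fun a => by simp)
    (fun a i => ?_) ⟨2, fun a i => ?_⟩
  · show min (2 ^ (i + 1)) (a + 1) = min (2 * min (2 ^ i) (a + 1)) (a + 1)
    rw [pow_succ]
    omega
  · simp only [sz_nat]
    have h1 := size_mono (min_le_right (2 ^ i) (a + 1))
    have h2 := size_succ_le a
    omega

@[fun_prop] protected theorem Fn.size {f : α → ℕ} (hf : Fn C f) : Fn C (fun a => Nat.size (f a)) := by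
  have h : Fn C (fun n : ℕ => LSC.mu (n + 1) fun i => n < 2 ^ i) := by
    refine Fn.mu (by fun_prop) ?_
    have h2 : Pr C (fun q : ℕ × ℕ => q.1 < min (2 ^ q.2) (q.1 + 1)) := by
      have := fn_cpow (C := C)
      exact Pr.lt (by fun_prop) this
    exact h2.congr fun q => by
      constructor
      · intro h
        have h : q.1 < 2 ^ q.2 := h
        exact lt_min h (Nat.lt_succ_self _)
      · intro h
        exact (lt_min_iff.mp h).1
  have h3 : Fn C (fun n : ℕ => Nat.size n) := h.congr fun n => size_eq_mu n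
  exact h3.comp hf

protected theorem Lb.pow2 {f : α → ℕ} {c : ℕ} (h : ∀ a, f a ≤ c * (sz a + 1)) : Lb (fun a => 2 ^ f a) :=
  ⟨c + 1, fun a => by
    rw [sz_nat, Nat.size_pow]
    have := h a
    nlinarith⟩

/-- `2 ^ f a` with linear `f a` -/
protected theorem Fn.pow2 {f : α → ℕ} (hf : Fn C f) (c : ℕ) (h : ∀ a, f a ≤ c * (sz a + 1)) :
    Fn C (fun a => 2 ^ f a) := Fn.pow (Fn.const 2) hf (Lb.pow2 h)

theorem fn_pow2size (c : ℕ) : Fn C (fun n : ℕ => 2 ^ (c * Nat.size n)) :=
  Fn.pow2 (by fun_prop) c fun a => by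
    rw [sz_nat]
    exact Nat.mul_le_mul_left c (by omega)

end LSC
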