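import Pool.Agent.H85P.Code
import Pool.Agent.H69A.Core
import Pool.Agent.H69A.LocR
import Pool.Agent.H69A.LocT

/-!
# Average case and worst case: the machine version
-/

set_option autoImplicit false

namespace LSC

open H85L LSP LSA

/-! ### Letter maps -/

/-- the machine which reads the letters after the map `f` -/
def mapM {Δ Δ' Q Γ K : Type} (f : Δ' → Δ) (M : Mach Δ Q Γ K) : Mach Δ' Q Γ K where
  adr := M.adr
  bit := M.bit
  start := M.start
  out := M.out
  next q h o b := M.next q h (o.map f) b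

theorem mapM_run {Δ Δ' Q Γ K : Type} (f : Δ' → Δ) (M : Mach Δ Q Γ K) (v : View Δ') (g : ℕ → Bool)
    (t : ℕ) : (mapM f M).run v g t = M.run (fun q => (v q).map f) g t := by
  induction t with
  | zero => rfl
  | succ t ih =>
    show (mapM f M).step v (g t) ((mapM f M).run v g t) =
      M.step (fun q => (v q).map f) (g t) (M.run (fun q => (v q).map f) g t)
    rw [ih]
    rfl

theorem lin_map {κ : Kind} {Δ Δ' : Type} (f : Δ' → Δ) {L : Set (List Δ)} (h : LinClass κ L) :
    LinClass κ {w : List Δ' | w.map f ∈ L} := by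
  obtain ⟨Q, Γ, K, h1, h2, h3, M, hdet, c, hM⟩ := h
  refine ⟨Q, Γ, K, h1, h2, h3, mapM f M, fun hd q h o b b' => hdet hd _ _ _ _ _, c, fun w => ?_⟩
  have hv : (fun q => (headView w q).map f) = headView (w.map f) := by
    funext q
    unfold headView
    rw [List.getElem?_map]
  have hrun : ∀ g t, (mapM f M).run (headView w) g t = M.run (headView (w.map f)) g t := by
    intro g t
    rw [mapM_run, hv]
  obtain ⟨hb, ha⟩ := hM (w.map f)
  rw [List.length_map] at hb
  constructor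
  · unfold Mach.Bounded at hb ⊢
    split_ifs with ht
    · rw [if_pos ht] at hb
      intro g
      rw [hrun]
      exact hb g
    · rw [if_neg ht] at hb
      intro g t i
      rw [hrun]
      exact hb g t i
  · show w.map f ∈ L ↔ _
    rw [ha]
    unfold Mach.Accepts
    simp only [hrun]
    rfl

/-! ### Local checkability -/

theorem loc_of_pr {C D : NClass} [Calc C] [Calc D] {f : ℕ → Prop} (h : Pr C f) : Loc C D f :=
  ⟨fun _ => True, 0, Pr.const _, fun _ _ => ⟨fun _ => True, fun p => f p.2, Pr.const _,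
    h.comp (f := fun p : ℕ × ℕ => p.2) (by fun_prop), fun _ _ _ => Iff.rfl, fun _ _ _ => trivial⟩⟩

theorem reach_lt {E : ℕ → ℕ → Prop} {N d u v : ℕ} (h : Reach E N d u v) (hv : v < N) : u < N := by
  induction d generalizing v with
  | zero =>
    have : u = v := h
    omega
  | succ d ih =>
    obtain ⟨w, hw, h1, -⟩ := h
    exact ih h1 hw

theorem pr_reach {κ : Kind} (hdet : κ.det = false) {E : ℕ → ℕ → ℕ → Prop} {N : ℕ → ℕ}
    (hE : Pr (KC κ) fun p : ℕ × ℕ × ℕ => E p.1 p.2.1 p.2.2) (hN : Fn (KC κ) N) :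
    Pr (KC κ) (fun p : ℕ × ℕ × ℕ × ℕ => Reach (E p.1) (N p.1) p.2.1 p.2.2.1 p.2.2.2) := by
  have h0 := reach_decidable hdet hE hN
  have h1 : Pr (KC κ) (fun p : ℕ × ℕ × ℕ × ℕ => ∃ w < N p.1,
      ((p.2.2.1 < N p.1 ∧ w < N p.1) ∧ Reach (E p.1) (N p.1) (p.2.1 - 1) p.2.2.1 w) ∧
        (w = p.2.2.2 ∨ E p.1 w p.2.2.2)) := by
    refine Pr.ex (by fun_prop) ?_
    have h2 : Pr (KC κ) (fun q : (ℕ × ℕ × ℕ × ℕ) × ℕ =>
        (q.1.2.2.1 < N q.1.1 ∧ q.2 < N q.1.1) ∧
          Reach (E q.1.1) (N q.1.1) (q.1.2.1 - 1) q.1.2.2.1 q.2) :=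
      h0.comp (f := fun q : (ℕ × ℕ × ℕ × ℕ) × ℕ => (q.1.1, q.1.2.2.1, q.1.2.1 - 1, q.2))
        (by fun_prop)
    have h3 : Pr (KC κ) (fun q : (ℕ × ℕ × ℕ × ℕ) × ℕ => E q.1.1 q.2 q.1.2.2.2) :=
      hE.comp (f := fun q : (ℕ × ℕ × ℕ × ℕ) × ℕ => (q.1.1, q.2, q.1.2.2.2)) (by fun_prop)
    have h4 : Pr (KC κ) (fun q : (ℕ × ℕ × ℕ × ℕ) × ℕ => q.2 = q.1.2.2.2) := by fun_prop
    exact h2.and (h4.or h3)
  have h5 : Pr (KC κ) (fun p : ℕ × ℕ × ℕ × ℕ => p.2.1 = 0) := by fun_prop
  have h6 : Pr (KC κ) (fun p : ℕ × ℕ × ℕ × ℕ => p.2.2.1 = p.2.2.2) := by fun_prop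
  refine ((h5.and h6).or (h5.not.and h1)).congr fun p => ?_
  obtain ⟨a, d, u, v⟩ := p
  show Reach (E a) (N a) d u v ↔ _
  cases d with
  | zero =>
    show u = v ↔ _
    constructor
    · intro h
      exact Or.inl ⟨rfl, h⟩
    · rintro (⟨-, h⟩ | ⟨h, -⟩)
      · exact h
      · exact absurd rfl h
  | succ d =>
    constructor
    · rintro ⟨w, hw, h1, h2⟩
      exact Or.inr ⟨Nat.succ_ne_zero d, w, hw, ⟨⟨reach_lt h1 hw, hw⟩, h1⟩, h2⟩
    · rintro (⟨h, -⟩ | ⟨-, w, hw, h1, h2⟩)
      · exact absurd h (Nat.succ_ne_zero d)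
      · exact ⟨w, hw, h1.2, h2⟩

/-- the predicates of `DLBA`, `LBA`, `E` are locally checkable in each of the classes -/
theorem locChk {κ₁ κ₂ : Kind} (h₂ : κ₂.det = true ∨ κ₂.time = false) :
    LocChk (KC κ₁) (KC κ₂) := by
  intro f hf
  have hL : LinClass κ₂ {w : List Bool | f (nb w)} := lin_nb hf
  have hmem : ∀ a, bw a ∈ {w | f (nb w)} ↔ f a := by
    intro a
    show f (nb (bw a)) ↔ f a
    rw [nb_bw]
  cases ht : κ₂.time with
  | true =>
    have hd : κ₂.det = true := by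
      rcases h₂ with h | h
      · exact h
      · rw [ht] at h
        exact absurd h (by simp)
    obtain ⟨r, g, P, H, o, R, c, h1, h2, h3, h4, h5, h6, h7, h8⟩ :=
      lin_trace (C := KC DL) ht hd hL fn_bw fun a => (bw_len a).le
    exact loc_hist (c := c) h1.lift (fun j => (h2 j).lift) h3.lift h4.lift h5 h6
      (fun a t _ => h7 a t) (fun a => (hmem a).symm.trans (h8 a))
      (fn_trace ht h1.lift (fun j => (h2 j).lift) h3.lift h5 h6 h7)
  | false =>
    cases hd : κ₂.det with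
    | true =>
      have : κ₂ = DL := by
        cases κ₂
        simp only at ht hd
        rw [ht, hd]
      rw [this] at hf
      exact loc_of_pr hf.lift
    | false =>
      obtain ⟨E, N, u0, A, c, hE, hN, hu, hA, hNc, hlt, hacc⟩ :=
        lin_graph (C := KC DL) ht hL fn_bw fun a => (bw_len a).le
      exact loc_reach hE.lift hN.lift hN.lift hu.lift hA.lift hNc hlt
        (fun a => (hmem a).symm.trans (hacc a)) (pr_reach hd hE.lift hN.lift)

/-! ### Words and numbers -/

theorem bt_ofBits {n j : ℕ} (p : ℕ → Prop) (hj : j < n) : bt (ofBits n p) j = 1 ↔ p j := by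
  classical
  induction n with
  | zero => omega
  | succ n ih =>
    have hs : ofBits (n + 1) p = ofBits n p + (if p n then 1 else 0) * 2 ^ n := by
      unfold ofBits
      rw [Finset.sum_range_succ]
    rw [hs]
    rcases Nat.lt_or_ge j n with h | h
    · rw [← ih h]
      obtain ⟨m, rfl⟩ : ∃ m, n = j + 1 + m := ⟨n - (j + 1), by omega⟩
      unfold bt
      have e1 : (if p (j + 1 + m) then 1 else 0) * 2 ^ (j + 1 + m) =
          (if p (j + 1 + m) then 1 else 0) * 2 ^ m * 2 * 2 ^ j := by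
        rw [pow_add, pow_add, pow_one]
        ring
      rw [e1, Nat.add_mul_div_right _ _ (by positivity), Nat.add_mul_mod_self_right]
    · obtain rfl : j = n := by omega
      unfold bt
      rw [Nat.add_mul_div_right _ _ (by positivity), Nat.div_eq_of_lt (ofBits_lt j p), zero_add]
      split_ifs with h1
      · simp [h1]
      · simp [h1]

theorem bt_add {n x i : ℕ} (hi : i < n) : bt (2 ^ n + x) i = bt x i := by
  unfold bt
  obtain ⟨m, rfl⟩ : ∃ m, n = i + 1 + m := ⟨n - (i + 1), by omega⟩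
  have e1 : 2 ^ (i + 1 + m) + x = x + 2 ^ m * 2 * 2 ^ i := by
    rw [pow_add, pow_add, pow_one]
    ring
  rw [e1, Nat.add_mul_div_right _ _ (by positivity), Nat.add_mul_mod_self_right]

theorem size_add_pow {n x : ℕ} (h : x < 2 ^ n) : Nat.size (2 ^ n + x) = n + 1 := by
  refine le_antisymm ?_ ?_
  · rw [Nat.size_le, pow_succ]
    omega
  · exact Nat.lt_size.mpr (by omega)

/-- The machine version: every language of the kind `κ₂` has an approximation of the kind `κ₁` with
linear advice. -/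
def MAvg (good : ℕ → ℕ → Prop) (κ₂ κ₁ : Kind) : Prop :=
  ∀ L : Set (List Bool), LinClass κ₂ L →
    ∃ (k : ℕ) (L' : Set (List (Bool × (Fin k → Bool)))) (adv : ∀ n, Fin n → Fin k → Bool) (n0 : ℕ),
      LinClass κ₁ L' ∧ ∀ n ≥ n0, good n {w : Fin n → Bool |
        ¬ (List.ofFn w ∈ L ↔ (List.ofFn fun i => (w i, adv n i)) ∈ L')}.ncard

/-- the number of the advice -/
noncomputable def advN (k n : ℕ) (adv : Fin n → Fin k → Bool) : ℕ :=
  ofBits (n * k) fun m => ∃ (h : m / k < n) (h' : m % k < k), adv ⟨m / k, h⟩ ⟨m % k, h'⟩ = true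

theorem bt_advN (k n : ℕ) (adv : Fin n → Fin k → Bool) (i : Fin n) (j : Fin k) :
    bt (advN k n adv) (i * k + j) = 1 ↔ adv i j = true := by
  have hk : 0 < k := j.pos
  have h1 : (i : ℕ) * k + j < n * k := by
    have := i.2
    have := j.2
    calc (i : ℕ) * k + j < i * k + k := by omega
      _ = (i + 1) * k := by ring
      _ ≤ n * k := Nat.mul_le_mul_right k (by omega)
  have h2 : ((i : ℕ) * k + j) / k = i := by
    rw [mul_comm, Nat.mul_add_div hk, Nat.div_eq_of_lt j.2, add_zero]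
  have h3 : ((i : ℕ) * k + j) % k = j := by
    rw [mul_comm, Nat.mul_add_mod, Nat.mod_eq_of_lt j.2]
  unfold advN
  rw [bt_ofBits _ h1]
  simp only [h2, h3]
  simp

theorem avg_of_mach {good : ℕ → ℕ → Prop} (hmono : ∀ n b b', b' ≤ b → good n b → good n b')
    (h0 : ∀ n, good n 0) {κ₁ κ₂ : Kind} (h₁ : κ₁.det = true ∨ κ₁.time = false)
    (h : MAvg good κ₂ κ₁) (P : ℕ → Prop) (hP : Pr (KC κ₂) P) :
    ∃ (Q : ℕ × ℕ → Prop) (A : ℕ → ℕ) (c : ℕ), Pr (KC κ₁) Q ∧ (∀ n, Nat.size (A n) ≤ c * (n + 1)) ∧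
      ∀ n, good n {x | x < 2 ^ n ∧ ¬ (P (2 ^ n + x) ↔ Q (2 ^ n + x, A n))}.ncard := by
  obtain ⟨k, L', adv, n0, hL', hgood⟩ := h _ (lin_nw hP)
  have hQ' : Pr (KC κ₁) (fun p : ℕ × ℕ => (dec (st (w2 k p.1 p.2)) : List _) ∈ L') :=
    (lin_pr h₁ hL').comp (fn_w2 k)
  have hT : Pr (KC κ₁) (fun p : ℕ × ℕ => ∃ m : Fin (2 ^ n0), P m ∧ p.1 = m) :=
    Pr_finex fun m => (Pr.const _).and (by fun_prop)
  refine ⟨fun p => (Nat.size p.1 ≤ n0 ∧ ∃ m : Fin (2 ^ n0), P m ∧ p.1 = m) ∨
    (n0 < Nat.size p.1 ∧ (dec (st (w2 k p.1 p.2)) : List _) ∈ L'), fun n => advN k n (adv n), k,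
    ?_, fun n => ?_, fun n => ?_⟩
  · refine Pr.or (Pr.and ?_ hT) (Pr.and ?_ hQ')
    · fun_prop
    · fun_prop
  · rw [Nat.size_le]
    refine (ofBits_lt _ _).trans_le (Nat.pow_le_pow_right (by norm_num) ?_)
    nlinarith
  · rcases Nat.lt_or_ge n n0 with hn | hn
    · have : {x | x < 2 ^ n ∧ ¬ (P (2 ^ n + x) ↔ ((Nat.size (2 ^ n + x) ≤ n0 ∧
          ∃ m : Fin (2 ^ n0), P m ∧ 2 ^ n + x = m) ∨ (n0 < Nat.size (2 ^ n + x) ∧
          (dec (st (w2 k (2 ^ n + x) (advN k n (adv n)))) : List _) ∈ L')))} = ∅ := by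
        rw [Set.eq_empty_iff_forall_notMem]
        rintro x ⟨hx, hne⟩
        apply hne
        rw [size_add_pow hx]
        constructor
        · intro hp
          refine Or.inl ⟨hn, ⟨2 ^ n + x, ?_⟩, hp, rfl⟩
          have : 2 ^ (n + 1) ≤ 2 ^ n0 := Nat.pow_le_pow_right (by norm_num) hn
          rw [pow_succ] at this
          omega
        · rintro (⟨-, m, hm, hxm⟩ | ⟨h1, -⟩)
          · rw [hxm]
            exact hm
          · omega
      rw [this, Set.ncard_empty]
      exact h0 n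
    · refine hmono n _ _ ?_ (hgood n hn)
      refine Set.ncard_le_ncard_of_injOn (fun x (i : Fin n) => decide (bt x i = 1)) ?_ ?_
        (Set.toFinite _)
      · rintro x ⟨hx, hne⟩
        intro hiff
        apply hne
        show P (2 ^ n + x) ↔ ((Nat.size (2 ^ n + x) ≤ n0 ∧
          ∃ m : Fin (2 ^ n0), P m ∧ 2 ^ n + x = m) ∨ (n0 < Nat.size (2 ^ n + x) ∧
          (dec (st (w2 k (2 ^ n + x) (advN k n (adv n)))) : List _) ∈ L'))
        rw [size_add_pow hx]
        have e1 : nw (List.ofFn fun i : Fin n => decide (bt x i = 1)) = 2 ^ n + x := by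
          unfold nw
          rw [nb_bits n x hx, List.length_ofFn]
        have e2 : w2 k (2 ^ n + x) (advN k n (adv n)) =
            List.ofFn fun i : Fin n => (decide (bt x i = 1), adv n i) := by
          unfold w2
          have e3 : Nat.size (2 ^ n + x) - 1 = n := by rw [size_add_pow hx]; rfl
          rw [e3]
          congr 1
          funext i
          unfold lt2
          rw [bt_add i.2]
          congr 1
          funext j
          have := bt_advN k n (adv n) i j
          cases hadv : adv n i j with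
          | true => simp [this.mpr hadv]
          | false =>
            have h3 : ¬ bt (advN k n (adv n)) (i * k + j) = 1 := fun h4 => by
              rw [this.mp h4] at hadv
              exact absurd hadv (by simp)
            simp [h3]
        have hiff' : P (nw (List.ofFn fun i : Fin n => decide (bt x i = 1))) ↔
          (List.ofFn fun i : Fin n => (decide (bt x i = 1), adv n i)) ∈ L' := hiff
        rw [e1] at hiff'
        rw [hiff', dec_st, e2]
        constructor
        · intro h3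
          exact Or.inr ⟨by omega, h3⟩
        · rintro (⟨h3, -⟩ | ⟨-, h3⟩)
          · omega
          · exact h3
      · rintro x ⟨hx, -⟩ y ⟨hy, -⟩ hxy
        have h3 := congrArg (fun w => nb (List.ofFn w)) hxy
        simp only at h3
        rwa [nb_bits n x hx, nb_bits n y hy] at h3

/-- from the inclusion to the average case -/
theorem mach_of_incl {good : ℕ → ℕ → Prop} (h0 : ∀ n, good n 0) {κ₁ κ₂ : Kind}
    (h : LinIncl κ₂ κ₁) : MAvg good κ₂ κ₁ := by
  intro L hL
  refine ⟨0, {w | w.map Prod.fst ∈ L}, fun _ _ j => j.elim0, 0, lin_map _ (h Bool inferInstance L hL),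
    fun n _ => ?_⟩
  have : {w : Fin n → Bool | ¬ (List.ofFn w ∈ L ↔
      (List.ofFn fun i => (w i, (fun j : Fin 0 => (j.elim0 : Bool)))) ∈
        {w : List (Bool × (Fin 0 → Bool)) | w.map Prod.fst ∈ L})} = ∅ := by
    rw [Set.eq_empty_iff_forall_notMem]
    intro w hne
    apply hne
    show List.ofFn w ∈ L ↔ List.map Prod.fst _ ∈ L
    rw [List.map_ofFn]
    rfl
  rw [this, Set.ncard_empty]
  exact h0 n

/-- the theorem for the error `1 / n ^ 3` -/
theorem incl_iff_avg {κ₁ κ₂ : Kind} (h₁ : κ₁.det = true ∨ κ₁.time = false)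
    (h₂ : κ₂.det = true ∨ κ₂.time = false) :
    LinIncl κ₂ κ₁ ↔ MAvg (fun n b => n ^ 3 * b ≤ 2 ^ n) κ₂ κ₁ := by
  classical
  constructor
  · exact mach_of_incl fun n => by simp
  · intro h Δ _ L hL
    have h1 : AvgIncl (KC κ₁) (KC κ₂) := by
      intro P hP
      obtain ⟨Q, A, c, hQ, hA, hg⟩ := avg_of_mach (good := fun n b => n ^ 3 * b ≤ 2 ^ n)
        (fun n b b' hb hn => (Nat.mul_le_mul_left _ hb).trans hn) (fun n => by simp) h₁ h P hP
      refine ⟨Q, A, c, hQ, hA, fun n => ?_⟩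
      have h2 := hg n
      have h3 : {x | x < 2 ^ n ∧ ¬ (P (2 ^ n + x) ↔ Q (2 ^ n + x, A n))} =
          ((Finset.range (2 ^ n)).filter fun x => ¬ (P (2 ^ n + x) ↔ Q (2 ^ n + x, A n)) :
            Finset ℕ) := by
        ext x
        simp
      rw [h3, Set.ncard_coe_finset] at h2
      convert h2
    exact (lin_iff h₁).mpr (core (locChk h₂) h1 _ (lin_pr h₂ hL))

end LSC
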