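import Mathlib

/-!
# Classes of number functions closed under composition and linearly bounded recursion

`Calc C`: the class `C` contains the projections, zero and the successor and is closed under composition
and under simultaneous recursion with results whose binary length is linear in the length of the arguments;
all functions of `C` have such results. `Fn C f`: the function `f` between products of copies of `ℕ`
belongs to the class.
-/

set_option autoImplicit false

namespace LSC

/-- the total number of binary digits -/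
def tsz {k : ℕ} (a : Fin k → ℕ) : ℕ := ∑ i, Nat.size (a i)

/-- a class of functions of several numbers -/
structure NClass where
  mem : ∀ k : ℕ, ((Fin k → ℕ) → ℕ) → Prop

/-- the closure properties -/
class Calc (C : NClass) : Prop where
  proj : ∀ (k : ℕ) (i : Fin k), C.mem k fun a => a i
  zero : C.mem 0 fun _ => 0
  succ : C.mem 1 fun a => a 0 + 1
  comp : ∀ (k m : ℕ) (f : (Fin m → ℕ) → ℕ) (g : Fin m → (Fin k → ℕ) → ℕ), C.mem m f →
    (∀ i, C.mem k (g i)) → C.mem k fun a => f fun i => g i a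
  recn : ∀ (k m : ℕ) (f : (Fin k → ℕ) → ℕ → Fin m → ℕ) (g : Fin m → (Fin k → ℕ) → ℕ)
    (h : Fin m → (Fin (k + 1 + m) → ℕ) → ℕ), (∀ j, C.mem k (g j)) → (∀ j, C.mem (k + 1 + m) (h j)) →
    (∀ a j, f a 0 j = g j a) →
    (∀ a i j, f a (i + 1) j = h j (Fin.append (Fin.append a fun _ : Fin 1 => i) (f a i))) →
    (∃ c, ∀ a i j, Nat.size (f a i j) ≤ c * (tsz a + Nat.size i + 1)) →
    ∀ j, C.mem (k + 1) fun a => f (fun i => a (Fin.castSucc i)) (a (Fin.last k)) j
  bd : ∀ (k : ℕ) (f : (Fin k → ℕ) → ℕ), C.mem k f → ∃ c, ∀ a, Nat.size (f a) ≤ c * (tsz a + 1)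

/-- types which are products of copies of `ℕ` -/
class Ctx (α : Type) where
  dim : ℕ
  e : α ≃ (Fin dim → ℕ)

export Ctx (dim e)

instance : Ctx ℕ := ⟨1, (Equiv.funUnique (Fin 1) ℕ).symm⟩

instance : Ctx Unit := ⟨0, ⟨fun _ => Fin.elim0, fun _ => (), fun _ => rfl,
  fun _ => funext fun i => i.elim0⟩⟩

instance (k : ℕ) : Ctx (Fin k → ℕ) := ⟨k, Equiv.refl _⟩

instance {α β : Type} [Ctx α] [Ctx β] : Ctx (α × β) :=
  ⟨dim α + dim β, (Equiv.prodCongr e e).trans (Fin.appendEquiv _ _)⟩

theorem e_prod {α β : Type} [Ctx α] [Ctx β] (a : α) (b : β) :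
    (e (a, b) : Fin (dim α + dim β) → ℕ) = Fin.append (e a) (e b) := rfl

theorem e_nat (n : ℕ) : (e n : Fin 1 → ℕ) = fun _ => n := rfl

/-- the number of binary digits -/
def sz {α : Type} [Ctx α] (a : α) : ℕ := tsz (e a)

theorem tsz_append {k m : ℕ} (a : Fin k → ℕ) (b : Fin m → ℕ) :
    tsz (Fin.append a b) = tsz a + tsz b := by
  unfold tsz
  rw [Fin.sum_univ_add]
  simp

@[simp] theorem sz_prod {α β : Type} [Ctx α] [Ctx β] (a : α) (b : β) : sz (a, b) = sz a + sz b :=
  tsz_append _ _

@[simp] theorem sz_nat (n : ℕ) : sz n = Nat.size n := by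
  show tsz (fun _ : Fin 1 => n) = _
  unfold tsz
  simp

@[simp] theorem sz_unit (u : Unit) : sz u = 0 := rfl

variable {C : NClass}
variable {α β γ δ : Type} [Ctx α] [Ctx β] [Ctx γ] [Ctx δ]

/-- the function belongs to the class -/
@[fun_prop] def Fn (C : NClass) {α β : Type} [Ctx α] [Ctx β]
    (f : α → β) : Prop :=
  ∀ j, C.mem (dim α) fun v => e (f (e.symm v)) j

section
variable [Calc C]

@[fun_prop] protected theorem Fn.id : Fn C (fun a : α => a) := by
  intro j
  have h := Calc.proj (C := C) (dim α) j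
  have h2 : (fun v : Fin (dim α) → ℕ => (e ((fun a : α => a) (e.symm v)) : Fin (dim α) → ℕ) j) =
      fun a => a j := by
    funext v
    show e (e.symm v) j = _
    rw [Equiv.apply_symm_apply]
  rw [h2]
  exact h

@[fun_prop] protected theorem Fn.comp {g : β → γ} {f : α → β} (hg : Fn C g) (hf : Fn C f) :
    Fn C (fun a => g (f a)) := by
  intro j
  have h := Calc.comp (C := C) (dim α) (dim β) _ _ (hg j) hf
  have h2 : (fun v : Fin (dim α) → ℕ => (e ((fun a => g (f a)) (e.symm v)) : Fin (dim γ) → ℕ) j) =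
      fun a => e (g (e.symm fun i => e (f (e.symm a)) i)) j := by
    funext v
    show e (g (f (e.symm v))) j = e (g (e.symm (e (f (e.symm v))))) j
    rw [Equiv.symm_apply_apply]
  rw [h2]
  exact h

theorem natConst (n : ℕ) : C.mem 0 fun _ => n := by
  induction n with
  | zero => exact Calc.zero
  | succ n ih => exact Calc.comp 0 1 _ (fun _ => fun _ => n) Calc.succ (fun _ => ih)

@[fun_prop] protected theorem Fn.const (b : β) : Fn C (fun _ : α => b) := by
  intro j
  exact Calc.comp (C := C) (dim α) 0 _ (fun i => i.elim0) (natConst (e b j)) (fun i => i.elim0)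

omit [Calc C] in
@[fun_prop] protected theorem Fn.pair {f : α → β} {g : α → γ} (hf : Fn C f) (hg : Fn C g) :
    Fn C (fun a => (f a, g a)) := by
  intro j
  show C.mem (dim α) fun v => Fin.append (e (f (e.symm v))) (e (g (e.symm v))) j
  refine Fin.addCases (fun i => ?_) (fun i => ?_) j
  · simp only [Fin.append_left]
    exact hf i
  · simp only [Fin.append_right]
    exact hg i

protected theorem Fn.fst : Fn C (fun p : α × β => p.1) := by
  intro j
  have h := Calc.proj (C := C) (dim α + dim β) (Fin.castAdd _ j)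
  have h2 : (fun v : Fin (dim α + dim β) → ℕ =>
      (e ((fun p : α × β => p.1) ((e : (α × β) ≃ _).symm v)) : Fin (dim α) → ℕ) j) =
      fun a => a (Fin.castAdd _ j) := by
    funext v
    obtain ⟨p, rfl⟩ := (e : (α × β) ≃ _).surjective v
    obtain ⟨a, b⟩ := p
    rw [Equiv.symm_apply_apply, e_prod, Fin.append_left]
  exact h2 ▸ h

protected theorem Fn.snd : Fn C (fun p : α × β => p.2) := by
  intro j
  have h := Calc.proj (C := C) (dim α + dim β) (Fin.natAdd _ j)
  have h2 : (fun v : Fin (dim α + dim β) → ℕ =>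
      (e ((fun p : α × β => p.2) ((e : (α × β) ≃ _).symm v)) : Fin (dim β) → ℕ) j) =
      fun a => a (Fin.natAdd _ j) := by
    funext v
    obtain ⟨p, rfl⟩ := (e : (α × β) ≃ _).surjective v
    obtain ⟨a, b⟩ := p
    rw [Equiv.symm_apply_apply, e_prod, Fin.append_right]
  exact h2 ▸ h

@[fun_prop] protected theorem Fn.fst' {f : α → β × γ} (hf : Fn C f) : Fn C (fun a => (f a).1) := Fn.fst.comp hf

@[fun_prop] protected theorem Fn.snd' {f : α → β × γ} (hf : Fn C f) : Fn C (fun a => (f a).2) := Fn.snd.comp hf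

@[fun_prop] protected theorem Fn.succ {f : α → ℕ} (hf : Fn C f) : Fn C (fun a => f a + 1) := by
  have h : Fn C (fun n : ℕ => n + 1) := fun _ => Calc.succ
  exact h.comp hf

omit [Calc C] in
/-- tuples -/
protected theorem Fn.pi {k : ℕ} {f : α → Fin k → ℕ} (hf : ∀ i, Fn C (fun a => f a i)) :
    Fn C f := fun j => hf j 0

omit [Calc C] in
protected theorem Fn.apply {k : ℕ} {f : α → Fin k → ℕ} (hf : Fn C f) (i : Fin k) :
    Fn C (fun a => f a i) := fun _ => hf i

theorem size_le_of_le {c x y : ℕ} (h : x ≤ y) (hy : Nat.size y ≤ c) : Nat.size x ≤ c :=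
  (Nat.size_le_size h).trans hy

theorem comp_le_tsz {k : ℕ} (a : Fin k → ℕ) (i : Fin k) : Nat.size (a i) ≤ tsz a :=
  Finset.single_le_sum (f := fun i => Nat.size (a i)) (fun _ _ => Nat.zero_le _) (Finset.mem_univ i)

theorem tsz_le {k : ℕ} (a : Fin k → ℕ) {c : ℕ} (h : ∀ i, Nat.size (a i) ≤ c) : tsz a ≤ k * c := by
  unfold tsz
  refine (Finset.sum_le_card_nsmul _ _ c (fun i _ => h i)).trans ?_
  simp

/-- the length of the results is linear -/
protected theorem Fn.bd {f : α → β} (hf : Fn C f) : ∃ c, ∀ a, sz (f a) ≤ c * (sz a + 1) := by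
  choose c hc using fun j => Calc.bd _ _ (hf j)
  refine ⟨dim β * ∑ j, c j, fun a => ?_⟩
  refine (tsz_le _ (c := (∑ j, c j) * (sz a + 1)) fun j => ?_).trans (le_of_eq (by ring))
  have h := hc j (e a)
  rw [Equiv.symm_apply_apply] at h
  exact h.trans (Nat.mul_le_mul_right _
    (Finset.single_le_sum (f := c) (fun _ _ => Nat.zero_le _) (Finset.mem_univ j)))

/-- recursion -/
protected theorem Fn.recn {F : α → ℕ → β} {g : α → β} {h : α × ℕ × β → β} (hg : Fn C g) (hh : Fn C h)
    (h0 : ∀ a, F a 0 = g a) (h1 : ∀ a i, F a (i + 1) = h (a, i, F a i))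
    (hb : ∃ c, ∀ a i, sz (F a i) ≤ c * (sz a + Nat.size i + 1)) :
    Fn C (fun p : α × ℕ => F p.1 p.2) := by
  obtain ⟨c, hc⟩ := hb
  have hh' : Fn C (fun p : (α × ℕ) × β => h (p.1.1, p.1.2, p.2)) :=
    hh.comp ((Fn.fst.comp Fn.fst).pair ((Fn.snd.comp Fn.fst).pair Fn.snd))
  have key := Calc.recn (C := C) (dim α) (dim β) (fun a i => e (F (e.symm a) i))
    (fun j v => e (g (e.symm v)) j)
    (fun j v => e (h (((e : ((α × ℕ) × β) ≃ _).symm v).1.1, ((e : ((α × ℕ) × β) ≃ _).symm v).1.2,
      ((e : ((α × ℕ) × β) ≃ _).symm v).2)) j) hg hh'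
    (fun a j => by rw [h0]) (fun a i j => by
      obtain ⟨x, rfl⟩ := (e : α ≃ _).surjective a
      have h2 : (Fin.append (Fin.append (e x) fun _ : Fin 1 => i) (e (F (e.symm (e x)) i)) :
          Fin (dim α + 1 + dim β) → ℕ) = e ((x, i), F x i) := by
        rw [Equiv.symm_apply_apply]
        rfl
      rw [h2]
      erw [Equiv.symm_apply_apply]
      rw [Equiv.symm_apply_apply, h1])
    ⟨c, fun a i j => by
      obtain ⟨x, rfl⟩ := (e : α ≃ _).surjective a
      rw [Equiv.symm_apply_apply]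
      exact (comp_le_tsz _ j).trans (hc x i)⟩
  intro j
  have h3 := key j
  have h4 : (fun v : Fin (dim α + 1) → ℕ => (e ((fun p : α × ℕ => F p.1 p.2)
      ((e : (α × ℕ) ≃ _).symm v)) : Fin (dim β) → ℕ) j) =
      fun a => e (F (e.symm fun i => a (Fin.castSucc i)) (a (Fin.last _))) j := by
    funext v
    obtain ⟨p, rfl⟩ := (e : (α × ℕ) ≃ _).surjective v
    obtain ⟨a, n⟩ := p
    rw [Equiv.symm_apply_apply]
    have h5 : (fun i : Fin (dim α) => (e (a, n) : Fin (dim α + 1) → ℕ) (Fin.castSucc i)) = e a := by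
      funext i
      exact Fin.append_left (e a) (e n) i
    have h6 : (e (a, n) : Fin (dim α + 1) → ℕ) (Fin.last _) = n :=
      Fin.append_right (e a) (e n) 0
    rw [h5, h6, Equiv.symm_apply_apply]
  exact h4 ▸ h3

end

end LSC
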