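import Pool.Agent.H85P.TimeLin

/-!
# Binary words as numbers
-/

set_option autoImplicit false

namespace LSC

open H85L LSP

variable {C : NClass} [Calc C]

/-- the number with the binary digits given by a word, lowest digit first -/
noncomputable def nb (w : List Bool) : ℕ := ofBits w.length fun j => w[j]? = some true

theorem ofBits_ext {m n : ℕ} (p : ℕ → Prop) (hmn : m ≤ n) (h : ∀ j, m ≤ j → j < n → ¬ p j) :
    ofBits n p = ofBits m p := by
  classical
  unfold ofBits
  refine (Finset.sum_subset (Finset.range_subset_range.mpr hmn) fun j hj hj' => ?_).symm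
  rw [Finset.mem_range] at hj hj'
  rw [if_neg (h j (by omega) hj), zero_mul]

theorem ofBits_lt (n : ℕ) (p : ℕ → Prop) : ofBits n p < 2 ^ n := by
  classical
  unfold ofBits
  induction n with
  | zero => simp
  | succ n ih =>
    rw [Finset.sum_range_succ, pow_succ]
    split_ifs <;> omega

/-- the binary word of a number -/
noncomputable def bw (a : ℕ) : List Bool := List.ofFn fun i : Fin (Nat.size a) => decide (bt a i = 1)

theorem bw_len (a : ℕ) : (bw a).length = Nat.size a := List.length_ofFn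

theorem nb_ofFn {n : ℕ} (w : Fin n → Bool) :
    nb (List.ofFn w) = ofBits n fun j => ∃ h : j < n, w ⟨j, h⟩ = true := by
  unfold nb
  rw [List.length_ofFn]
  refine ofBits_congr fun j hj => ?_
  rw [List.getElem?_ofFn, dif_pos hj]
  simp [hj]

theorem nb_bits (n a : ℕ) (ha : a < 2 ^ n) :
    nb (List.ofFn fun i : Fin n => decide (bt a i = 1)) = a := by
  rw [nb_ofFn]
  refine (ofBits_congr fun j hj => ?_).trans (ofBits_bt n a ha)
  simp [hj]

theorem nb_bw (a : ℕ) : nb (bw a) = a := nb_bits _ a (Nat.lt_size_self a)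

theorem fn_bw : Fn C (fun p : ℕ × ℕ => nmo ((bw p.1)[p.2]?)) := by
  have h : Fn C (fun p : ℕ × ℕ => if p.2 < Nat.size p.1 then
      (if bt p.1 p.2 = 1 then nm true + 1 else nm false + 1) else 0) := by fun_prop
  refine h.congr fun p => ?_
  obtain ⟨a, i⟩ := p
  unfold bw
  simp only
  by_cases hi : i < Nat.size a
  · rw [if_pos hi, List.getElem?_ofFn, dif_pos hi, nmo_some]
    by_cases hb : bt a i = 1
    · simp [hb]
    · simp [hb]
  · rw [if_neg hi, List.getElem?_ofFn, dif_neg hi, nmo_none]

/-- the number of the word with the code `X` -/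
noncomputable def vX (X : ℕ) : ℕ := ofBits (Nat.size X) fun j => (dec X : List Bool)[j]? = some true

theorem vX_st (w : List Bool) : vX (st w) = nb w := by
  unfold vX nb
  rw [dec_st]
  exact ofBits_ext _ (len_le_size w) fun j hj _ => by
    rw [List.getElem?_eq_none hj]
    simp

theorem fn_vX : Fn C vX := by
  refine Fn.ofBits (V := fun X => Nat.size X) (by fun_prop) (c := 1) (fun a => by
    rw [sz_nat]
    omega) ?_
  have h1 := fn_look (C := C) (Δ := Bool)
  have h2 : Pr C (fun p : ℕ × ℕ => nmo ((dec p.1 : List Bool)[p.2]?) = nmo (some true)) := by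
    fun_prop
  exact h2.congr fun p => nmo_inj.symm

/-- the length of the word with the code `X` -/
noncomputable def lX (X : ℕ) : ℕ := mu (Nat.size X) fun i => nmo ((dec X : List Bool)[i]?) = 0

theorem lX_st (w : List Bool) : lX (st w) = w.length := by
  unfold lX
  rw [dec_st]
  rcases lt_or_eq_of_le (len_le_size w) with h | h
  · refine mu_eq h ?_ fun j hj => ?_
    · rw [List.getElem?_eq_none le_rfl]
      rfl
    · rw [List.getElem?_eq_getElem hj]
      simp
  · rw [← h]
    refine le_antisymm (mu_le _ _) ?_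
    by_contra hlt
    have h2 := mu_spec (p := fun i => nmo (w[i]?) = 0)
      (show mu w.length (fun i => nmo (w[i]?) = 0) < w.length by omega)
    rw [List.getElem?_eq_getElem (by omega)] at h2
    simp at h2

theorem fn_lX : Fn C lX := by
  have h1 := fn_look (C := C) (Δ := Bool)
  exact Fn.mu (by fun_prop) (by fun_prop)

/-- the number of a word with a leading digit `1` -/
noncomputable def nw (w : List Bool) : ℕ := 2 ^ w.length + nb w

theorem fn_nX : Fn C (fun X => 2 ^ lX X + vX X) := by
  have h1 := fn_vX (C := C)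
  have h2 := fn_lX (C := C)
  have h3 : Fn C (fun X => 2 ^ lX X) := Fn.pow2 h2 1 fun X => by
    have : lX X ≤ Nat.size X := mu_le _ _
    rw [sz_nat]
    omega
  fun_prop

theorem nX_st (w : List Bool) : 2 ^ lX (st w) + vX (st w) = nw w := by
  rw [lX_st, vX_st]
  rfl

/-- languages of binary words given by predicates on their numbers -/
theorem lin_nb {κ : Kind} {P : ℕ → Prop} (hP : Pr (KC κ) P) : LinClass κ {w | P (nb w)} := by
  have h := lin_of_pr (Δ := Bool) (hP.comp (f := vX) fn_vX)
  simp only [vX_st] at h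
  exact h

theorem lin_nw {κ : Kind} {P : ℕ → Prop} (hP : Pr (KC κ) P) : LinClass κ {w | P (nw w)} := by
  have h := lin_of_pr (Δ := Bool) (hP.comp (f := fun X => 2 ^ lX X + vX X) fn_nX)
  simp only [nX_st] at h
  exact h

/-! ### Words with a second component -/

/-- the letter `i` of the word with the number `N` and the second component `A` -/
noncomputable def lt2 (k N A i : ℕ) : Bool × (Fin k → Bool) :=
  (decide (bt N i = 1), fun j => decide (bt A (i * k + j) = 1))

/-- the word with the number `N` and the second component `A` -/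
noncomputable def w2 (k N A : ℕ) : List (Bool × (Fin k → Bool)) :=
  List.ofFn fun i : Fin (Nat.size N - 1) => lt2 k N A i

theorem fn_lt2 (k : ℕ) : Fn C (fun p : ℕ × ℕ × ℕ => nm (lt2 k p.1 p.2.1 p.2.2)) := by
  obtain ⟨F, hF, h⟩ := exists_cases (C := C) (ι := Bool × (Fin k → Bool)) (α := ℕ × ℕ × ℕ)
    (β := ℕ) (fun c p => (bt p.1 p.2.2 = 1 ↔ c.1 = true) ∧
      ∀ j : Fin k, (bt p.2.1 (p.2.2 * k + j) = 1 ↔ c.2 j = true))
    (fun c => by
      have h1 : Pr C (fun p : ℕ × ℕ × ℕ =>
          ∀ j : Fin k, (bt p.2.1 (p.2.2 * k + j) = 1 ↔ c.2 j = true)) := by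
        refine Pr_fin fun j => ?_
        have := Pr.const (C := C) (α := ℕ × ℕ × ℕ) (c.2 j = true)
        fun_prop
      have := Pr.const (C := C) (α := ℕ × ℕ × ℕ) (c.1 = true)
      fun_prop)
    (fun c _ => nm c) (fun c => Fn.const _) (fun c c' p h1 h2 => by
      obtain ⟨c1, c2⟩ := c
      obtain ⟨d1, d2⟩ := c'
      have e1 : c1 = d1 := by
        have h3 : (c1 = true) ↔ (d1 = true) := h1.1.symm.trans h2.1
        revert h3
        cases c1 <;> cases d1 <;> simp
      have e2 : c2 = d2 := by
        funext j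
        have h3 : (c2 j = true) ↔ (d2 j = true) := (h1.2 j).symm.trans (h2.2 j)
        revert h3
        cases c2 j <;> cases d2 j <;> simp
      rw [e1, e2])
  refine hF.congr fun p => ?_
  rw [h (lt2 k p.1 p.2.1 p.2.2) p ⟨by simp [lt2], fun j => by simp [lt2]⟩]

theorem st_ofFn {Γ : Type} [Finite Γ] {n : ℕ} (w : Fin n → Γ) :
    st (List.ofFn w) = ∑ i, (nm (w i) + 1) * (Nat.card Γ + 1) ^ (i : ℕ) := by
  induction n with
  | zero => simp [st_nil]
  | succ n ih =>
    rw [List.ofFn_succ, st_cons, ih, Fin.sum_univ_succ, Finset.mul_sum]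
    simp only [Fin.val_zero, pow_zero, mul_one, Fin.val_succ, pow_succ]
    rw [add_comm]
    congr 1
    exact Finset.sum_congr rfl fun i _ => by ring

theorem fn_w2 (k : ℕ) : Fn C (fun p : ℕ × ℕ => st (w2 k p.1 p.2)) := by
  have h1 : Fn C (fun q : (ℕ × ℕ) × ℕ => nm (lt2 k q.1.1 q.1.2 q.2)) :=
    (fn_lt2 (C := C) k).comp (f := fun q : (ℕ × ℕ) × ℕ => (q.1.1, q.1.2, q.2)) (by fun_prop)
  have h2 : Fn C (fun q : (ℕ × ℕ) × ℕ =>
      (Nat.card (Bool × (Fin k → Bool)) + 1) ^ min q.2 (Nat.size q.1.1)) := by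
    refine Fn.pow (by fun_prop) (by fun_prop)
      ⟨Nat.size (Nat.card (Bool × (Fin k → Bool)) + 1) + 1, fun p => ?_⟩
    rw [sz_nat, Nat.size_le]
    obtain ⟨⟨x, z⟩, y⟩ := p
    have e1 : (Nat.card (Bool × (Fin k → Bool)) + 1) ^ min y (Nat.size x) ≤
        (2 ^ Nat.size (Nat.card (Bool × (Fin k → Bool)) + 1)) ^ min y (Nat.size x) :=
      Nat.pow_le_pow_left (Nat.lt_size_self _).le _
    rw [← pow_mul] at e1
    refine e1.trans_lt (Nat.pow_lt_pow_right (by norm_num) ?_)
    have e2 : min y (Nat.size x) ≤ Nat.size x := min_le_right _ _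
    have e3 := Nat.mul_le_mul_left (Nat.size (Nat.card (Bool × (Fin k → Bool)) + 1)) e2
    simp only [sz_prod, sz_nat]
    nlinarith [Nat.zero_le (Nat.size (Nat.card (Bool × (Fin k → Bool)) + 1) * Nat.size y),
      Nat.zero_le (Nat.size (Nat.card (Bool × (Fin k → Bool)) + 1) * Nat.size z)]
  have h3 : Fn C (fun p : ℕ × ℕ => ∑ i ∈ Finset.range (Nat.size p.1 - 1),
      (nm (lt2 k p.1 p.2 i) + 1) * (Nat.card (Bool × (Fin k → Bool)) + 1) ^
        min i (Nat.size p.1)) := by
    refine Fn.sum (by fun_prop) ?_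
    exact (h1.succ).mul h2
  refine h3.congr fun p => ?_
  unfold w2
  rw [st_ofFn, Finset.sum_range]
  refine Finset.sum_congr rfl fun i _ => ?_
  rw [min_eq_left (by have := i.2; omega)]

end LSC
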