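import Pool.Agent.H85P.Avg
import Pool.Agent.H69B.Core

/-!
# Average case and worst case: agreement `1 / 2 + ε`
-/

set_option autoImplicit false

namespace LSC

open H85L LSP LSA

theorem ncard_agree {n : ℕ} (p : (Fin n → Bool) → Prop) :
    {w | p w}.ncard + {w | ¬ p w}.ncard = 2 ^ n := by
  have h := Set.ncard_add_ncard_compl {w | p w}
  have h2 : Nat.card (Fin n → Bool) = 2 ^ n := by simp
  rw [h2] at h
  exact h

theorem card_agree (n : ℕ) (p : ℕ → Prop) [DecidablePred p] :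
    ((Finset.range (2 ^ n)).filter p).card + {x | x < 2 ^ n ∧ ¬ p x}.ncard = 2 ^ n := by
  have h3 : {x | x < 2 ^ n ∧ ¬ p x} = ((Finset.range (2 ^ n)).filter fun x => ¬ p x : Finset ℕ) := by
    ext x
    simp
  rw [h3, Set.ncard_coe_finset]
  have := Finset.card_filter_add_card_filter_not (s := Finset.range (2 ^ n)) p
  rw [Finset.card_range] at this
  convert this

/-- the theorem for the agreement `1 / 2 + ε` -/
theorem incl_iff_half {κ₁ κ₂ : Kind} (h₁ : κ₁.det = true ∨ κ₁.time = false)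
    (h₂ : κ₂.det = true ∨ κ₂.time = false) {ε : ℝ} (h0 : 0 < ε) (h12 : ε ≤ 1 / 2) :
    LinIncl κ₂ κ₁ ↔ ∀ L : Set (List Bool), LinClass κ₂ L →
      ∃ (k : ℕ) (L' : Set (List (Bool × (Fin k → Bool)))) (adv : ∀ n, Fin n → Fin k → Bool)
        (n0 : ℕ), LinClass κ₁ L' ∧ ∀ n ≥ n0, (1 / 2 + ε) * 2 ^ n ≤ ({w : Fin n → Bool |
          List.ofFn w ∈ L ↔ (List.ofFn fun i => (w i, adv n i)) ∈ L'}.ncard : ℝ) := by
  classical
  have hg : ∀ n (w : Set (Fin n → Bool)) (b : ℕ), w.ncard + b = 2 ^ n →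
      ((1 / 2 + ε) * 2 ^ n ≤ (w.ncard : ℝ) ↔ (1 / 2 + ε) * 2 ^ n + (b : ℝ) ≤ 2 ^ n) := by
    intro n w b h
    have : (w.ncard : ℝ) + b = 2 ^ n := by exact_mod_cast h
    constructor <;> intro h <;> linarith
  constructor
  · intro h L hL
    obtain ⟨k, L', adv, n0, hL', hgood⟩ :=
      mach_of_incl (good := fun n b => (1 / 2 + ε) * 2 ^ n + (b : ℝ) ≤ 2 ^ n) (fun n => by
        have : (0 : ℝ) < 2 ^ n := by positivity
        simp only [Nat.cast_zero, add_zero]
        nlinarith) h L hL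
    refine ⟨k, L', adv, n0, hL', fun n hn => ?_⟩
    exact (hg n _ _ (ncard_agree _)).mpr (hgood n hn)
  · intro h Δ _ L hL
    obtain ⟨m, hm⟩ := exists_nat_gt (1 / ε)
    have hm0 : 0 < m := by
      rcases Nat.eq_zero_or_pos m with h0' | h0'
      · rw [h0'] at hm
        have : 0 < 1 / ε := by positivity
        simp only [Nat.cast_zero] at hm
        linarith
      · exact h0'
    have hM : MAvg (fun n b => (1 / 2 + ε) * 2 ^ n + (b : ℝ) ≤ 2 ^ n) κ₂ κ₁ := by
      intro L hL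
      obtain ⟨k, L', adv, n0, hL', hgood⟩ := h L hL
      exact ⟨k, L', adv, n0, hL', fun n hn => (hg n _ _ (ncard_agree _)).mp (hgood n hn)⟩
    have h1 : AvgInclH m (KC κ₁) (KC κ₂) := by
      intro P hP
      obtain ⟨Q, A, c, hQ, hA, hgd⟩ := avg_of_mach
        (good := fun n b => (1 / 2 + ε) * 2 ^ n + (b : ℝ) ≤ 2 ^ n)
        (fun n b b' hb hn => by
          have : (b' : ℝ) ≤ b := by exact_mod_cast hb
          linarith)
        (fun n => by
          have : (0 : ℝ) < 2 ^ n := by positivity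
          simp only [Nat.cast_zero, add_zero]
          nlinarith) h₁ hM P hP
      refine ⟨Q, A, c, hQ, hA, fun n => ?_⟩
      have h2 := hgd n
      have h3 := card_agree n (fun x => P (2 ^ n + x) ↔ Q (2 ^ n + x, A n))
      have h4 : (((Finset.range (2 ^ n)).filter fun x =>
          P (2 ^ n + x) ↔ Q (2 ^ n + x, A n)).card : ℝ) +
          ({x | x < 2 ^ n ∧ ¬ (P (2 ^ n + x) ↔ Q (2 ^ n + x, A n))}.ncard : ℝ) = 2 ^ n := by
        exact_mod_cast h3
      have h5 : ((m : ℝ) + 2) * 2 ^ n ≤ 2 * m * (((Finset.range (2 ^ n)).filter fun x =>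
          P (2 ^ n + x) ↔ Q (2 ^ n + x, A n)).card : ℝ) := by
        have h6 : (1 / 2 + ε) * 2 ^ n ≤ (((Finset.range (2 ^ n)).filter fun x =>
          P (2 ^ n + x) ↔ Q (2 ^ n + x, A n)).card : ℝ) := by linarith
        have h7 : 1 < m * ε := by
          have := (div_lt_iff₀ h0).mp hm
          exact this
        have h8 : (0 : ℝ) < 2 ^ n := by positivity
        have h9 : (0 : ℝ) < m := by exact_mod_cast hm0
        have h10 : 2 * (m : ℝ) * ((1 / 2 + ε) * 2 ^ n) = (m + 2 * (m * ε)) * 2 ^ n := by ring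
        have h11 : ((m : ℝ) + 2) * 2 ^ n ≤ (m + 2 * (m * ε)) * 2 ^ n :=
          mul_le_mul_of_nonneg_right (by linarith) h8.le
        have h12 : 2 * (m : ℝ) * ((1 / 2 + ε) * 2 ^ n) ≤
            2 * m * (((Finset.range (2 ^ n)).filter fun x =>
              P (2 ^ n + x) ↔ Q (2 ^ n + x, A n)).card : ℝ) :=
          mul_le_mul_of_nonneg_left h6 (by positivity)
        linarith
      exact_mod_cast h5
    exact (lin_iff h₁).mpr (core2 (locChk h₂) hm0 h1 _ (lin_pr h₂ hL))

end LSC
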