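import Pool.Agent.H85P.NR

/-!
# Inductive counting

Nondeterministic single-valued programs decide reachability (Immerman, Szelepcsényi).
-/

set_option autoImplicit false

namespace LSC

open H85L LSP Function

variable {κ : Kind} {α β γ : Type} [Ctx α] [Ctx β] [Ctx γ]

/-! ### Semidecidable predicates -/

/-- predicates accepted by nondeterministic programs -/
def NS (κ : Kind) {α : Type} [Ctx α] (S : α → Prop) : Prop := NR κ fun a (_ : Unit) => S a

theorem NS.congr {S T : α → Prop} (h : NS κ S) (hT : ∀ a, T a ↔ S a) : NS κ T :=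
  NR.congr h fun a _ => hT a

theorem NS.of_pr {S : α → Prop} (h : Pr (KC κ) S) : NS κ S :=
  (NR.restr h (NR.fn (f := fun _ => ()) (Fn.const ()))).congr fun _ _ => by simp

theorem NS.pre {S : β → Prop} {f : α → β} (h : NS κ S) (hf : Fn (KC κ) f) : NS κ fun a => S (f a) :=
  NR.pre hf h

theorem NS.bind {ρ : α → β → Prop} {S : α × β → Prop} (hρ : NR κ ρ) (hS : NS κ S) :
    NS κ fun a => ∃ y, ρ a y ∧ S (a, y) :=
  (NR.comp hρ hS).congr fun _ _ => Iff.rfl

theorem NS.restrR {ρ : α → β → Prop} {S : α → Prop} (hρ : NR κ ρ) (hS : NS κ S) :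
    NR κ fun a y => S a ∧ ρ a y :=
  (NR.comp hS (NR.pre (f := fun q : α × Unit => q.1) (by fun_prop) hρ)).congr fun a y => by
    constructor
    · rintro ⟨h1, h2⟩
      exact ⟨(), h1, h2⟩
    · rintro ⟨_, h1, h2⟩
      exact ⟨h1, h2⟩

theorem NS.and {S T : α → Prop} (hS : NS κ S) (hT : NS κ T) : NS κ fun a => S a ∧ T a :=
  NS.restrR hT hS

theorem NR.filter {ρ : α → β → Prop} {S : α × β → Prop} (hρ : NR κ ρ) (hS : NS κ S) :
    NR κ fun a y => ρ a y ∧ S (a, y) :=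
  (NR.comp hρ (NS.restrR (NR.fn (f := fun q : α × β => q.2) (by fun_prop)) hS)).congr fun a y => by
    constructor
    · rintro ⟨h1, h2⟩
      exact ⟨y, h1, h2, rfl⟩
    · rintro ⟨z, h1, h2, h3⟩
      have h3 : y = z := h3
      subst h3
      exact ⟨h1, h2⟩

/-! ### Counting -/

open Classical in
/-- the number of `z < n` with the property -/
noncomputable def cnt (n : ℕ) (p : ℕ → Prop) : ℕ := ((Finset.range n).filter p).card

theorem cnt_zero (p : ℕ → Prop) : cnt 0 p = 0 := by simp [cnt]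

theorem cnt_pos {n : ℕ} {p : ℕ → Prop} (h : p n) : cnt (n + 1) p = cnt n p + 1 := by
  classical
  unfold cnt
  rw [Finset.range_add_one, Finset.filter_insert, if_pos h, Finset.card_insert_of_notMem (by simp)]

theorem cnt_neg {n : ℕ} {p : ℕ → Prop} (h : ¬ p n) : cnt (n + 1) p = cnt n p := by
  classical
  unfold cnt
  rw [Finset.range_add_one, Finset.filter_insert, if_neg h]

theorem cnt_le (n : ℕ) (p : ℕ → Prop) : cnt n p ≤ n := by
  classical
  unfold cnt
  exact (Finset.card_filter_le _ _).trans (by simp)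

theorem cnt_mono {n : ℕ} {p q : ℕ → Prop} (h : ∀ z < n, p z → q z) : cnt n p ≤ cnt n q := by
  classical
  unfold cnt
  refine Finset.card_le_card fun z hz => ?_
  rw [Finset.mem_filter, Finset.mem_range] at hz ⊢
  exact ⟨hz.1, h z hz.1 hz.2⟩

theorem cnt_congr {n : ℕ} {p q : ℕ → Prop} (h : ∀ z < n, p z ↔ q z) : cnt n p = cnt n q :=
  le_antisymm (cnt_mono fun z hz => (h z hz).mp) (cnt_mono fun z hz => (h z hz).mpr)

/-- all elements of a set have a property if enough elements do -/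
theorem all_of_cnt {n : ℕ} {p q : ℕ → Prop} (h : cnt n p ≤ cnt n fun z => p z ∧ q z) :
    ∀ z < n, p z → q z := by
  classical
  intro z hz hp
  unfold cnt at h
  have hsub : (Finset.range n).filter (fun z => p z ∧ q z) ⊆ (Finset.range n).filter p := by
    intro z hz
    rw [Finset.mem_filter] at hz ⊢
    exact ⟨hz.1, hz.2.1⟩
  have heq := Finset.eq_of_subset_of_card_le hsub (by convert h)
  have : z ∈ (Finset.range n).filter (fun z => p z ∧ q z) := by
    rw [heq, Finset.mem_filter, Finset.mem_range]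
    exact ⟨hz, hp⟩
  exact (Finset.mem_filter.mp this).2.2

theorem sz_iter_le {n : ℕ → ℕ} (x : ℕ → ℕ) (hx0 : x 0 = 0) {m : ℕ}
    (hs : ∀ j < m, x (j + 1) ≤ x j + 1) : x m ≤ m := by
  have _ := n
  induction m with
  | zero => omega
  | succ m ih =>
    have := ih fun j hj => hs j (by omega)
    have := hs m (by omega)
    omega

/-- guess how many -/
theorem NR.atmost {n : α → ℕ} {S : α × ℕ → Prop} (hn : Fn (KC κ) n) (hS : NS κ S) :
    NR κ fun a k => k ≤ cnt (n a) fun z => S (a, z) := by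
  obtain ⟨d, hd⟩ := hn.bd
  simp only [sz_nat] at hd
  have hbody : NR κ (fun (q : α × ℕ × ℕ) (k : ℕ) => k = q.2.2 ∨ (S (q.1, q.2.1) ∧ k = q.2.2 + 1)) :=
    NR.or (NR.fn (by fun_prop)) (NS.restrR (NR.fn (by fun_prop))
      (NS.pre (f := fun q : α × ℕ × ℕ => (q.1, q.2.1)) hS (by fun_prop)))
  have hl := NR.loop (n := n) (g := fun _ => 0) hbody hn (Fn.const 0) ⟨d, fun a x h0 i hi hs => by
    rw [sz_nat]
    refine (size_mono ((sz_iter_le (n := fun _ => 0) x h0 fun j hj => ?_).trans hi)).trans (hd a)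
    rcases hs j hj with h | ⟨-, h⟩
    · have h : x (j + 1) = x j := h
      omega
    · have h : x (j + 1) = x j + 1 := h
      omega⟩
  refine hl.congr fun a k => ?_
  constructor
  · intro hk
    have key : ∀ m, ∀ k ≤ cnt m (fun z => S (a, z)), ∃ x : ℕ → ℕ, x 0 = 0 ∧
        (∀ i < m, x (i + 1) = x i ∨ (S (a, i) ∧ x (i + 1) = x i + 1)) ∧ x m = k := by
      intro m
      induction m with
      | zero =>
        intro k hk
        rw [cnt_zero] at hk
        exact ⟨fun _ => 0, rfl, fun i hi => by omega, (Nat.le_zero.mp hk).symm⟩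
      | succ m ih =>
        intro k hk
        have ext : ∀ (k' : ℕ), k' ≤ cnt m (fun z => S (a, z)) → (k = k' ∨ (S (a, m) ∧ k = k' + 1)) →
            ∃ x : ℕ → ℕ, x 0 = 0 ∧
            (∀ i < m + 1, x (i + 1) = x i ∨ (S (a, i) ∧ x (i + 1) = x i + 1)) ∧ x (m + 1) = k := by
          intro k' hk' hs
          obtain ⟨x, h0, hs', he⟩ := ih k' hk'
          refine ⟨fun i => if i ≤ m then x i else k, by simp [h0], fun i hi => ?_, by simp⟩
          by_cases h : i < m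
          · simp only [if_pos (show i ≤ m by omega), if_pos (show i + 1 ≤ m by omega)]
            exact hs' i h
          · obtain rfl : i = m := by omega
            simp only [if_pos (le_refl i), if_neg (show ¬ i + 1 ≤ i by omega), he]
            exact hs
        by_cases hm : S (a, m)
        · rw [cnt_pos (p := fun z => S (a, z)) hm] at hk
          rcases Nat.eq_zero_or_pos k with h0 | h0
          · exact ext 0 (Nat.zero_le _) (Or.inl h0)
          · exact ext (k - 1) (by omega) (Or.inr ⟨hm, by omega⟩)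
        · rw [cnt_neg (p := fun z => S (a, z)) hm] at hk
          exact ext k hk (Or.inl rfl)
    obtain ⟨x, h0, hs, he⟩ := key (n a) k hk
    exact ⟨x, h0, hs, he⟩
  · rintro ⟨x, h0, hs, rfl⟩
    have key : ∀ m ≤ n a, x m ≤ cnt m (fun z => S (a, z)) := by
      intro m
      induction m with
      | zero =>
        intro _
        have h0 : x 0 = 0 := h0
        omega
      | succ m ih =>
        intro hm
        have h1 := ih (by omega)
        rcases hs m (by omega) with h | ⟨h, h'⟩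
        · have h : x (m + 1) = x m := h
          rw [h]
          by_cases hS : S (a, m)
          · rw [cnt_pos (p := fun z => S (a, z)) hS]; omega
          · rw [cnt_neg (p := fun z => S (a, z)) hS]; exact h1
        · have h' : x (m + 1) = x m + 1 := h'
          have h : S (a, m) := h
          rw [h', cnt_pos (p := fun z => S (a, z)) h]
          omega
    exact key (n a) le_rfl

/-- guess a number -/
theorem NR.upto {n : α → ℕ} (hn : Fn (KC κ) n) : NR κ fun a k => k ≤ n a :=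
  (NR.atmost hn (NS.of_pr (S := fun _ : α × ℕ => True) (Pr.const True))).congr fun a k => by
    have : cnt (n a) (fun _ => True) = n a := by simp [cnt]
    rw [this]

/-- enough elements have the property -/
theorem NS.atleast {n f : α → ℕ} {S : α × ℕ → Prop} (hn : Fn (KC κ) n) (hf : Fn (KC κ) f)
    (hS : NS κ S) : NS κ fun a => f a ≤ cnt (n a) fun z => S (a, z) := by
  refine (NS.bind (S := fun q : α × ℕ => q.2 = f q.1) (NR.atmost hn hS)
    (NS.of_pr (by fun_prop))).congr fun a => ?_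
  constructor
  · intro h
    exact ⟨_, h, rfl⟩
  · rintro ⟨y, h, h'⟩
    have h' : y = f a := h'
    rw [← h']
    exact h

/-- exact counting, with a promise -/
theorem NR.exact {n : α → ℕ} {S T : α × ℕ → Prop} {P : α → Prop} (hn : Fn (KC κ) n)
    (hS : NS κ S) (hT : NS κ T) (hP : ∀ a, P a → ∀ z < n a, T (a, z) ↔ ¬ S (a, z)) :
    ∃ ρ : α → ℕ → Prop, NR κ ρ ∧ ∀ a, P a → ∀ k, ρ a k ↔ k = cnt (n a) fun z => S (a, z) := by
  obtain ⟨d, hd⟩ := hn.bd
  simp only [sz_nat] at hd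
  have hbody : NR κ (fun (q : α × ℕ × ℕ) (k : ℕ) => (T (q.1, q.2.1) ∧ k = q.2.2) ∨
      (S (q.1, q.2.1) ∧ k = q.2.2 + 1)) :=
    NR.or (NS.restrR (NR.fn (by fun_prop))
      (NS.pre (f := fun q : α × ℕ × ℕ => (q.1, q.2.1)) hT (by fun_prop)))
      (NS.restrR (NR.fn (by fun_prop))
        (NS.pre (f := fun q : α × ℕ × ℕ => (q.1, q.2.1)) hS (by fun_prop)))
  have hl := NR.loop (n := n) (g := fun _ => 0) hbody hn (Fn.const 0) ⟨d, fun a x h0 i hi hs => by
    rw [sz_nat]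
    refine (size_mono ((sz_iter_le (n := fun _ => 0) x h0 fun j hj => ?_).trans hi)).trans (hd a)
    rcases hs j hj with ⟨-, h⟩ | ⟨-, h⟩
    · have h : x (j + 1) = x j := h
      omega
    · have h : x (j + 1) = x j + 1 := h
      omega⟩
  refine ⟨_, hl, fun a ha k => ?_⟩
  constructor
  · rintro ⟨x, h0, hs, rfl⟩
    have key : ∀ m ≤ n a, x m = cnt m (fun z => S (a, z)) := by
      intro m
      induction m with
      | zero =>
        intro _
        rw [cnt_zero]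
        exact h0
      | succ m ih =>
        intro hm
        have h1 := ih (by omega)
        rcases hs m (by omega) with ⟨h, h'⟩ | ⟨h, h'⟩
        · have h' : x (m + 1) = x m := h'
          rw [h', cnt_neg (p := fun z => S (a, z)) ((hP a ha m (by omega)).mp h), h1]
        · have h' : x (m + 1) = x m + 1 := h'
          rw [h', cnt_pos (p := fun z => S (a, z)) h, h1]
    exact key (n a) le_rfl
  · rintro rfl
    refine ⟨fun i => cnt i (fun z => S (a, z)), cnt_zero _, fun i hi => ?_, rfl⟩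
    by_cases h : S (a, i)
    · exact Or.inr ⟨h, cnt_pos (p := fun z => S (a, z)) h⟩
    · exact Or.inl ⟨(hP a ha i hi).mpr h, cnt_neg (p := fun z => S (a, z)) h⟩

/-! ### Reachability -/

theorem Reach.symmE {E : ℕ → ℕ → Prop} {N d u v : ℕ} (hu : u < N) (hv : v < N) :
    Reach E N d u v ↔ ∃ x : ℕ → ℕ, x 0 = u ∧
      (∀ i < d, x (i + 1) < N ∧ (x i = x (i + 1) ∨ E (x i) (x (i + 1)))) ∧ x d = v := by
  induction d generalizing v with
  | zero =>
    constructor
    · intro h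
      exact ⟨fun _ => u, rfl, fun i hi => by omega, h⟩
    · rintro ⟨x, h0, -, h1⟩
      rw [h0] at h1
      exact h1
  | succ d ih =>
    constructor
    · rintro ⟨w, hw, h1, h2⟩
      obtain ⟨x, h0, hs, he⟩ := (ih hw).mp h1
      refine ⟨fun i => if i ≤ d then x i else v, by simp [h0], fun i hi => ?_, by simp⟩
      by_cases h : i < d
      · simp only [if_pos (show i ≤ d by omega), if_pos (show i + 1 ≤ d by omega)]
        exact hs i h
      · obtain rfl : i = d := by omega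
        simp only [if_pos (le_refl i), if_neg (show ¬ i + 1 ≤ i by omega), he]
        exact ⟨hv, h2⟩
    · rintro ⟨x, h0, hs, rfl⟩
      have hd : x d < N := by
        rcases Nat.eq_zero_or_pos d with h | h
        · subst h
          rw [h0]
          exact hu
        · have := (hs (d - 1) (by omega)).1
          rwa [Nat.sub_add_cancel h] at this
      exact ⟨x d, hd, (ih hd).mpr ⟨x, h0, fun i hi => hs i (by omega), rfl⟩, (hs d (by omega)).2⟩

/-- inductive counting -/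
theorem reach_decidable (hdet : κ.det = false) {E : α → ℕ → ℕ → Prop} {N : α → ℕ}
    (hE : Pr (KC κ) fun p : α × ℕ × ℕ => E p.1 p.2.1 p.2.2) (hN : Fn (KC κ) N) :
    Pr (KC κ) fun p : α × ℕ × ℕ × ℕ => (p.2.1 < N p.1 ∧ p.2.2.2 < N p.1) ∧
      Reach (E p.1) (N p.1) p.2.2.1 p.2.1 p.2.2.2 := by
  obtain ⟨dN, hdN⟩ := hN.bd
  simp only [sz_nat] at hdN
  -- walks from `u` of length `d`, as a relation
  have hbody : NR κ (fun (q : (α × ℕ × ℕ) × ℕ × ℕ) (y : ℕ) =>
      y ≤ N q.1.1 ∧ (y < N q.1.1 ∧ (q.2.2 = y ∨ E q.1.1 q.2.2 y))) := by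
    refine NR.filter (S := fun q : ((α × ℕ × ℕ) × ℕ × ℕ) × ℕ =>
      q.2 < N q.1.1.1 ∧ (q.1.2.2 = q.2 ∨ E q.1.1.1 q.1.2.2 q.2)) (NR.upto (by fun_prop))
      (NS.of_pr ?_)
    have h1 : Pr (KC κ) (fun q : ((α × ℕ × ℕ) × ℕ × ℕ) × ℕ => E q.1.1.1 q.1.2.2 q.2) :=
      hE.comp (f := fun q : ((α × ℕ × ℕ) × ℕ × ℕ) × ℕ => (q.1.1.1, q.1.2.2, q.2)) (by fun_prop)
    fun_prop
  have hwalk0 := NR.loop (n := fun q : α × ℕ × ℕ => q.2.2) (g := fun q => q.2.1) hbody
    (by fun_prop) (by fun_prop) ⟨dN + 1, fun q x h0 i hi hs => by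
      obtain ⟨a, u, d⟩ := q
      simp only [sz_prod, sz_nat]
      rcases Nat.eq_zero_or_pos i with h | h
      · subst h
        rw [h0]
        show Nat.size u ≤ _
        nlinarith [Nat.zero_le (Nat.size u), Nat.zero_le (Nat.size d), Nat.zero_le (sz a)]
      · have h2 := (hs (i - 1) (by omega)).1
        rw [Nat.sub_add_cancel h] at h2
        have h3 : Nat.size (x i) ≤ dN * (sz a + 1) := (size_mono h2).trans (hdN a)
        nlinarith [Nat.zero_le (Nat.size u), Nat.zero_le (Nat.size d), Nat.zero_le (sz a),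
          Nat.zero_le (dN * (Nat.size u + Nat.size d))]⟩
  have hwalk : NS κ (fun q : (α × ℕ × ℕ) × ℕ => (q.1.2.1 < N q.1.1 ∧ q.2 < N q.1.1) ∧
      Reach (E q.1.1) (N q.1.1) q.1.2.2 q.1.2.1 q.2) := by
    have h1 := NS.and (NS.of_pr (κ := κ) (S := fun q : (α × ℕ × ℕ) × ℕ =>
      q.1.2.1 < N q.1.1 ∧ q.2 < N q.1.1) (by fun_prop))
      (NS.bind (S := fun q : ((α × ℕ × ℕ) × ℕ) × ℕ => q.2 = q.1.2)
        (NR.pre (f := fun q : (α × ℕ × ℕ) × ℕ => q.1) (by fun_prop) hwalk0)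
        (NS.of_pr (by fun_prop)))
    refine h1.congr fun q => ?_
    obtain ⟨⟨a, u, d⟩, v⟩ := q
    simp only
    refine and_congr_right fun h => ?_
    rw [Reach.symmE h.1 h.2]
    constructor
    · rintro ⟨x, h0, hs, he⟩
      exact ⟨v, ⟨x, h0, fun i hi => ⟨(hs i hi).1.le, hs i hi⟩, he⟩, rfl⟩
    · rintro ⟨y, ⟨x, h0, hs, he⟩, h2⟩
      exact ⟨x, h0, fun i hi => (hs i hi).2, he.trans h2⟩
  -- the number of vertices reached
  set cn : α → ℕ → ℕ → ℕ := fun a u d => cnt (N a) fun z => Reach (E a) (N a) d u z with hcn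
  -- all vertices reached have a property
  have hall : ∀ Q : (α × ℕ × ℕ × ℕ) × ℕ → Prop, Pr (KC κ) Q →
      NS κ (fun q : α × ℕ × ℕ × ℕ => q.2.2.2 ≤ cnt (N q.1) fun z =>
        ((q.2.1 < N q.1 ∧ z < N q.1) ∧ Reach (E q.1) (N q.1) q.2.2.1 q.2.1 z) ∧ Q (q, z)) := by
    intro Q hQ
    refine NS.atleast (S := fun p : (α × ℕ × ℕ × ℕ) × ℕ =>
      ((p.1.2.1 < N p.1.1 ∧ p.2 < N p.1.1) ∧ Reach (E p.1.1) (N p.1.1) p.1.2.2.1 p.1.2.1 p.2) ∧
        Q p) (by fun_prop) (by fun_prop) ?_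
    exact NS.and (NS.pre (f := fun p : (α × ℕ × ℕ × ℕ) × ℕ => ((p.1.1, p.1.2.1, p.1.2.2.1), p.2))
      hwalk (by fun_prop)) (NS.of_pr hQ)
  have hall' : ∀ (Q : ℕ → Prop) (a : α) (u d : ℕ), u < N a →
      (cn a u d ≤ cnt (N a) (fun z => ((u < N a ∧ z < N a) ∧ Reach (E a) (N a) d u z) ∧ Q z) ↔
        ∀ z < N a, Reach (E a) (N a) d u z → Q z) := by
    intro Q a u d hu
    have h1 : cnt (N a) (fun z => ((u < N a ∧ z < N a) ∧ Reach (E a) (N a) d u z) ∧ Q z) =
        cnt (N a) (fun z => Reach (E a) (N a) d u z ∧ Q z) :=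
      cnt_congr fun z hz => by simp [hu, hz]
    rw [h1]
    constructor
    · intro h
      exact all_of_cnt h
    · intro h
      exact cnt_mono fun z hz hr => ⟨hr, h z hz hr⟩
  -- the next number
  have hEz : Pr (KC κ) (fun p : ((α × ℕ × ℕ × ℕ) × ℕ) × ℕ => ¬ (p.2 = p.1.2 ∨ E p.1.1.1 p.2 p.1.2)) := by
    have h1 : Pr (KC κ) (fun p : ((α × ℕ × ℕ × ℕ) × ℕ) × ℕ => E p.1.1.1 p.2 p.1.2) :=
      hE.comp (f := fun p : ((α × ℕ × ℕ × ℕ) × ℕ) × ℕ => (p.1.1.1, p.2, p.1.2)) (by fun_prop)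
    fun_prop
  have hT : NS κ (fun p : (α × ℕ × ℕ × ℕ) × ℕ => p.1.2.2.2 ≤ cnt (N p.1.1) fun z =>
      ((p.1.2.1 < N p.1.1 ∧ z < N p.1.1) ∧ Reach (E p.1.1) (N p.1.1) p.1.2.2.1 p.1.2.1 z) ∧
        ¬ (z = p.2 ∨ E p.1.1 z p.2)) := by
    refine NS.atleast (S := fun q : ((α × ℕ × ℕ × ℕ) × ℕ) × ℕ =>
      ((q.1.1.2.1 < N q.1.1.1 ∧ q.2 < N q.1.1.1) ∧
        Reach (E q.1.1.1) (N q.1.1.1) q.1.1.2.2.1 q.1.1.2.1 q.2) ∧
        ¬ (q.2 = q.1.2 ∨ E q.1.1.1 q.2 q.1.2)) (by fun_prop) (by fun_prop) ?_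
    exact NS.and (NS.pre (f := fun q : ((α × ℕ × ℕ × ℕ) × ℕ) × ℕ =>
      ((q.1.1.1, q.1.1.2.1, q.1.1.2.2.1), q.2)) hwalk (by fun_prop)) (NS.of_pr hEz)
  have hS : NS κ (fun p : (α × ℕ × ℕ × ℕ) × ℕ => (p.1.2.1 < N p.1.1 ∧ p.2 < N p.1.1) ∧
      Reach (E p.1.1) (N p.1.1) (p.1.2.2.1 + 1) p.1.2.1 p.2) :=
    NS.pre (f := fun p : (α × ℕ × ℕ × ℕ) × ℕ => ((p.1.1, p.1.2.1, p.1.2.2.1 + 1), p.2)) hwalk
      (by fun_prop)
  obtain ⟨ρ, hρ, hρ'⟩ := NR.exact (n := fun q : α × ℕ × ℕ × ℕ => N q.1)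
    (P := fun q => q.2.1 < N q.1 ∧ q.2.2.2 = cn q.1 q.2.1 q.2.2.1) (by fun_prop) hS hT
    (fun q hq z hz => by
      obtain ⟨a, u, d, c⟩ := q
      obtain ⟨hu, hc⟩ := hq
      simp only at hu hc hz ⊢
      subst hc
      rw [hall' (fun w => ¬ (w = z ∨ E a w z)) a u d hu]
      constructor
      · rintro h ⟨-, w, hw, h1, h2⟩
        exact h w hw h1 h2
      · intro h w hw h1 h2
        exact h ⟨⟨hu, hz⟩, w, hw, h1, h2⟩)
  have hρ2 : ∀ a u d, u < N a → ∀ k, ρ (a, u, d, cn a u d) k ↔ k = cn a u (d + 1) := by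
    intro a u d hu k
    rw [hρ' (a, u, d, cn a u d) ⟨hu, rfl⟩]
    have : cnt (N a) (fun z => (u < N a ∧ z < N a) ∧ Reach (E a) (N a) (d + 1) u z) =
        cn a u (d + 1) := cnt_congr fun z hz => by simp [hu, hz]
    simp only [this]
  have hc0 : ∀ a u, u < N a → cn a u 0 = 1 := by
    intro a u hu
    classical
    show ((Finset.range (N a)).filter fun z => Reach (E a) (N a) 0 u z).card = 1
    rw [Finset.card_eq_one]
    refine ⟨u, ?_⟩
    ext z
    rw [Finset.mem_filter, Finset.mem_range, Finset.mem_singleton]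
    constructor
    · rintro ⟨-, h⟩
      exact h.symm
    · rintro rfl
      exact ⟨hu, rfl⟩
  -- the number, as a relation
  have hcnt : ∃ σ : α × ℕ × ℕ → ℕ → Prop, NR κ σ ∧ ∀ a u d, u < N a → ∀ k,
      σ (a, u, d) k ↔ k = cn a u d := by
    have hb : NR κ (fun (q : (α × ℕ × ℕ) × ℕ × ℕ) (k : ℕ) => q.1.2.1 < N q.1.1 ∧
        ρ (q.1.1, q.1.2.1, q.2.1, q.2.2) k) :=
      NR.restr (by fun_prop) (NR.pre (f := fun q : (α × ℕ × ℕ) × ℕ × ℕ =>
        (q.1.1, q.1.2.1, q.2.1, q.2.2)) (by fun_prop) hρ)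
    have hchain : ∀ (a : α) (u d : ℕ) (x : ℕ → ℕ), x 0 = 1 → ∀ i ≤ d,
        (∀ j < i, u < N a ∧ ρ (a, u, j, x j) (x (j + 1))) → u < N a → x i = cn a u i := by
      intro a u d x h0 i
      induction i with
      | zero =>
        intro _ _ hu
        rw [h0, hc0 a u hu]
      | succ i ih =>
        intro hi hs hu
        have h1 := ih (by omega) (fun j hj => hs j (by omega)) hu
        have h2 := (hs i (by omega)).2
        rw [h1, hρ2 a u i hu] at h2
        exact h2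
    have hl := NR.loop (n := fun q : α × ℕ × ℕ => q.2.2) (g := fun _ => 1) hb (by fun_prop)
      (by fun_prop) ⟨dN + 1, fun q x h0 i hi hs => by
        obtain ⟨a, u, d⟩ := q
        simp only [sz_prod, sz_nat]
        rcases Nat.eq_zero_or_pos i with h | h
        · subst h
          rw [h0]
          show Nat.size 1 ≤ _
          rw [Nat.size_one]
          nlinarith [Nat.zero_le (Nat.size u), Nat.zero_le (Nat.size d), Nat.zero_le (sz a)]
        · have hu : u < N a := (hs 0 h).1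
          rw [hchain a u d x h0 i hi hs hu]
          have h3 : Nat.size (cn a u i) ≤ dN * (sz a + 1) :=
            (size_mono (cnt_le _ _)).trans (hdN a)
          nlinarith [Nat.zero_le (Nat.size u), Nat.zero_le (Nat.size d), Nat.zero_le (sz a),
            Nat.zero_le (dN * (Nat.size u + Nat.size d))]⟩
    refine ⟨_, hl, fun a u d hu k => ?_⟩
    constructor
    · rintro ⟨x, h0, hs, rfl⟩
      exact hchain a u d x h0 d le_rfl hs hu
    · rintro rfl
      refine ⟨fun i => cn a u i, hc0 a u hu, fun i _ => ⟨hu, ?_⟩, rfl⟩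
      exact (hρ2 a u i hu _).mpr rfl
  obtain ⟨σ, hσ, hσ'⟩ := hcnt
  -- the decision
  classical
  refine pr_iff.mpr (NR.single ?_ hdet)
  have hneg : NS κ (fun p : α × ℕ × ℕ × ℕ => ∃ c, σ (p.1, p.2.1, p.2.2.1) c ∧
      c ≤ cnt (N p.1) fun z =>
        ((p.2.1 < N p.1 ∧ z < N p.1) ∧ Reach (E p.1) (N p.1) p.2.2.1 p.2.1 z) ∧
          ¬ z = p.2.2.2) := by
    refine NS.bind (S := fun q : (α × ℕ × ℕ × ℕ) × ℕ => q.2 ≤ cnt (N q.1.1) fun z =>
        ((q.1.2.1 < N q.1.1 ∧ z < N q.1.1) ∧ Reach (E q.1.1) (N q.1.1) q.1.2.2.1 q.1.2.1 z) ∧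
          ¬ z = q.1.2.2.2)
      (NR.pre (f := fun p : α × ℕ × ℕ × ℕ => (p.1, p.2.1, p.2.2.1)) (by fun_prop) hσ) ?_
    refine NS.atleast (S := fun r : ((α × ℕ × ℕ × ℕ) × ℕ) × ℕ =>
      ((r.1.1.2.1 < N r.1.1.1 ∧ r.2 < N r.1.1.1) ∧
        Reach (E r.1.1.1) (N r.1.1.1) r.1.1.2.2.1 r.1.1.2.1 r.2) ∧ ¬ r.2 = r.1.1.2.2.2)
      (by fun_prop) (by fun_prop) ?_
    exact NS.and (NS.pre (f := fun r : ((α × ℕ × ℕ × ℕ) × ℕ) × ℕ =>
      ((r.1.1.1, r.1.1.2.1, r.1.1.2.2.1), r.2)) hwalk (by fun_prop)) (NS.of_pr (by fun_prop))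
  have hpos : NS κ (fun p : α × ℕ × ℕ × ℕ => (p.2.1 < N p.1 ∧ p.2.2.2 < N p.1) ∧
      Reach (E p.1) (N p.1) p.2.2.1 p.2.1 p.2.2.2) :=
    NS.pre (f := fun p : α × ℕ × ℕ × ℕ => ((p.1, p.2.1, p.2.2.1), p.2.2.2)) hwalk (by fun_prop)
  have hout : NR κ (fun (p : α × ℕ × ℕ × ℕ) (y : ℕ) => (y = 1 ∧ ((p.2.1 < N p.1 ∧ p.2.2.2 < N p.1) ∧
      Reach (E p.1) (N p.1) p.2.2.1 p.2.1 p.2.2.2)) ∨
      (y = 0 ∧ (¬ (p.2.1 < N p.1 ∧ p.2.2.2 < N p.1) ∨
        (p.2.1 < N p.1 ∧ p.2.2.2 < N p.1) ∧ ∃ c, σ (p.1, p.2.1, p.2.2.1) c ∧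
      c ≤ cnt (N p.1) fun z =>
        ((p.2.1 < N p.1 ∧ z < N p.1) ∧ Reach (E p.1) (N p.1) p.2.2.1 p.2.1 z) ∧
          ¬ z = p.2.2.2))) := by
    refine (NR.or (NS.restrR (NR.fn (f := fun _ => 1) (Fn.const 1)) hpos)
      (NR.or (NR.restr (p := fun p : α × ℕ × ℕ × ℕ => ¬ (p.2.1 < N p.1 ∧ p.2.2.2 < N p.1))
        (by fun_prop) (NR.fn (f := fun _ => 0) (Fn.const 0)))
        (NR.restr (p := fun p : α × ℕ × ℕ × ℕ => p.2.1 < N p.1 ∧ p.2.2.2 < N p.1)
        (by fun_prop) (NS.restrR (NR.fn (f := fun _ => 0) (Fn.const 0)) hneg)))).congr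
        fun p y => ?_
    tauto
  refine hout.congr fun p y => ?_
  obtain ⟨a, u, d, v⟩ := p
  simp only
  have hkey : u < N a → v < N a → ((∃ c, σ (a, u, d) c ∧ c ≤ cnt (N a) fun z =>
      ((u < N a ∧ z < N a) ∧ Reach (E a) (N a) d u z) ∧ ¬ z = v) ↔
      ¬ Reach (E a) (N a) d u v) := by
    intro hu hv
    constructor
    · rintro ⟨c, hc, h⟩ hr
      rw [hσ' a u d hu] at hc
      subst hc
      exact (hall' (fun z => ¬ z = v) a u d hu).mp h v hv hr rfl
    · intro h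
      refine ⟨cn a u d, (hσ' a u d hu _).mpr rfl, (hall' (fun z => ¬ z = v) a u d hu).mpr ?_⟩
      rintro z hz hr rfl
      exact h hr
  by_cases hr : (u < N a ∧ v < N a) ∧ Reach (E a) (N a) d u v
  · rw [if_pos hr]
    constructor
    · rintro rfl
      exact Or.inl ⟨rfl, hr⟩
    · rintro (⟨h, -⟩ | ⟨h, h' | ⟨-, h'⟩⟩)
      · exact h
      · exact absurd hr.1 h'
      · exact absurd hr.2 ((hkey hr.1.1 hr.1.2).mp h')
  · rw [if_neg hr]
    constructor
    · rintro rfl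
      refine Or.inr ⟨rfl, ?_⟩
      by_cases h : u < N a ∧ v < N a
      · exact Or.inr ⟨h, (hkey h.1 h.2).mpr fun h' => hr ⟨h, h'⟩⟩
      · exact Or.inl h
    · rintro (⟨-, h⟩ | ⟨h, -⟩)
      · exact absurd h hr
      · exact h

end LSC
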