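import Pool.Agent.H85P.Arith
import Pool.Agent.H69P.IterV

/-!
# The functions computed by programs have the closure properties
-/

set_option autoImplicit false

namespace LSC

open H85L LSP

/-- the class of the functions computed by the programs of a kind -/
def KC (κ : Kind) : NClass := ⟨fun _ F => Cmp κ F⟩

instance (κ : Kind) : Calc (KC κ) where
  proj k i := cmp_proj κ i
  zero := cmp_zero κ 0
  succ := cmp_succ κ 0
  comp k m f g hf hg := Cmp.comp hf hg
  recn k m f g h hg hh h0 h1 hb := Cmp.iterV hg hh f h0 (fun a i j => by
    rw [h1, Fin.append_right_eq_snoc]) hb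
  bd k f hf := Cmp.size hf

theorem fn_kc {κ : Kind} {k : ℕ} {F : (Fin k → ℕ) → ℕ} : Fn (KC κ) F ↔ Cmp κ F := by
  constructor
  · intro h
    exact h 0
  · intro h _
    exact h

end LSC
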