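import Pool.Agent.H85P.Word
import Pool.Agent.H69P.Compile

/-!
# Languages given by decidable predicates on numbers

A machine reads its input from the end to the beginning and computes the number of the input word.
-/

set_option autoImplicit false

namespace LSC

open H85L LSP Function

variable {κ : Kind} {Δ : Type}

/-- the memory of the loader -/
def mm (a x d r f : List Bool) : Mem
  | 0 => a
  | 1 => x
  | 2 => d
  | 3 => r
  | 4 => []
  | 5 => f
  | _ + 6 => []

theorem mm_upd0 (a x d r f l : List Bool) : update (mm a x d r f) 0 l = mm l x d r f := by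
  funext i
  rcases i with _ | _ | _ | _ | _ | _ | i <;> simp [mm, update]

theorem mm_upd1 (a x d r f l : List Bool) : update (mm a x d r f) 1 l = mm a l d r f := by
  funext i
  rcases i with _ | _ | _ | _ | _ | _ | i <;> simp [mm, update]

theorem mm_upd2 (a x d r f l : List Bool) : update (mm a x d r f) 2 l = mm a x l r f := by
  funext i
  rcases i with _ | _ | _ | _ | _ | _ | i <;> simp [mm, update]

theorem mm_upd3 (a x d r f l : List Bool) : update (mm a x d r f) 3 l = mm a x d l f := by
  funext i
  rcases i with _ | _ | _ | _ | _ | _ | i <;> simp [mm, update]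

theorem mm_upd5 (a x d r f l : List Bool) : update (mm a x d r f) 5 l = mm a x d r l := by
  funext i
  rcases i with _ | _ | _ | _ | _ | _ | i <;> simp [mm, update]

theorem mm_len {a x d r f : List Bool} {B : ℕ} (ha : a.length ≤ B) (hx : x.length ≤ B)
    (hd : d.length ≤ B) (hr : r.length ≤ B) (hf : f.length ≤ B) (i : ℕ) :
    (mm a x d r f i).length ≤ B := by
  rcases i with _ | _ | _ | _ | _ | _ | i <;> simp [mm, *]

/-- one move of the way to the end of the input -/
def upM : Prog Δ := .move 6 fun _ o _ i =>
  match o with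
  | none => if (i : ℕ) = 5 then .pop else .stay
  | some _ => if (i : ℕ) = 0 then .push true else .stay

theorem runs_up_some {v : View Δ} {B : ℕ} {a x d r f : List Bool} (δ : Δ) (hv : v a = some δ)
    (ha : a.length + 1 ≤ B) (hx : x.length ≤ B) (hd : d.length ≤ B) (hr : r.length ≤ B)
    (hf : f.length ≤ B) :
    Runs v B upM (mm a x d r f) (mm (true :: a) x d r f) 1 := by
  refine Runs.move (fun b => ?_) (mm_len (by simpa using ha) hx hd hr hf)
  funext i
  unfold doMove
  have hv' : v (mm a x d r f 0) = some δ := hv
  rw [hv']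
  rcases i with _ | _ | _ | _ | _ | _ | i <;> simp [mm, Op.app]

theorem runs_up_none {v : View Δ} {B : ℕ} {a x d r f : List Bool} (hv : v a = none)
    (ha : a.length ≤ B) (hx : x.length ≤ B) (hd : d.length ≤ B) (hr : r.length ≤ B)
    (hf : f.length ≤ B) :
    Runs v B upM (mm a x d r (true :: f)) (mm a x d r f) 1 := by
  refine Runs.move (fun b => ?_) (mm_len ha hx hd hr hf)
  funext i
  unfold doMove
  have hv' : v (mm a x d r (true :: f) 0) = none := hv
  rw [hv']
  rcases i with _ | _ | _ | _ | _ | _ | i <;> simp [mm, Op.app]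

theorem headView_rep (x : List Δ) (j : ℕ) : headView x (List.replicate j true) = x[j]? := by
  unfold headView
  rw [List.length_replicate]

/-- to the end of the input -/
def climb : Prog Δ := .seq (push 5 true) (.loop 5 upM)

theorem runs_climb (x : List Δ) {B : ℕ} (hB : x.length + 2 ≤ B) :
    Runs (headView x) B climb (mm [] [] [] [] []) (mm (List.replicate x.length true) [] [] [] [])
      (2 * x.length + 5) := by
  have h1 := runs_push (v := headView x) (B := B) (s := mm [] [] [] [] []) 5 true
    (mm_len (by simp) (by simp) (by simp) (by simp) (by simp)) (by simp [mm]; omega)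
  rw [mm_upd5] at h1
  have h2 := Runs.loopN (v := headView x) (B := B) (i := 5) (p := upM)
    (fun j => if j ≤ x.length then mm (List.replicate j true) [] [] [] [true] else
      mm (List.replicate x.length true) [] [] [] []) (x.length + 1) 1
    (by simp [mm]) (fun j hj => by
      simp only [if_pos (show j ≤ x.length by omega)]
      simp [mm]) (fun j hj => by
      simp only [if_pos (show j ≤ x.length by omega)]
      by_cases h : j < x.length
      · simp only [if_pos (show j + 1 ≤ x.length by omega)]
        rw [List.replicate_succ]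
        exact runs_up_some x[j] (by rw [headView_rep, List.getElem?_eq_getElem h])
          (by simp; omega) (by simp) (by simp) (by simp) (by simp; omega)
      · obtain rfl : j = x.length := by omega
        simp only [if_neg (show ¬ x.length + 1 ≤ x.length by omega)]
        exact runs_up_none (by rw [headView_rep, List.getElem?_eq_none (by omega)])
          (by simp; omega) (by simp) (by simp) (by simp) (by simp))
  simp only [Nat.zero_le, if_true, List.replicate_zero, if_neg (show ¬ x.length + 1 ≤ x.length by
    omega)] at h2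
  have h3 : mm [] [] [] [] (true :: mm [] [] [] [] [] 5) = mm [] [] [] [] [true] := rfl
  rw [h3] at h1
  exact (h1.seq h2).monoT (by omega)

variable [Finite Δ]

/-- write the digits of the number of the letter -/
noncomputable def wrP : ℕ → Prog Δ
  | 0 => seqs []
  | j + 1 => .seq (.move 3 fun _ o _ i => if (i : ℕ) = 2 then
      (match (Nat.bits (nmo o))[j]? with
      | some c => .push c
      | none => .stay) else .stay) (wrP j)

theorem wrP_det (j : ℕ) : (wrP j : Prog Δ).Det := by
  induction j with
  | zero => exact seqs_det (by simp)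
  | succ j ih => exact ⟨fun _ _ _ _ => rfl, ih⟩

theorem runs_wr {v : View Δ} {B : ℕ} {a x r f : List Bool} (j : ℕ)
    (ha : a.length ≤ B) (hx : x.length ≤ B) (hr : r.length ≤ B) (hf : f.length ≤ B)
    (hB : (Nat.bits (nmo (v a))).length ≤ B) :
    Runs v B (wrP j) (mm a x ((Nat.bits (nmo (v a))).drop j) r f)
      (mm a x (Nat.bits (nmo (v a))) r f) (2 * j + 1) := by
  induction j with
  | zero =>
    rw [List.drop_zero]
    exact (Runs.seqs_nil (mm_len ha hx hB hr hf)).monoT (by omega)
  | succ j ih =>
    have h1 : Runs v B (.move 3 fun _ o _ i => if (i : ℕ) = 2 then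
        (match (Nat.bits (nmo o))[j]? with
        | some c => .push c
        | none => .stay) else .stay) (mm a x ((Nat.bits (nmo (v a))).drop (j + 1)) r f)
        (mm a x ((Nat.bits (nmo (v a))).drop j) r f) 1 := by
      refine Runs.move (fun b => ?_) (mm_len ha hx (by rw [List.length_drop]; omega) hr hf)
      funext i
      unfold doMove
      have hv' : v (mm a x ((Nat.bits (nmo (v a))).drop (j + 1)) r f 0) = v a := rfl
      rw [hv']
      rcases i with _ | _ | _ | i
      · simp [mm, Op.app]
      · simp [mm, Op.app]
      · rw [dif_pos (by omega)]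
        show (if (2 : ℕ) = 2 then _ else _ : Op Bool).app ((Nat.bits (nmo (v a))).drop (j + 1)) =
          (Nat.bits (nmo (v a))).drop j
        rw [if_pos rfl]
        by_cases h : j < (Nat.bits (nmo (v a))).length
        · rw [List.getElem?_eq_getElem h]
          exact (List.drop_eq_getElem_cons h).symm
        · rw [List.getElem?_eq_none (by omega), List.drop_eq_nil_of_le (by omega),
            List.drop_eq_nil_of_le (by omega)]
          rfl
      · rw [dif_neg (by omega)]
        rcases i with _ | _ | _ | i <;> rfl
    exact (h1.seq ih).monoT (by omega)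

/-- the Horner step -/
theorem cmp_horner (κ : Kind) (b : ℕ) : Cmp κ (fun a : Fin 2 → ℕ => b * a 0 + a 1) := by
  have h0 : Fn (KC κ) (fun a : Fin 2 → ℕ => a 0) := Fn.apply (f := fun a : Fin 2 → ℕ => a) Fn.id 0
  have h1 : Fn (KC κ) (fun a : Fin 2 → ℕ => a 1) := Fn.apply (f := fun a : Fin 2 → ℕ => a) Fn.id 1
  exact fn_kc.mp (Fn.add (Fn.mul (Fn.const b) h0) h1)

/-- call, clear and move -/
def stepP (p : Prog Δ) (k : ℕ) : Prog Δ :=
  .seq (callP p k 6 (fun j => j + 1) 3) (.seq (clr 1) (.seq (mov 3 1 4) (clr 2)))

omit [Finite Δ] in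
theorem stepP_det {p : Prog Δ} (hp : p.Det) (k : ℕ) : (stepP p k).Det :=
  ⟨callP_det hp _ _ _ _, clr_det _, mov_det _ _ _, clr_det _⟩

omit [Finite Δ] in
theorem runs_step {v : View Δ} {B : ℕ} {p : Prog Δ} {k : ℕ} (hk : k ≤ 2) {a : List Bool} {x d r T : ℕ}
    (arg : Fin k → ℕ) (harg : ∀ j : Fin k, arg j = if (j : ℕ) = 0 then x else d)
    (ha : a.length ≤ B) (hB : Nat.size x + Nat.size d + Nat.size r ≤ B)
    (hp : Runs (fun _ => v a) B p (regs arg 0) (regs arg r) T) :
    Runs v B (stepP p k) (mm a (Nat.bits x) (Nat.bits d) [] []) (mm a (Nat.bits r) [] [] [])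
      (T + 50 * (Nat.size x + Nat.size d + Nat.size r) + 50) := by
  have hsa : LSP.sz arg ≤ Nat.size x + Nat.size d := by
    unfold LSP.sz
    obtain rfl | rfl | rfl : k = 0 ∨ k = 1 ∨ k = 2 := by omega
    · simp
    · rw [Fin.sum_univ_one, harg]
      simp
    · rw [Fin.sum_univ_two, harg, harg]
      simp
  have hm : ∀ i, (mm a (Nat.bits x) (Nat.bits d) [] [] i).length ≤ B :=
    mm_len ha (by rw [bits_length]; omega) (by rw [bits_length]; omega) (by simp) (by simp)
  have h1 := runs_call (v := v) (B := B) (p := p) (k := k) (N := 6) (arg := fun j => (j : ℕ) + 1)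
    (dst := 3) (a := arg) (r := r) (S := mm a (Nat.bits x) (Nat.bits d) [] []) (T := T) (by omega)
    hm (fun i hi => by
      obtain ⟨j, rfl⟩ := Nat.exists_eq_add_of_le' hi
      rfl)
    (fun j => ⟨by have := j.2; omega, by
      rw [harg]
      have := j.2
      obtain h | h : (j : ℕ) = 0 ∨ (j : ℕ) = 1 := by omega
      · rw [h]; rfl
      · rw [h]; rfl⟩) ⟨by omega, rfl⟩ (by omega) (by omega) hp
  rw [mm_upd3] at h1
  have hm1 : ∀ i, (mm a (Nat.bits x) (Nat.bits d) (Nat.bits r) [] i).length ≤ B :=
    mm_len ha (by rw [bits_length]; omega) (by rw [bits_length]; omega)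
      (by rw [bits_length]; omega) (by simp)
  have h2 := runs_clr (v := v) (B := B) (s := mm a (Nat.bits x) (Nat.bits d) (Nat.bits r) []) 1 hm1
  rw [mm_upd1] at h2
  have e2 : (mm a (Nat.bits x) (Nat.bits d) (Nat.bits r) [] 1).length = Nat.size x := bits_length x
  rw [e2] at h2
  have hm2 : ∀ i, (mm a [] (Nat.bits d) (Nat.bits r) [] i).length ≤ B :=
    mm_len ha (by simp) (by rw [bits_length]; omega)
      (by rw [bits_length]; omega) (by simp)
  have h3 := runs_mov (v := v) (B := B) (s := mm a [] (Nat.bits d) (Nat.bits r) []) 3 1 4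
    (by omega) (by omega) (by omega) rfl rfl hm2
  rw [mm_upd3, mm_upd1] at h3
  have e3 : mm a [] (Nat.bits d) (Nat.bits r) [] 3 = Nat.bits r := rfl
  rw [e3, bits_length] at h3
  have hm3 : ∀ i, (mm a (Nat.bits r) (Nat.bits d) [] [] i).length ≤ B :=
    mm_len ha (by rw [bits_length]; omega) (by rw [bits_length]; omega) (by simp) (by simp)
  have h4 := runs_clr (v := v) (B := B) (s := mm a (Nat.bits r) (Nat.bits d) [] []) 2 hm3
  rw [mm_upd2] at h4
  have e4 : (mm a (Nat.bits r) (Nat.bits d) [] [] 2).length = Nat.size d := bits_length d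
  rw [e4] at h4
  refine (h1.seq (h2.seq (h3.seq h4))).monoT ?_
  have e5 : k * (6 * LSP.sz arg + 6) ≤ 2 * (6 * (Nat.size x + Nat.size d) + 6) :=
    Nat.mul_le_mul hk (by omega)
  omega

/-- one letter -/
noncomputable def letP (p : Prog Δ) : Prog Δ :=
  .seq (pop 0) (.seq (wrP (Nat.size (Nat.card Δ + 1))) (stepP p 2))

theorem size_nmo_le (o : Option Δ) : Nat.size (nmo o) ≤ Nat.size (Nat.card Δ + 1) :=
  size_mono (nmo_lt o).le

/-- a language given by a decidable predicate on the numbers of the words -/
theorem lin_of_pr {P : ℕ → Prop} (hP : Pr (KC κ) P) : LinClass κ {w : List Δ | P (st w)} := by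
  classical
  obtain ⟨f, hf, hfP⟩ := hP
  have hcf : Cmp κ (fun a : Fin 1 → ℕ => f (a 0)) := by
    have h0 : Fn (KC κ) (fun a : Fin 1 → ℕ => a 0) := Fn.apply (f := fun a : Fin 1 → ℕ => a) Fn.id 0
    exact fn_kc.mp (hf.comp h0)
  obtain ⟨pH, hHdet, cH, hH⟩ := (cmp_horner κ (Nat.card Δ + 1)).unif Δ
  obtain ⟨pF, hFdet, cF, hF⟩ := hcf.unif Δ
  set W := Nat.size (Nat.card Δ + 1) with hW
  set prog : Prog Δ := .seq climb (.seq (.loop 0 (letP pH)) (stepP pF 1)) with hprog
  obtain ⟨Q, K, _, _, M, hMdet, hM⟩ := compile prog
  -- bounds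
  set c := 200 * (cH * (W + 1)) + 200 * (cF * (W + 1)) + 400 * W + 400 with hc
  have key : ∀ x : List Δ, ∃ B, (κ.time = false → B ≤ c * (x.length + 1)) ∧
      Runs (headView x) B prog (fun _ => []) (mm [] (Nat.bits (f (st x))) [] [] [])
        (2 ^ (c * (x.length + 1)) - 1) := by
    intro x
    set n := x.length with hn
    set L := W * (n + 1) with hL
    have hLn : L + 1 ≤ (W + 1) * (n + 1) := by rw [hL]; nlinarith
    have hst : ∀ i, Nat.size (st (x.drop i)) ≤ L := by
      intro i
      refine (size_st_le _).trans ?_
      rw [hL, List.length_drop, Nat.mul_comm W]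
      exact Nat.mul_le_mul_right _ (by omega)
    have hWL : W ≤ L := by rw [hL]; nlinarith [Nat.zero_le W]
    set B := hb κ cH L + hb κ cF L + cF * (L + 1) + 4 * L + n + 10 with hB
    have q1 : cH * (L + 1) ≤ cH * (W + 1) * (n + 1) := by
      rw [mul_assoc]; exact Nat.mul_le_mul_left _ hLn
    have q2 : cF * (L + 1) ≤ cF * (W + 1) * (n + 1) := by
      rw [mul_assoc]; exact Nat.mul_le_mul_left _ hLn
    have e5 : c * (n + 1) = 200 * (cH * (W + 1) * (n + 1)) + 200 * (cF * (W + 1) * (n + 1)) +
        400 * L + 400 * (n + 1) := by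
      rw [hc, hL]; ring
    generalize cH * (W + 1) * (n + 1) = X1 at q1 e5
    generalize cF * (W + 1) * (n + 1) = X2 at q2 e5
    refine ⟨B, fun ht => ?_, ?_⟩
    · have e1 : hb κ cH L = cH * (L + 1) := by unfold hb; rw [ht]; rfl
      have e2 : hb κ cF L = cF * (L + 1) := by unfold hb; rw [ht]; rfl
      rw [hB, e1, e2, e5]
      omega
    · -- the loop
      have hmm0 : (fun _ => [] : Mem) = mm [] [] [] [] [] := by
        funext i
        rcases i with _ | _ | _ | _ | _ | _ | i <;> rfl
      have r1 := runs_climb x (B := B) (by omega)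
      have hbody : ∀ i < n, Runs (headView x) B (letP pH)
          (mm (List.replicate (i + 1) true) (Nat.bits (st (x.drop (i + 1)))) [] [] [])
          (mm (List.replicate i true) (Nat.bits (st (x.drop i))) [] [] [])
          (2 ^ (cH * (L + 1)) + 150 * L + 2 * W + 60) := by
        intro i hi
        have g1 := runs_pop (v := headView x) (B := B)
          (s := mm (List.replicate (i + 1) true) (Nat.bits (st (x.drop (i + 1)))) [] [] []) 0
          (mm_len (by simp; omega) (by rw [bits_length]; have := hst (i + 1); omega) (by simp)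
            (by simp) (by simp))
        rw [mm_upd0] at g1
        have e0 : (mm (List.replicate (i + 1) true) (Nat.bits (st (x.drop (i + 1)))) [] [] [] 0).tail
          = List.replicate i true := rfl
        rw [e0] at g1
        have hv : headView x (List.replicate i true) = some x[i] := by
          rw [headView_rep, List.getElem?_eq_getElem hi]
        have hnm : Nat.size (nmo (some x[i])) ≤ W := size_nmo_le _
        have g2 := runs_wr (v := headView x) (B := B) (a := List.replicate i true)
          (x := Nat.bits (st (x.drop (i + 1)))) (r := []) (f := []) W (by simp; omega)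
          (by rw [bits_length]; have := hst (i + 1); omega) (by simp) (by simp)
          (by rw [hv, bits_length]; omega)
        have e9 : (Nat.bits (nmo (some x[i]))).drop W = [] :=
          List.drop_eq_nil_of_le (by rw [bits_length]; exact hnm)
        rw [hv, e9] at g2
        have hcons : x.drop i = x[i] :: x.drop (i + 1) := List.drop_eq_getElem_cons hi
        have hval : (Nat.card Δ + 1) * st (x.drop (i + 1)) + nmo (some x[i]) = st (x.drop i) := by
          rw [hcons, st_cons]
          rfl
        have g3 := hH (fun _ => headView x (List.replicate i true)) L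
          ![st (x.drop (i + 1)), nmo (some x[i])] (fun j => by
            fin_cases j
            · exact hst (i + 1)
            · exact hnm.trans hWL)
        have e1 : (Nat.card Δ + 1) * (![st (x.drop (i + 1)), nmo (some x[i])] : Fin 2 → ℕ) 0 +
            (![st (x.drop (i + 1)), nmo (some x[i])] : Fin 2 → ℕ) 1 = st (x.drop i) := hval
        rw [e1] at g3
        have g4 := runs_step (v := headView x) (B := B) (p := pH) (k := 2) le_rfl
          (a := List.replicate i true) (x := st (x.drop (i + 1))) (d := nmo (some x[i]))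
          (r := st (x.drop i)) _ (fun j => by fin_cases j <;> rfl) (by simp; omega)
          (by have := hst (i + 1); have := hst i; omega) (g3.1.monoB (by omega))
        refine (g1.seq (g2.seq g4)).monoT ?_
        have := hst (i + 1)
        have := hst i
        omega
      have r2 := Runs.loopN (v := headView x) (B := B) (i := 0) (p := letP pH)
        (fun j => mm (List.replicate (n - j) true) (Nat.bits (st (x.drop (n - j)))) [] [] []) n
        (2 ^ (cH * (L + 1)) + 150 * L + 2 * W + 60) (by simp [mm]) (fun j hj => by
          simp only [mm, ne_eq, List.replicate_eq_nil_iff]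
          omega) (fun j hj => by
          have h := hbody (n - (j + 1)) (by omega)
          have e1 : n - (j + 1) + 1 = n - j := by omega
          rw [e1] at h
          exact h)
      simp only [Nat.sub_zero, Nat.sub_self, List.replicate_zero, List.drop_zero] at r2
      have e1 : x.drop n = [] := List.drop_eq_nil_of_le (by omega)
      rw [e1, st_nil, Nat.zero_bits] at r2
      -- the predicate
      have g5 := hF (fun _ => headView x []) L ![st x] (fun j => by
        fin_cases j
        have := hst 0
        rwa [List.drop_zero] at this)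
      have e2 : f ((![st x] : Fin 1 → ℕ) 0) = f (st x) := rfl
      simp only [e2] at g5
      have r3 := runs_step (v := headView x) (B := B) (p := pF) (k := 1) (by omega)
        (a := []) (x := st x) (d := 0) (r := f (st x)) _ (fun j => by fin_cases j; rfl) (by simp)
        (by
          have := hst 0
          rw [List.drop_zero] at this
          have := g5.2
          simp only [Nat.size_zero]
          omega) (g5.1.monoB (by omega))
      rw [Nat.zero_bits] at r3
      rw [hmm0]
      refine (r1.seq (r2.seq r3)).monoT ?_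
      have h0 := hst 0
      rw [List.drop_zero] at h0
      have h1 := g5.2
      -- time
      set A := cH * (L + 1) with hA
      set A' := cF * (L + 1) with hA'
      have t1 : 2 ^ A + 150 * L + 2 * W + 60 + 1 ≤ 2 ^ (A + 150 * L + 2 * W + 61) := by
        have h3 := pow_sum_le A 0 (150 * L + 2 * W + 58)
        have h4 : (2 : ℕ) ^ 0 = 1 := pow_zero 2
        have h5 : 2 ^ (A + 0 + (150 * L + 2 * W + 58) + 2) ≤ 2 ^ (A + 150 * L + 2 * W + 61) :=
          Nat.pow_le_pow_right (by norm_num) (by omega)
        have h6 : 2 ^ (A + 150 * L + 2 * W + 60) + 2 ^ (A + 150 * L + 2 * W + 60) =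
          2 ^ (A + 150 * L + 2 * W + 61) := by rw [pow_succ]; ring
        have h7 : 2 ≤ 2 ^ (A + 150 * L + 2 * W + 60) :=
          (by norm_num : 2 = 2 ^ 1).le.trans (Nat.pow_le_pow_right (by norm_num) (by omega))
        have h8 : A + 0 + (150 * L + 2 * W + 58) + 2 = A + 150 * L + 2 * W + 60 := by ring
        rw [h8] at h3
        omega
      have t2 : n * (2 ^ A + 150 * L + 2 * W + 60 + 1) ≤ 2 ^ (n + (A + 150 * L + 2 * W + 61)) := by
        rw [pow_add]
        exact Nat.mul_le_mul (le_pow_self n) t1
      set A2 := n + (A + 150 * L + 2 * W + 61) with hA2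
      set A3 := 50 * (Nat.size (st x) + Nat.size 0 + Nat.size (f (st x))) + 50 + 2 * n + 20 with hA3
      have t3 := pow_sum_le A2 A' A3
      have t4 : 2 ^ (A2 + A' + A3 + 2) + 1 ≤ 2 ^ (c * (n + 1)) := by
        have h5 : A2 + A' + A3 + 2 + 1 ≤ c * (n + 1) := by
          rw [e5]
          have h00 : Nat.size 0 = 0 := Nat.size_zero
          omega
        have h6 : 2 ^ (A2 + A' + A3 + 2) + 1 ≤ 2 ^ (A2 + A' + A3 + 2 + 1) := by
          have h7 : 2 ^ (A2 + A' + A3 + 2 + 1) = 2 ^ (A2 + A' + A3 + 2) * 2 := pow_succ _ _
          have := Nat.one_le_two_pow (n := A2 + A' + A3 + 2)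
          omega
        exact h6.trans (Nat.pow_le_pow_right (by norm_num) h5)
      have t5 : 2 * x.length + 5 + (n * (2 ^ A + 150 * L + 2 * W + 60 + 1) + 1 +
          (2 ^ A' + 50 * (Nat.size (st x) + Nat.size 0 + Nat.size (f (st x))) + 50) + 1) + 1 ≤
          2 ^ A2 + 2 ^ A' + A3 := by omega
      omega
  refine ⟨Q, Bool, K, inferInstance, inferInstance, inferInstance, M, fun hκ => hMdet ⟨?_, ?_, ?_⟩,
    c, fun x => ?_⟩
  · exact ⟨push_det _ _, fun _ _ _ _ => rfl⟩
  · exact ⟨pop_det _, wrP_det _, stepP_det (hHdet hκ) _⟩
  · exact stepP_det (hFdet hκ) _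
  · obtain ⟨B, hBc, hr⟩ := key x
    obtain ⟨h1, h2, h3⟩ := hM (headView x) B _ hr.bd
    constructor
    · unfold Mach.Bounded
      split_ifs with ht
      · intro g
        have hp := Nat.one_le_two_pow (n := c * (x.length + 1))
        have := h1 g
        rwa [Nat.sub_add_cancel hp] at this
      · intro g t i
        exact (h2 g t i).trans (hBc (by simpa using ht))
    · rw [h3]
      show P (st x) ↔ _
      rw [hfP]
      constructor
      · intro h
        obtain ⟨t, e⟩ := hr.ex
        refine ⟨_, t, e, ?_⟩
        show Nat.bits (f (st x)) ≠ []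
        intro h0
        exact h (bits_eq_nil.mp h0)
      · rintro ⟨s', t, e, hne⟩ h0
        rw [hr.un _ _ e] at hne
        apply hne
        show Nat.bits (f (st x)) = []
        rw [h0]
        rfl

end LSC
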