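import Pool.Agent.H85P.NF

/-!
# Loops of nondeterministic programs
-/

set_option autoImplicit false

namespace LSC

open H85L LSP Function

variable {κ : Kind}

theorem post_reg {k m' m M L M' : ℕ} {G : Fin m → (Fin (k + m') → ℕ) → ℕ} (hG : ∀ j, Cmp κ (G j))
    {b : Fin (k + m') → ℕ} {R : ℕ → ℕ} (hK : k + m' ≤ M) (hkm : k + m ≤ M) (hM : 0 < M)
    (hM1 : M' ≤ M + m) (hM2 : 0 < M') (h : Reg M' b R) (hb : ∀ i, Nat.size (b i) ≤ L)
    (hL : ∀ j, Nat.size (G j b) ≤ L) :
    ∃ R', NRuns L (post k (k + m') m M G hG) R R'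
      (m * 2 + 1 + (m * 2 + 1 + ((M - k) * 2 + 1) + 1) + 1) ∧
      Reg M' (Fin.append (fun i => b (Fin.castAdd m' i)) fun j => G j b) R' ∧
      ∀ i, M + m ≤ i → R' i = R i := by
  have h1 : (fun i : Fin (k + m') => R i) = b := funext h.1
  have h2 := runs_post (κ := κ) (L := L) hG hK hkm hM (h.size hb hM2) (by
    intro j
    rw [h1]
    exact hL j)
  exact ⟨_, h2, reg_postR hM1 h, fun i hi => h2.ex.frame (post_uses hK hkm hM) i hi⟩

/-- the arguments of the body of a loop -/
def app3 {k m : ℕ} (a : Fin k → ℕ) (i : ℕ) (x : Fin m → ℕ) : Fin (k + (1 + m)) → ℕ :=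
  Fin.append a (Fin.append (fun _ : Fin 1 => i) x)

/-- loops -/
theorem NF.loop {k m : ℕ} {ρ : (Fin (k + (1 + m)) → ℕ) → (Fin m → ℕ) → Prop}
    {n : (Fin k → ℕ) → ℕ} {G : Fin m → (Fin k → ℕ) → ℕ} (hρ : NF κ (k + (1 + m)) m ρ)
    (hn : Cmp κ n) (hG : ∀ j, Cmp κ (G j))
    (hb : ∃ d, ∀ a (x : ℕ → Fin m → ℕ), x 0 = (fun j => G j a) → ∀ i ≤ n a,
      (∀ j < i, ρ (app3 a j (x j)) (x (j + 1))) → tsz (x i) ≤ d * (tsz a + 1)) :
    NF κ k m (fun a y => ∃ x : ℕ → Fin m → ℕ, x 0 = (fun j => G j a) ∧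
      (∀ i < n a, ρ (app3 a i (x i)) (x (i + 1))) ∧ x (n a) = y) := by
  obtain ⟨d, hd⟩ := hb
  obtain ⟨dn, hdn⟩ := hn.size
  obtain ⟨P, M0, c1, hP, hM0, hM00, h1⟩ := hρ
  set M := M0 + (k + (1 + m + m)) + 1 with hM
  set W := M + (1 + m) with hW
  -- the programs
  set G0 : Fin (1 + m) → (Fin (k + 0) → ℕ) → ℕ :=
    fun j a => Fin.append (fun _ : Fin 1 => 0) (fun j => G j a) j with hG0
  have hcG0 : ∀ j, Cmp κ (G0 j) := by
    intro j
    refine Fin.addCases (fun j => ?_) (fun j => ?_) j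
    · have : G0 (Fin.castAdd m j) = fun _ => 0 := by
        funext a
        rw [hG0]
        simp only [Fin.append_left]
      rw [this]
      exact cmp_zero κ _
    · have : G0 (Fin.natAdd 1 j) = G j := by
        funext a
        rw [hG0]
        simp only [Fin.append_right]
      rw [this]
      exact hG j
  set G1 : Fin (1 + m) → (Fin (k + (1 + m + m)) → ℕ) → ℕ := fun j b =>
    Fin.append (fun _ : Fin 1 => b (Fin.natAdd k (Fin.castAdd m (Fin.castAdd m 0))) + 1)
      (fun j => b (Fin.natAdd k (Fin.natAdd (1 + m) j))) j with hG1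
  have hcG1 : ∀ j, Cmp κ (G1 j) := by
    intro j
    refine Fin.addCases (fun j => ?_) (fun j => ?_) j
    · have : G1 (Fin.castAdd m j) =
          fun b => b (Fin.natAdd k (Fin.castAdd m (Fin.castAdd m 0))) + 1 := by
        funext a
        rw [hG1]
        simp only [Fin.append_left]
      rw [this]
      exact cmp_succ κ _
    · have : G1 (Fin.natAdd 1 j) = fun b => b (Fin.natAdd k (Fin.natAdd (1 + m) j)) := by
        funext a
        rw [hG1]
        simp only [Fin.append_right]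
      rw [this]
      exact cmp_proj κ _
  set G2 : Fin m → (Fin (k + (1 + m)) → ℕ) → ℕ := fun j b =>
    b (Fin.natAdd k (Fin.natAdd 1 j)) with hG2
  have hcG2 : ∀ j, Cmp κ (G2 j) := fun j => cmp_proj κ _
  set Q0 := post (κ := κ) k (k + 0) (1 + m) M G0 hcG0 with hQ0
  set Q1 := post (κ := κ) k (k + (1 + m + m)) (1 + m) M G1 hcG1 with hQ1
  set Q2 := post (κ := κ) k (k + (1 + m)) m (M + 2) G2 hcG2 with hQ2
  set body : NProg κ := .seq P (.seq Q1 (.asg 1 (fun a => a 0 - 1) (cmp_pred κ 0) (fun _ => W) W))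
    with hbody
  set τ1 := ((1 + m) * 2 + 1 + ((1 + m) * 2 + 1 + ((M - k) * 2 + 1) + 1) + 1) with hτ1
  set τ2 := (m * 2 + 1 + (m * 2 + 1 + ((M + 2 - k) * 2 + 1) + 1) + 1) with hτ2
  set C1 := c1 * (dn + d + 2) with hC1
  set c := C1 + dn + d + τ1 + τ1 + τ2 + 20 with hc
  -- valid chains
  set V : (Fin k → ℕ) → ℕ → (Fin m → ℕ) → Prop := fun a i y => ∃ x : ℕ → Fin m → ℕ,
    x 0 = (fun j => G j a) ∧ (∀ i' < i, ρ (app3 a i' (x i')) (x (i' + 1))) ∧ x i = y with hV
  have hV0 : ∀ a, V a 0 fun j => G j a := fun a => ⟨fun _ j => G j a, rfl, fun _ h => by omega, rfl⟩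
  have hVs : ∀ a i x y, V a i x → ρ (app3 a i x) y → V a (i + 1) y := by
    rintro a i x y ⟨xs, h0, hs, he⟩ hy
    refine ⟨fun j => if j ≤ i then xs j else y, by simp [h0], fun j hj => ?_, by simp⟩
    by_cases h : j < i
    · simp only [if_pos (show j ≤ i by omega), if_pos (show j + 1 ≤ i by omega)]
      exact hs j h
    · obtain rfl : j = i := by omega
      simp only [if_pos (le_refl j), if_neg (show ¬ j + 1 ≤ j by omega)]
      rw [he]
      exact hy
  have hVb : ∀ a i x, V a i x → i ≤ n a → ∀ j, Nat.size (x j) ≤ d * (tsz a + 1) := by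
    rintro a i x ⟨xs, h0, hs, he⟩ hi j
    have := hd a xs h0 i hi hs
    rw [he] at this
    exact (tsz_size x j).trans this
  have hVt : ∀ a i x, V a i x → i ≤ n a → tsz x ≤ d * (tsz a + 1) := by
    rintro a i x ⟨xs, h0, hs, he⟩ hi
    have := hd a xs h0 i hi hs
    rw [he] at this
    exact this
  -- sizes
  have hcle : ∀ (a : Fin k → ℕ) (e : ℕ), e ≤ c → e * (tsz a + 1) ≤ c * (tsz a + 1) := fun a e he =>
    Nat.mul_le_mul_right _ he
  have hsa : ∀ (a : Fin k → ℕ) (i : Fin k), Nat.size (a i) ≤ c * (tsz a + 1) := fun a i =>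
    (tsz_size a i).trans ((show tsz a ≤ 1 * (tsz a + 1) by omega).trans (hcle a 1 (by omega)))
  have hsn : ∀ (a : Fin k → ℕ) i, i ≤ n a → Nat.size i ≤ c * (tsz a + 1) := fun a i hi =>
    (size_mono hi).trans ((hdn a).trans (hcle a dn (by omega)))
  -- the invariant
  set St : (Fin k → ℕ) → ℕ → (Fin m → ℕ) → (ℕ → ℕ) → Prop := fun a i x R =>
    Reg W (app3 a i x) R ∧ R W = n a - i with hSt
  have happ : ∀ (a : Fin k → ℕ) (i : ℕ) (x : Fin m → ℕ) (L : ℕ), (∀ j, Nat.size (a j) ≤ L) →
      Nat.size i ≤ L → (∀ j, Nat.size (x j) ≤ L) → ∀ j, Nat.size (app3 a i x j) ≤ L := by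
    intro a i x L ha hi hx j
    unfold app3
    refine Fin.addCases (fun j => ?_) (fun j => ?_) j
    · rw [Fin.append_left]; exact ha j
    · rw [Fin.append_right]
      refine Fin.addCases (fun j => ?_) (fun j => ?_) j
      · rw [Fin.append_left]; exact hi
      · rw [Fin.append_right]; exact hx j
  have hapt : ∀ (a : Fin k → ℕ) (i : ℕ) (x : Fin m → ℕ), tsz (app3 a i x) = tsz a +
      (Nat.size i + tsz x) := by
    intro a i x
    unfold app3
    rw [tsz_append, tsz_append]
    congr 2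
  -- the second half of the body
  have hB2 : ∀ a i x y R, i < n a → V a i x → ρ (app3 a i x) y →
      Reg W (Fin.append (app3 a i x) y) R → R W = n a - i →
      ∃ R', NRuns (c * (tsz a + 1)) (.seq Q1 (.asg 1 (fun a => a 0 - 1) (cmp_pred κ 0)
        (fun _ => W) W)) R R' (τ1 + 1 + 1) ∧ St a (i + 1) y R' := by
    intro a i x y R hi hVx hy hR hRW
    have hR2 : Reg W (Fin.append a (Fin.append (Fin.append (fun _ : Fin 1 => i) x) y) :
        Fin (k + (1 + m + m)) → ℕ) R := by
      refine ⟨fun j => ?_, fun j h1 h2 => hR.2 j (by omega) h2⟩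
      have h := hR.1 (Fin.cast (by omega) j)
      unfold app3 at h
      rw [Fin.append_assoc] at h
      simpa using h
    have hG1v : (fun j => G1 j (Fin.append a (Fin.append (Fin.append (fun _ : Fin 1 => i) x) y))) =
        Fin.append (fun _ : Fin 1 => i + 1) y := by
      funext j
      rw [hG1]
      simp only [Fin.append_left, Fin.append_right]
    have hVy := hVs a i x y hVx hy
    have hyL := hVb a (i + 1) y hVy hi
    obtain ⟨R1, r1, g1, f1⟩ := post_reg (κ := κ) (L := c * (tsz a + 1)) (M' := W) hcG1 (by omega)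
      (by omega) (by omega) le_rfl (by omega) hR2 (fun j => by
        refine Fin.addCases (fun j => ?_) (fun j => ?_) j
        · rw [Fin.append_left]; exact hsa a j
        · rw [Fin.append_right]
          refine Fin.addCases (fun j => ?_) (fun j => ?_) j
          · rw [Fin.append_left]
            refine Fin.addCases (fun j => ?_) (fun j => ?_) j
            · rw [Fin.append_left]; exact hsn a i hi.le
            · rw [Fin.append_right]
              exact (hVb a i x hVx hi.le j).trans (hcle a d (by omega))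
          · rw [Fin.append_right]; exact (hyL j).trans (hcle a d (by omega)))
      (fun j => by
        have : G1 j (Fin.append a (Fin.append (Fin.append (fun _ : Fin 1 => i) x) y)) =
          Fin.append (fun _ : Fin 1 => i + 1) y j := congrFun hG1v j
        rw [this]
        refine Fin.addCases (fun j => ?_) (fun j => ?_) j
        · rw [Fin.append_left]; exact hsn a (i + 1) hi
        · rw [Fin.append_right]; exact (hyL j).trans (hcle a d (by omega)))
    have hRW1 : R1 W = n a - i := by rw [f1 W le_rfl, hRW]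
    have h2 := NRuns.asg (κ := κ) (L := c * (tsz a + 1)) (cmp_pred κ (0 : Fin 1)) (fun _ => W) W R1
      (by
        show Nat.size (R1 W - 1) ≤ _
        rw [hRW1]
        exact hsn a _ (by omega))
    refine ⟨_, r1.seq h2, ?_, ?_⟩
    · rw [hG1v] at g1
      simp only [Fin.append_left] at g1
      refine ⟨fun j => ?_, fun j h1 h2 => ?_⟩
      · have := j.2
        show update R1 W _ (j : ℕ) = _
        rw [update_of_ne (by omega)]
        exact g1.1 j
      · show update R1 W _ j = _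
        rw [update_of_ne (by omega)]
        exact g1.2 j h1 h2
    · show update R1 W (R1 W - 1) W = _
      rw [update_self, hRW1]
      omega
  have hPW : P.Uses W := uses_mono (by omega) hP
  have hQ1W : (Q1.seq (.asg 1 (fun a => a 0 - 1) (cmp_pred κ 0) (fun _ => W) W)).Uses (W + 1) :=
    ⟨uses_mono (by omega) (post_uses (by omega) (by omega) (by omega)),
      ⟨fun _ => show W < W + 1 by omega, by omega⟩⟩
  -- the body
  have hc1 : ∀ a i x, V a i x → i ≤ n a → c1 * (tsz (app3 a i x) + 1) ≤ C1 * (tsz a + 1) := by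
    intro a i x hVx hi
    rw [hapt, hC1, mul_assoc]
    refine Nat.mul_le_mul_left _ ?_
    have e1 := hVt a i x hVx hi
    have e2 : Nat.size i ≤ dn * (tsz a + 1) := (size_mono hi).trans (hdn a)
    nlinarith
  have hb1 : ∀ a i x R, i < n a → V a i x → St a i x R →
      NBd (c * (tsz a + 1)) body R (2 ^ (C1 * (tsz a + 1)) + (τ1 + 1 + 1) + 1) := by
    intro a i x R hi hVx hS
    have g1 := h1 W (by omega) _ R hS.1
    have e1 := hc1 a i x hVx hi.le
    refine NBd.seq (.mono (Nat.pow_le_pow_right (by norm_num) e1)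
      (g1.1.mono_L (e1.trans (hcle a C1 (by omega))))) fun R1 hr1 => ?_
    obtain ⟨y, hy, hR1⟩ := g1.2.1 R1 hr1
    obtain ⟨R', hr, -⟩ := hB2 a i x y R1 hi hVx hy hR1 (by
      rw [hr1.frame hPW W le_rfl]
      exact hS.2)
    exact hr.bd
  have hb2 : ∀ a i x R R', i < n a → V a i x → St a i x R → NRes body R R' →
      ∃ y, ρ (app3 a i x) y ∧ St a (i + 1) y R' := by
    intro a i x R R' hi hVx hS hr
    rw [hbody] at hr
    cases hr with
    | seq r1 r2 =>
      obtain ⟨y, hy, hR1⟩ := (h1 W (by omega) _ R hS.1).2.1 _ r1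
      obtain ⟨R2, hr, hS2⟩ := hB2 a i x y _ hi hVx hy hR1 (by
        rw [r1.frame hPW W le_rfl]
        exact hS.2)
      refine ⟨y, hy, ?_⟩
      rw [hr.un _ r2]
      exact hS2
  have hb3 : ∀ a i x y R, i < n a → V a i x → St a i x R → ρ (app3 a i x) y →
      ∃ R', NRes body R R' ∧ St a (i + 1) y R' := by
    intro a i x y R hi hVx hS hy
    obtain ⟨R1, r1, hR1⟩ := (h1 W (by omega) _ R hS.1).2.2 y hy
    obtain ⟨R2, hr, hS2⟩ := hB2 a i x y _ hi hVx hy hR1 (by
      rw [r1.frame hPW W le_rfl]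
      exact hS.2)
    exact ⟨R2, .seq r1 hr.ex, hS2⟩
  -- the loop
  have hW0 : ∀ a x R, St a (n a) x R → R W = 0 := by
    intro a x R hS
    rw [hS.2]
    omega
  have hWne : ∀ a i x R, i < n a → St a i x R → R W ≠ 0 := by
    intro a i x R hi hS
    rw [hS.2]
    omega
  have hl1 : ∀ r a i x R, i + r = n a → V a i x → St a i x R →
      NBd (c * (tsz a + 1)) (.loop W body) R
        (r * (2 ^ (C1 * (tsz a + 1)) + (τ1 + 1 + 1) + 1 + 1) + 1) := by
    intro r
    induction r with
    | zero =>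
      intro a i x R hir hVx hS
      obtain rfl : i = n a := by omega
      exact .mono (by omega) (.loop0 (hW0 a x R hS))
    | succ r ih =>
      intro a i x R hir hVx hS
      refine .mono ?_ (NBd.loop1 (hWne a i x R (by omega) hS) (hb1 a i x R (by omega) hVx hS)
        fun R1 hr1 => ?_) (T := 2 ^ (C1 * (tsz a + 1)) + (τ1 + 1 + 1) + 1 +
          (r * (2 ^ (C1 * (tsz a + 1)) + (τ1 + 1 + 1) + 1 + 1) + 1) + 1)
      · rw [Nat.succ_mul]
        omega
      · obtain ⟨y, hy, hS1⟩ := hb2 a i x R R1 (by omega) hVx hS hr1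
        exact ih a (i + 1) y R1 (by omega) (hVs a i x y hVx hy) hS1
  have hl2 : ∀ r a i x R R', i + r = n a → V a i x → St a i x R → NRes (.loop W body) R R' →
      ∃ y, V a (n a) y ∧ St a (n a) y R' := by
    intro r
    induction r with
    | zero =>
      intro a i x R R' hir hVx hS hr
      obtain rfl : i = n a := by omega
      cases hr with
      | loop0 _ => exact ⟨x, hVx, hS⟩
      | loop1 h _ _ => exact absurd (hW0 a x R hS) h
    | succ r ih =>
      intro a i x R R' hir hVx hS hr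
      cases hr with
      | loop0 h => exact absurd h (hWne a i x R (by omega) hS)
      | loop1 _ r1 r2 =>
        obtain ⟨y, hy, hS1⟩ := hb2 a i x R _ (by omega) hVx hS r1
        exact ih a (i + 1) y _ R' (by omega) (hVs a i x y hVx hy) hS1 r2
  have hl3 : ∀ r a i (xs : ℕ → Fin m → ℕ) R, i + r = n a → xs 0 = (fun j => G j a) →
      (∀ i < n a, ρ (app3 a i (xs i)) (xs (i + 1))) → St a i (xs i) R →
      ∃ R', NRes (.loop W body) R R' ∧ St a (n a) (xs (n a)) R' := by
    intro r
    induction r with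
    | zero =>
      intro a i xs R hir h0 hs hS
      obtain rfl : i = n a := by omega
      exact ⟨R, .loop0 (hW0 a _ R hS), hS⟩
    | succ r ih =>
      intro a i xs R hir h0 hs hS
      obtain ⟨R1, r1, hS1⟩ := hb3 a i (xs i) (xs (i + 1)) R (by omega)
        ⟨xs, h0, fun j hj => hs j (by omega), rfl⟩ hS (hs i (by omega))
      obtain ⟨R2, r2, hS2⟩ := ih a (i + 1) xs R1 (by omega) h0 hs hS1
      exact ⟨R2, .loop1 (hWne a i _ R (by omega) hS) r1 r2, hS2⟩
  -- initialization
  have hin : ∀ (a : Fin k → ℕ) (R : ℕ → ℕ), Reg (W + 1) a R →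
      ∃ R', NRuns (c * (tsz a + 1)) (.seq Q0 (.asg k n hn (fun i => i) W)) R R' (τ1 + 1 + 1) ∧
        St a 0 (fun j => G j a) R' := by
    intro a R hR
    have hG0v : (fun j => G0 j a) = Fin.append (fun _ : Fin 1 => 0) (fun j => G j a) := rfl
    obtain ⟨R1, r1, g1, f1⟩ := post_reg (κ := κ) (L := c * (tsz a + 1)) (M' := W) (m' := 0) hcG0
      (by omega) (by omega) (by omega) le_rfl (by omega) (hR.mono (by omega)) (fun j => hsa a j)
      (fun j => by
        refine Fin.addCases (fun j => ?_) (fun j => ?_) j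
        · rw [hG0]
          simp only [Fin.append_left]
          simp
        · rw [hG0]
          simp only [Fin.append_right]
          exact (hVb a 0 _ (hV0 a) (by omega) j).trans (hcle a d (by omega)))
    have g1' : Reg W (app3 a 0 fun j => G j a) R1 := g1
    have harg : (fun i : Fin k => R1 i) = a := by
      funext i
      have := g1'.1 (Fin.castAdd (1 + m) i)
      unfold app3 at this
      rw [Fin.append_left] at this
      exact this
    have h2 := NRuns.asg (κ := κ) (L := c * (tsz a + 1)) hn (fun i : Fin k => (i : ℕ)) W R1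
      (by rw [harg]; exact hsn a _ le_rfl)
    rw [harg] at h2
    refine ⟨_, r1.seq h2, ?_, ?_⟩
    · refine ⟨fun j => ?_, fun j h1 h2 => ?_⟩
      · have := j.2
        rw [update_of_ne (by omega)]
        exact g1'.1 j
      · rw [update_of_ne (by omega)]
        exact g1'.2 j h1 h2
    · rw [update_self, Nat.sub_zero]
  -- the end
  have hfi : ∀ (a : Fin k → ℕ) (y : Fin m → ℕ) (R : ℕ → ℕ), V a (n a) y → St a (n a) y R →
      ∃ R', NRuns (c * (tsz a + 1)) Q2 R R' τ2 ∧ Reg (W + 1) (Fin.append a y) R' := by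
    intro a y R hVy hS
    have hyL := hVb a (n a) y hVy le_rfl
    have hReg : Reg (W + 1) (app3 a (n a) y) R := by
      refine ⟨hS.1.1, fun i h1 h2 => ?_⟩
      by_cases hi : i < W
      · exact hS.1.2 i h1 hi
      · obtain rfl : i = W := by omega
        exact hW0 a y R hS
    obtain ⟨R1, r1, g1, f1⟩ := post_reg (κ := κ) (L := c * (tsz a + 1)) (M' := W + 1) hcG2
      (M := M + 2) (by omega) (by omega) (by omega) (by omega) (by omega) hReg
      (happ a (n a) y _ (hsa a) (hsn a _ le_rfl) fun j => (hyL j).trans (hcle a d (by omega)))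
      (fun j => by
        rw [hG2]
        unfold app3
        simp only [Fin.append_right]
        exact (hyL j).trans (hcle a d (by omega)))
    refine ⟨R1, r1, ?_⟩
    rw [hG2] at g1
    unfold app3 at g1
    simp only [Fin.append_left, Fin.append_right] at g1
    exact g1
  -- everything
  refine NF.mk (.seq (.seq Q0 (.asg k n hn (fun i => i) W)) (.seq (.loop W body) Q2)) (W + 1)
    (c + dn) ⟨⟨uses_mono (by omega) (post_uses (by omega) (by omega) (by omega)),
      ⟨fun i => by have := i.2; show (i : ℕ) < W + 1; omega, by omega⟩⟩,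
      ⟨by omega, uses_mono (by omega) hPW, hQ1W⟩,
      uses_mono (by omega) (post_uses (by omega) (by omega) (by omega))⟩ (by omega) (by omega)
    (fun a R hR => ?_) (fun a R R' hR hr => ?_) (fun a R y hR hy => ?_)
  · obtain ⟨R0, r0, hS0⟩ := hin a R hR
    have g : NBd (c * (tsz a + 1)) (.seq (.seq Q0 (.asg k n hn (fun i => i) W))
        (.seq (.loop W body) Q2)) R ((τ1 + 1 + 1) +
        ((n a * (2 ^ (C1 * (tsz a + 1)) + (τ1 + 1 + 1) + 1 + 1) + 1) + τ2 + 1) + 1) := by
      refine NBd.seq r0.bd fun R1 hr1 => ?_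
      rw [r0.un _ hr1]
      refine NBd.seq (hl1 (n a) a 0 _ R0 (by omega) (hV0 a) hS0) fun R2 hr2 => ?_
      obtain ⟨y, hVy, hSy⟩ := hl2 (n a) a 0 _ R0 R2 (by omega) (hV0 a) hS0 hr2
      obtain ⟨R3, r3, -⟩ := hfi a y R2 hVy hSy
      exact r3.bd
    refine (g.mono_L (Nat.mul_le_mul_right _ (by omega))).mono ?_
    have e1 : n a < 2 ^ (dn * (tsz a + 1)) :=
      (Nat.lt_size_self _).trans_le (Nat.pow_le_pow_right (by norm_num) (hdn a))
    have e2 := pow_add_le (C1 * (tsz a + 1)) (τ1 + 4)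
    have e3 := le_pow_self (τ1 + 4)
    have e4 : n a * (2 ^ (C1 * (tsz a + 1)) + (τ1 + 1 + 1) + 1 + 1) ≤
        2 ^ (dn * (tsz a + 1)) * 2 ^ (C1 * (tsz a + 1) + (τ1 + 4) + 1) :=
      Nat.mul_le_mul e1.le (by omega)
    rw [← pow_add] at e4
    have e5 := pow_add_le (dn * (tsz a + 1) + (C1 * (tsz a + 1) + (τ1 + 4) + 1)) (τ1 + τ2 + 6)
    have e6 := le_pow_self (τ1 + τ2 + 6)
    have e7 : 2 ^ (dn * (tsz a + 1) + (C1 * (tsz a + 1) + (τ1 + 4) + 1) + (τ1 + τ2 + 6) + 1) ≤
        2 ^ ((c + dn) * (tsz a + 1)) := by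
      refine Nat.pow_le_pow_right (by norm_num) ?_
      have : (c + dn) * (tsz a + 1) = dn * (tsz a + 1) + C1 * (tsz a + 1) +
        (τ1 + τ1 + τ2 + 20) * (tsz a + 1) + (dn + d) * (tsz a + 1) := by rw [hc]; ring
      nlinarith [Nat.zero_le (tsz a), Nat.zero_le ((dn + d) * (tsz a + 1))]
    omega
  · cases hr with
    | seq r0 r12 =>
      cases r12 with
      | seq r1 r2 =>
        obtain ⟨R0, g0, hS0⟩ := hin a R hR
        rw [g0.un _ r0] at r1
        obtain ⟨y, hVy, hSy⟩ := hl2 (n a) a 0 _ R0 _ (by omega) (hV0 a) hS0 r1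
        obtain ⟨R3, r3, hR3⟩ := hfi a y _ hVy hSy
        refine ⟨y, hVy, ?_⟩
        rw [r3.un _ r2]
        exact hR3
  · obtain ⟨xs, h0, hs, he⟩ := hy
    obtain ⟨R0, g0, hS0⟩ := hin a R hR
    rw [← h0] at hS0
    obtain ⟨R1, r1, hS1⟩ := hl3 (n a) a 0 xs R0 (by omega) h0 hs hS0
    obtain ⟨R3, r3, hR3⟩ := hfi a (xs (n a)) R1 ⟨xs, h0, hs, rfl⟩ hS1
    rw [he] at hR3
    exact ⟨R3, .seq g0.ex (.seq r1 r3.ex), hR3⟩

end LSC
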