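import Pool.Agent.H85P.Post

/-!
# Relations computed by nondeterministic programs

`NF κ k m ρ`: a program with number variables, started with `k` numbers `a` in its first registers, may end
exactly with the tuples `y` with `ρ a y` in the next `m` registers.
-/

set_option autoImplicit false

namespace LSC

open H85L LSP Function

variable {κ : Kind}

theorem uses_mono {P : NProg κ} {M M' : ℕ} (hM : M ≤ M') (h : P.Uses M) : P.Uses M' := by
  induction P with
  | asg k F hF arg dst => exact ⟨fun j => (h.1 j).trans_le hM, h.2.trans_le hM⟩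
  | gss dst => exact lt_of_lt_of_le h hM
  | seq p q h1 h2 => exact ⟨h1 h.1, h2 h.2⟩
  | ifz i p q h1 h2 => exact ⟨lt_of_lt_of_le h.1 hM, h1 h.2.1, h2 h.2.2⟩
  | loop i p h1 => exact ⟨lt_of_lt_of_le h.1 hM, h1 h.2⟩
  | fail => trivial

/-- relations computed by nondeterministic programs -/
def NF (κ : Kind) (k m : ℕ) (ρ : (Fin k → ℕ) → (Fin m → ℕ) → Prop) : Prop :=
  ∃ (P : NProg κ) (M0 c : ℕ), P.Uses M0 ∧ k + m ≤ M0 ∧ 0 < M0 ∧ ∀ M ≥ M0,
    ∀ (a : Fin k → ℕ) (R : ℕ → ℕ), Reg M a R →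
      NBd (c * (tsz a + 1)) P R (2 ^ (c * (tsz a + 1))) ∧
      (∀ R', NRes P R R' → ∃ y, ρ a y ∧ Reg M (Fin.append a y) R') ∧
      ∀ y, ρ a y → ∃ R', NRes P R R' ∧ Reg M (Fin.append a y) R'

theorem NF.mk {k m : ℕ} {ρ : (Fin k → ℕ) → (Fin m → ℕ) → Prop} (P : NProg κ) (M c : ℕ)
    (hP : P.Uses M) (hM : k + m ≤ M) (hM0 : 0 < M)
    (hb : ∀ (a : Fin k → ℕ) (R : ℕ → ℕ), Reg M a R →
      NBd (c * (tsz a + 1)) P R (2 ^ (c * (tsz a + 1))))
    (hs : ∀ (a : Fin k → ℕ) (R R' : ℕ → ℕ), Reg M a R → NRes P R R' →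
      ∃ y, ρ a y ∧ Reg M (Fin.append a y) R')
    (hc : ∀ (a : Fin k → ℕ) (R : ℕ → ℕ) (y : Fin m → ℕ), Reg M a R → ρ a y →
      ∃ R', NRes P R R' ∧ Reg M (Fin.append a y) R') : NF κ k m ρ := by
  refine ⟨P, M, c, hP, hM, hM0, fun M' hM' a R hR => ⟨hb a R (hR.mono hM'), fun R' hr => ?_,
    fun y hy => ?_⟩⟩
  · obtain ⟨y, h1, h2⟩ := hs a R R' (hR.mono hM') hr
    exact ⟨y, h1, hR.ext_frame hP hr h2 (by omega)⟩
  · obtain ⟨R', h1, h2⟩ := hc a R y (hR.mono hM') hy
    exact ⟨R', h1, hR.ext_frame hP h1 h2 (by omega)⟩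

theorem NF.congr {k m : ℕ} {ρ σ : (Fin k → ℕ) → (Fin m → ℕ) → Prop} (h : NF κ k m ρ)
    (hρ : ∀ a y, σ a y ↔ ρ a y) : NF κ k m σ := by
  have : σ = ρ := by
    funext a y
    exact propext (hρ a y)
  rw [this]
  exact h

theorem tsz_size {k : ℕ} (a : Fin k → ℕ) (i : Fin k) : Nat.size (a i) ≤ tsz a := comp_le_tsz a i

/-- the results have linear length -/
theorem NF.size {k m : ℕ} {ρ : (Fin k → ℕ) → (Fin m → ℕ) → Prop} (h : NF κ k m ρ) :
    ∃ d, ∀ a y, ρ a y → ∀ j, Nat.size (y j) ≤ d * (tsz a + 1) := by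
  obtain ⟨P, M0, c, hP, hM, hM0, h⟩ := h
  refine ⟨c + 1, fun a y hy j => ?_⟩
  set R : ℕ → ℕ := fun i => if h : i < k then a ⟨i, h⟩ else 0 with hR
  have hReg : Reg M0 a R := by
    refine ⟨fun i => ?_, fun i h1 _ => ?_⟩
    · rw [hR]
      simp
    · rw [hR]
      simp only
      rw [dif_neg (by omega)]
  obtain ⟨h1, -, h2⟩ := h M0 le_rfl a R hReg
  obtain ⟨R', h3, h4⟩ := h2 y hy
  have h5 := (h1.mono_L (L' := (c + 1) * (tsz a + 1)) (Nat.mul_le_mul_right _ (by omega))).sizes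
    (M := M0) R' h3 (fun i hi => hReg.size (fun i => (tsz_size a i).trans (by nlinarith)) hi)
    (k + j) (by have := j.2; omega)
  have h6 := h4.1 (Fin.natAdd k j)
  rw [Fin.append_right] at h6
  rw [← h6]
  exact h5

theorem pow_add_le (x y : ℕ) : 2 ^ x + 2 ^ y ≤ 2 ^ (x + y + 1) := by
  have h1 : 2 ^ x ≤ 2 ^ (x + y) := Nat.pow_le_pow_right (by norm_num) (by omega)
  have h2 : 2 ^ y ≤ 2 ^ (x + y) := Nat.pow_le_pow_right (by norm_num) (by omega)
  rw [pow_succ]
  omega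

theorem le_pow_self (n : ℕ) : n ≤ 2 ^ n := Nat.lt_two_pow_self.le

theorem pow_sum_le (x y n : ℕ) : 2 ^ x + 2 ^ y + n ≤ 2 ^ (x + y + n + 2) := by
  have h1 := pow_add_le x y
  have h2 := le_pow_self n
  have h3 := pow_add_le (x + y + 1) n
  refine le_trans ?_ (h3.trans (Nat.pow_le_pow_right (by norm_num) (by omega)))
  omega

/-- functions -/
theorem NF.fn {k m : ℕ} {G : Fin m → (Fin k → ℕ) → ℕ} (hG : ∀ j, Cmp κ (G j)) :
    NF κ k m (fun a y => y = fun j => G j a) := by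
  choose d hd using fun j => (hG j).size
  set D := ∑ j, d j with hD
  have hDj : ∀ j, d j ≤ D := fun j =>
    Finset.single_le_sum (f := d) (fun _ _ => Nat.zero_le _) (Finset.mem_univ j)
  set M := k + m + 1 with hM
  set τ := (m * 2 + 1 + (m * 2 + 1 + ((M - k) * 2 + 1) + 1) + 1) with hτ
  have key : ∀ (a : Fin k → ℕ) (R : ℕ → ℕ), Reg (M + m) a R →
      NRuns ((D + 1 + τ) * (tsz a + 1)) (post k k m M G hG) R (postR k k m M G R) τ ∧
      Reg (M + m) (Fin.append a fun j => G j a) (postR k k m M G R) := by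
    intro a R hR
    have h1 : (fun i : Fin k => R i) = a := funext hR.1
    refine ⟨runs_post (κ := κ) hG (by omega) (by omega) (by omega) ?_ ?_,
      reg_postR (k := k) (m' := 0) (b := a) le_rfl hR⟩
    · exact hR.size (fun i => (tsz_size a i).trans (by nlinarith)) (by omega)
    · intro j
      rw [h1]
      refine (hd j a).trans (Nat.mul_le_mul_right _ ?_)
      have := hDj j
      omega
  refine NF.mk (post k k m M G hG) (M + m) (D + 1 + τ) (post_uses (by omega) (by omega) (by omega))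
    (by omega) (by omega) (fun a R hR => ?_) (fun a R R' hR hr => ?_) (fun a R y hR hy => ?_)
  · refine (key a R hR).1.bd.mono ?_
    refine (le_pow_self τ).trans (Nat.pow_le_pow_right (by norm_num) ?_)
    nlinarith
  · refine ⟨_, rfl, ?_⟩
    rw [(key a R hR).1.un R' hr]
    exact (key a R hR).2
  · subst hy
    exact ⟨_, (key a R hR).1.ex, (key a R hR).2⟩

/-- projections of the registers: the assignment of the last `m` registers -/
theorem runs_last {k m' m M L : ℕ} (hK : k + m' + m ≤ M) (hM : 0 < M) {M' : ℕ} (hM' : M' ≤ M + m)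
    (hM'' : M ≤ M') {a : Fin k → ℕ} {x : Fin m' → ℕ} {y : Fin m → ℕ} {R : ℕ → ℕ}
    (hR : Reg M' (Fin.append (Fin.append a x) y) R) (ha : ∀ i, Nat.size (a i) ≤ L)
    (hx : ∀ i, Nat.size (x i) ≤ L) (hy : ∀ i, Nat.size (y i) ≤ L) :
    ∃ R', NRuns L (post (κ := κ) k (k + (m' + m)) m M
        (fun j b => b (Fin.natAdd k (Fin.natAdd m' j))) (fun _ => cmp_proj κ _)) R R'
        (m * 2 + 1 + (m * 2 + 1 + ((M - k) * 2 + 1) + 1) + 1) ∧ Reg M' (Fin.append a y) R' := by
  have hR2 : Reg M' (Fin.append a (Fin.append x y)) R := by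
    refine ⟨fun i => ?_, fun i h1 h2 => hR.2 i (by omega) h2⟩
    have h := hR.1 (Fin.cast (by omega) i)
    rw [Fin.append_assoc] at h
    simpa using h
  refine ⟨_, runs_post (κ := κ) _ (by omega) (by omega) hM ?_ ?_, ?_⟩
  · refine hR.size (fun i => ?_) (by omega)
    refine Fin.addCases (fun i => ?_) (fun i => ?_) i
    · rw [Fin.append_left]
      refine Fin.addCases (fun i => ?_) (fun i => ?_) i
      · rw [Fin.append_left]; exact ha i
      · rw [Fin.append_right]; exact hx i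
    · rw [Fin.append_right]; exact hy i
  · intro j
    have := hR2.1 (Fin.natAdd k (Fin.natAdd m' j))
    rw [Fin.append_right, Fin.append_right] at this
    show Nat.size (R ((Fin.natAdd k (Fin.natAdd m' j) : Fin (k + (m' + m))) : ℕ)) ≤ L
    rw [this]
    exact hy j
  · have h := reg_postR (k := k) (m' := m' + m) (m := m) (M := M)
      (G := fun j b => b (Fin.natAdd k (Fin.natAdd m' j))) hM' hR2
    simp only [Fin.append_left, Fin.append_right] at h
    exact h

theorem tsz_append_le {k m d s : ℕ} {a : Fin k → ℕ} {y : Fin m → ℕ} (ha : tsz a ≤ s)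
    (hy : ∀ j, Nat.size (y j) ≤ d * (tsz a + 1)) : tsz (Fin.append a y) + 1 ≤ (m * d + 2) * (s + 1) := by
  rw [tsz_append]
  have h1 := tsz_le y hy
  have h2 : m * (d * (tsz a + 1)) ≤ m * d * (s + 1) := by
    rw [← mul_assoc]
    exact Nat.mul_le_mul_left _ (by omega)
  nlinarith

/-- composition -/
theorem NF.comp {k m1 m2 : ℕ} {ρ : (Fin k → ℕ) → (Fin m1 → ℕ) → Prop}
    {σ : (Fin (k + m1) → ℕ) → (Fin m2 → ℕ) → Prop} (hρ : NF κ k m1 ρ) (hσ : NF κ (k + m1) m2 σ) :
    NF κ k m2 (fun a z => ∃ y, ρ a y ∧ σ (Fin.append a y) z) := by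
  obtain ⟨d1, hd1⟩ := hρ.size
  obtain ⟨d2, hd2⟩ := hσ.size
  obtain ⟨P1, M1, c1, hP1, hM1, hM10, h1⟩ := hρ
  obtain ⟨P2, M2, c2, hP2, hM2, hM20, h2⟩ := hσ
  set M := M1 + M2 with hM
  set τ := (m2 * 2 + 1 + (m2 * 2 + 1 + ((M - k) * 2 + 1) + 1) + 1) with hτ
  set D := m1 * d1 + 2 with hD
  set c := c1 + c2 * D + d1 + d2 * D + 1 + τ + 4 with hc
  set P3 : NProg κ := post (κ := κ) k (k + (m1 + m2)) m2 M
        (fun j b => b (Fin.natAdd k (Fin.natAdd m1 j))) (fun _ => cmp_proj κ _) with hP3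
  -- the last phase
  have key : ∀ (a : Fin k → ℕ) (y : Fin m1 → ℕ) (z : Fin m2 → ℕ) (R : ℕ → ℕ), ρ a y →
      σ (Fin.append a y) z → Reg (M + m2) (Fin.append (Fin.append a y) z) R →
      ∃ R', NRuns (c * (tsz a + 1)) P3 R R' τ ∧ Reg (M + m2) (Fin.append a z) R' := by
    intro a y z R hy hz hR
    have hD1 := tsz_append_le (le_refl (tsz a)) (hd1 a y hy)
    refine runs_last (κ := κ) (by omega) (by omega) le_rfl (by omega) hR (fun i => ?_)
      (fun i => ?_) (fun i => ?_)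
    · exact (tsz_size a i).trans ((show tsz a ≤ 1 * (tsz a + 1) by omega).trans
        (Nat.mul_le_mul_right _ (by omega)))
    · exact (hd1 a y hy i).trans (Nat.mul_le_mul_right _ (by omega))
    · refine (hd2 _ z hz i).trans ?_
      calc d2 * (tsz (Fin.append a y) + 1) ≤ d2 * (D * (tsz a + 1)) := Nat.mul_le_mul_left _ hD1
        _ = d2 * D * (tsz a + 1) := by ring
        _ ≤ _ := Nat.mul_le_mul_right _ (by omega)
  have u1 : P1.Uses (M + m2) := uses_mono (by omega) hP1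
  have u2 : P2.Uses (M + m2) := uses_mono (by omega) hP2
  refine NF.mk (.seq P1 (.seq P2 P3)) (M + m2) c
    ⟨u1, u2, post_uses (by omega) (by omega) (by omega)⟩ (by omega) (by omega)
    (fun a R hR => ?_) (fun a R R' hR hr => ?_) (fun a R z hR hz => ?_)
  · have g1 := h1 (M + m2) (by omega) a R hR
    have b1 : NBd (c * (tsz a + 1)) P1 R (2 ^ (c1 * (tsz a + 1))) :=
      g1.1.mono_L (Nat.mul_le_mul_right _ (by omega))
    refine NBd.mono ?_ (NBd.seq b1 fun R1 hr1 => NBd.seq (T1 := 2 ^ (c2 * D * (tsz a + 1)))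
      (T2 := τ) ?_ fun R2 hr2 => ?_)
    · have h3 := pow_sum_le (c1 * (tsz a + 1)) (c2 * D * (tsz a + 1)) (τ + 2)
      have h4 : 2 ^ (c1 * (tsz a + 1) + c2 * D * (tsz a + 1) + (τ + 2) + 2) ≤
          2 ^ (c * (tsz a + 1)) := by
        refine Nat.pow_le_pow_right (by norm_num) ?_
        have : c * (tsz a + 1) = c1 * (tsz a + 1) + c2 * D * (tsz a + 1) + (τ + 4) * (tsz a + 1) +
          (d1 + d2 * D + 1) * (tsz a + 1) := by rw [hc]; ring
        nlinarith [Nat.zero_le ((d1 + d2 * D + 1) * (tsz a + 1)), Nat.zero_le (tsz a)]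
      omega
    · obtain ⟨y, hy, hR1⟩ := g1.2.1 R1 hr1
      have g2 := h2 (M + m2) (by omega) (Fin.append a y) R1 hR1
      have hD1 := tsz_append_le (le_refl (tsz a)) (hd1 a y hy)
      have e1 : c2 * (tsz (Fin.append a y) + 1) ≤ c2 * D * (tsz a + 1) := by
        rw [mul_assoc]
        exact Nat.mul_le_mul_left _ hD1
      refine NBd.mono (Nat.pow_le_pow_right (by norm_num) e1) (g2.1.mono_L ?_)
      exact e1.trans (Nat.mul_le_mul_right _ (by omega))
    · obtain ⟨y, hy, hR1⟩ := g1.2.1 R1 hr1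
      obtain ⟨z, hz, hR2⟩ := (h2 (M + m2) (by omega) (Fin.append a y) R1 hR1).2.1 R2 hr2
      obtain ⟨R', hr, -⟩ := key a y z R2 hy hz hR2
      exact hr.bd
  · cases hr with
    | seq r1 r23 =>
      cases r23 with
      | seq r2 r3 =>
        obtain ⟨y, hy, hR1⟩ := (h1 (M + m2) (by omega) a R hR).2.1 _ r1
        obtain ⟨z, hz, hR2⟩ := (h2 (M + m2) (by omega) (Fin.append a y) _ hR1).2.1 _ r2
        obtain ⟨R3, hr, hR3⟩ := key a y z _ hy hz hR2
        refine ⟨z, ⟨y, hy, hz⟩, ?_⟩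
        rw [hr.un _ r3]
        exact hR3
  · obtain ⟨y, hy, hz⟩ := hz
    obtain ⟨R1, r1, hR1⟩ := (h1 (M + m2) (by omega) a R hR).2.2 y hy
    obtain ⟨R2, r2, hR2⟩ := (h2 (M + m2) (by omega) (Fin.append a y) _ hR1).2.2 z hz
    obtain ⟨R3, hr, hR3⟩ := key a y z _ hy hz hR2
    exact ⟨R3, .seq r1 (.seq r2 hr.ex), hR3⟩

/-- the empty relation -/
theorem NF.none (k m : ℕ) : NF κ k m (fun _ _ => False) :=
  NF.mk .fail (k + m + 1) 0 trivial (by omega) (by omega) (fun a R _ => .mono (Nat.zero_le _) .fail)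
    (fun a R R' _ hr => by cases hr) (fun a R y _ hy => hy.elim)

/-- case distinction by a function -/
theorem NF.ite {k m : ℕ} {F : (Fin k → ℕ) → ℕ} {ρ σ : (Fin k → ℕ) → (Fin m → ℕ) → Prop}
    (hF : Cmp κ F) (hρ : NF κ k m ρ) (hσ : NF κ k m σ) :
    NF κ k m (fun a y => (F a = 0 → ρ a y) ∧ (F a ≠ 0 → σ a y)) := by
  obtain ⟨d, hd⟩ := hF.size
  obtain ⟨P1, M1, c1, hP1, hM1, hM10, h1⟩ := hρ
  obtain ⟨P2, M2, c2, hP2, hM2, hM20, h2⟩ := hσ
  set M := M1 + M2 with hM
  set c := c1 + c2 + d + 10 with hc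
  have hR1 : ∀ (a : Fin k → ℕ) (R : ℕ → ℕ), Reg (M + 1) a R →
      Reg M a (update R M (F a)) ∧ update (update R M (F a)) M 0 = R := by
    intro a R hR
    refine ⟨⟨fun i => ?_, fun i h1 h2 => ?_⟩, ?_⟩
    · rw [update_of_ne (by have := i.2; omega)]
      exact hR.1 i
    · rw [update_of_ne (by omega)]
      exact hR.2 i h1 (by omega)
    · rw [update_idem]
      funext i
      by_cases hi : i = M
      · subst hi
        rw [update_self, hR.2 M (by omega) (by omega)]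
      · rw [update_of_ne hi]
  have hasg : ∀ (a : Fin k → ℕ) (R : ℕ → ℕ), Reg (M + 1) a R →
      NRuns (c * (tsz a + 1)) (.asg k F hF (fun i => i) M) R (update R M (F a)) 1 := by
    intro a R hR
    have h3 : (fun i : Fin k => R i) = a := funext hR.1
    have h4 := NRuns.asg (κ := κ) (L := c * (tsz a + 1)) hF (fun i : Fin k => (i : ℕ)) M R (by
      rw [h3]
      exact (hd a).trans (Nat.mul_le_mul_right _ (by omega)))
    rw [h3] at h4
    exact h4
  have hfin : ∀ (a : Fin k → ℕ) (R R' : ℕ → ℕ) (y : Fin m → ℕ) (P : NProg κ), P.Uses M →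
      R M = 0 → NRes P R R' → Reg M (Fin.append a y) R' → Reg (M + 1) (Fin.append a y) R' := by
    intro a R R' y P hP hRM hr h
    refine ⟨h.1, fun i h1 h2 => ?_⟩
    by_cases hi : i < M
    · exact h.2 i h1 hi
    · obtain rfl : i = M := by omega
      rw [hr.frame hP _ le_rfl]
      exact hRM
  refine NF.mk (.seq (.asg k F hF (fun i => i) M) (.ifz M P1 (.seq (nzero M) P2))) (M + 1) c
    ⟨⟨fun i => by have := i.2; show (i : ℕ) < M + 1; omega, by omega⟩, by omega,
      uses_mono (by omega) hP1, ⟨fun j => j.elim0, by omega⟩,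
      uses_mono (by omega) hP2⟩ (by omega) (by omega)
    (fun a R hR => ?_) (fun a R R' hR hr => ?_) (fun a R y hR hy => ?_)
  · have e2 := pow_sum_le (c1 * (tsz a + 1)) (c2 * (tsz a + 1)) 7
    have e3 : 2 ^ (c1 * (tsz a + 1) + c2 * (tsz a + 1) + 7 + 2) ≤ 2 ^ (c * (tsz a + 1)) := by
      refine Nat.pow_le_pow_right (by norm_num) ?_
      have : c * (tsz a + 1) = c1 * (tsz a + 1) + c2 * (tsz a + 1) + d * (tsz a + 1) +
        10 * (tsz a + 1) := by rw [hc]; ring
      omega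
    refine NBd.mono (T := 1 + (2 ^ (c1 * (tsz a + 1)) + 2 ^ (c2 * (tsz a + 1)) + 3) + 1) (by omega)
      (NBd.seq (hasg a R hR).bd fun R1 hr => ?_)
    rw [(hasg a R hR).un _ hr]
    have p1 := Nat.zero_le (2 ^ (c1 * (tsz a + 1)))
    have p2 := Nat.zero_le (2 ^ (c2 * (tsz a + 1)))
    by_cases hz : F a = 0
    · refine NBd.mono (T := 2 ^ (c1 * (tsz a + 1)) + 1) (by omega) (NBd.ifz0 (by rw [update_self, hz])
        ?_)
      exact (h1 M (by omega) a _ (hR1 a R hR).1).1.mono_L (Nat.mul_le_mul_right _ (by omega))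
    · refine NBd.mono (T := 1 + 2 ^ (c2 * (tsz a + 1)) + 1 + 1) (by omega)
        (NBd.ifz1 (by rw [update_self]; exact hz) (NBd.seq runs_nzero.bd fun R2 hr2 => ?_))
      rw [runs_nzero (L := 0).un _ hr2, (hR1 a R hR).2]
      exact (h2 M (by omega) a _ (hR.mono (by omega))).1.mono_L (Nat.mul_le_mul_right _ (by omega))
  · cases hr with
    | seq r1 r2 =>
      rw [(hasg a R hR).un _ r1] at r2
      cases r2 with
      | ifz0 hz r3 =>
        rw [update_self] at hz
        obtain ⟨y, hy, hR3⟩ := (h1 M (by omega) a _ (hR1 a R hR).1).2.1 _ r3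
        refine ⟨y, ⟨fun _ => hy, fun h => absurd hz h⟩,
          hfin a _ _ y P1 (uses_mono (by omega) hP1) ?_ r3 hR3⟩
        rw [update_self, hz]
      | ifz1 hz r3 =>
        rw [update_self] at hz
        cases r3 with
        | seq r4 r5 =>
          rw [runs_nzero (L := 0).un _ r4, (hR1 a R hR).2] at r5
          obtain ⟨y, hy, hR3⟩ := (h2 M (by omega) a _ (hR.mono (by omega))).2.1 _ r5
          exact ⟨y, ⟨fun h => absurd h hz, fun _ => hy⟩,
            hfin a _ _ y P2 (uses_mono (by omega) hP2) (hR.2 M (by omega) (by omega)) r5 hR3⟩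
  · by_cases hz : F a = 0
    · obtain ⟨R3, r3, hR3⟩ := (h1 M (by omega) a _ (hR1 a R hR).1).2.2 y (hy.1 hz)
      exact ⟨R3, .seq (hasg a R hR).ex (.ifz0 (by rw [update_self, hz]) r3),
        hfin a _ _ y P1 (uses_mono (by omega) hP1) (by rw [update_self, hz]) r3 hR3⟩
    · obtain ⟨R3, r3, hR3⟩ := (h2 M (by omega) a _ (hR.mono (by omega))).2.2 y (hy.2 hz)
      refine ⟨R3, .seq (hasg a R hR).ex (.ifz1 (by rw [update_self]; exact hz)
        (.seq (runs_nzero (L := 0)).ex ?_)),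
        hfin a _ _ y P2 (uses_mono (by omega) hP2) (hR.2 M (by omega) (by omega)) r3 hR3⟩
      rw [(hR1 a R hR).2]
      exact r3

/-- guess a bit -/
theorem NF.guess : NF κ 0 1 (fun _ y => y 0 = 0 ∨ y 0 = 1) := by
  have hreg : ∀ (a : Fin 0 → ℕ) (R : ℕ → ℕ) (b : Bool), Reg 1 (Fin.append a fun _ : Fin 1 => b.toNat)
      (update R 0 b.toNat) := by
    intro a R b
    refine ⟨fun i => ?_, fun i h1 h2 => by omega⟩
    have hi : i = Fin.natAdd 0 (0 : Fin 1) := Fin.ext (by omega)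
    rw [hi, Fin.append_right]
    show update R 0 b.toNat 0 = b.toNat
    rw [update_self]
  refine NF.mk (.gss 0) 1 1 (by show 0 < 1; omega) (by omega) (by omega)
    (fun a R hR => ?_) (fun a R R' hR hr => ?_) (fun a R y hR hy => ?_)
  · exact .mono Nat.one_le_two_pow (.gss (by omega))
  · cases hr with
    | gss _ b _ =>
      refine ⟨fun _ => b.toNat, ?_, hreg a R b⟩
      cases b <;> simp
  · have hy' : y = fun _ => y 0 := by
      funext i
      rw [Subsingleton.elim i 0]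
    rcases hy with h | h
    · refine ⟨_, .gss 0 false R, ?_⟩
      rw [hy', h]
      exact hreg a R false
    · refine ⟨_, .gss 0 true R, ?_⟩
      rw [hy', h]
      exact hreg a R true

end LSC
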