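import Pool.Agent.H85P.Loop
import Pool.Agent.H85P.Graph

/-!
# Substitution, and typed relations
-/

set_option autoImplicit false

namespace LSC

open H85L LSP Function

variable {κ : Kind}

theorem reg_zero {M k : ℕ} {b : Fin (0 + k) → ℕ} {a : Fin k → ℕ} {R : ℕ → ℕ}
    (h : Reg M b R) (hab : ∀ j : Fin k, b (Fin.natAdd 0 j) = a j) : Reg M a R := by
  refine ⟨fun i => ?_, fun i h1 h2 => h.2 i (by omega) h2⟩
  have h1 := h.1 (Fin.natAdd 0 i)
  rw [hab] at h1
  rw [← h1]
  congr 1
  simp

theorem reg_zero' {M k : ℕ} {a : Fin k → ℕ} {R : ℕ → ℕ} (h : Reg M a R) :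
    Reg M (fun i : Fin (0 + k) => a (Fin.cast (Nat.zero_add k) i)) R :=
  ⟨fun i => h.1 (Fin.cast (Nat.zero_add k) i), fun i h1 h2 => h.2 i (by omega) h2⟩

/-- substitution of functions for the arguments -/
theorem NF.pre {k k' m : ℕ} {ρ : (Fin k' → ℕ) → (Fin m → ℕ) → Prop}
    {G : Fin k' → (Fin k → ℕ) → ℕ} (hG : ∀ j, Cmp κ (G j)) (hρ : NF κ k' m ρ) :
    NF κ k m (fun a y => ρ (fun j => G j a) y) := by
  choose d hd using fun j => (hG j).size
  obtain ⟨dr, hdr⟩ := hρ.size
  set D := ∑ j, d j with hD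
  have hDj : ∀ j, d j ≤ D := fun j =>
    Finset.single_le_sum (f := d) (fun _ _ => Nat.zero_le _) (Finset.mem_univ j)
  obtain ⟨P, M0, c1, hP, hM0, hM00, h1⟩ := hρ
  set W := M0 + k + 2 * k' + m + 1 with hW
  set T := W + k + (k + m) with hT
  set G0 : Fin k' → (Fin (0 + k) → ℕ) → ℕ := fun j b =>
    G j fun i => b (Fin.natAdd 0 i) with hG0
  have hcG0 : ∀ j, Cmp κ (G0 j) := fun j => (hG j).comp fun i => cmp_proj κ _
  set G1 : Fin (k + m) → (Fin (0 + (W + k)) → ℕ) → ℕ := fun j b =>
    Fin.append (fun i : Fin k => b (Fin.natAdd 0 (Fin.natAdd W i)))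
      (fun i : Fin m => b ⟨k' + i, by omega⟩) j with hG1
  have hcG1 : ∀ j, Cmp κ (G1 j) := by
    intro j
    refine Fin.addCases (fun j => ?_) (fun j => ?_) j
    · have : G1 (Fin.castAdd m j) = fun b => b (Fin.natAdd 0 (Fin.natAdd W j)) := by
        funext a
        rw [hG1]
        simp only [Fin.append_left]
      rw [this]
      exact cmp_proj κ _
    · have : G1 (Fin.natAdd k j) = fun b => b ⟨k' + j, by omega⟩ := by
        funext a
        rw [hG1]
        simp only [Fin.append_right]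
      rw [this]
      exact cmp_proj κ _
  set S : NProg κ := nseqN (fun j => ncopy j (W + j)) k with hS
  set Q0 := post (κ := κ) 0 (0 + k) k' (W - k') G0 hcG0 with hQ0
  set Q1 := post (κ := κ) 0 (0 + (W + k)) (k + m) (W + k) G1 hcG1 with hQ1
  set τ0 := (k' * 2 + 1 + (k' * 2 + 1 + ((W - k' - 0) * 2 + 1) + 1) + 1) with hτ0
  set τ1 := ((k + m) * 2 + 1 + ((k + m) * 2 + 1 + ((W + k - 0) * 2 + 1) + 1) + 1) with hτ1
  set τS := k * 2 + 1 with hτS
  set C1 := c1 * (k' * D + 1) with hC1
  set c := C1 + D + dr * (k' * D + 1) + τ0 + τ1 + τS + 10 with hc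
  have hcle : ∀ (a : Fin k → ℕ) (e : ℕ), e ≤ c → e * (tsz a + 1) ≤ c * (tsz a + 1) := fun a e he =>
    Nat.mul_le_mul_right _ he
  have hsa : ∀ (a : Fin k → ℕ) (i : Fin k), Nat.size (a i) ≤ c * (tsz a + 1) := fun a i =>
    (tsz_size a i).trans ((show tsz a ≤ 1 * (tsz a + 1) by omega).trans (hcle a 1 (by omega)))
  have hsG : ∀ (a : Fin k → ℕ) (j : Fin k'), Nat.size (G j a) ≤ D * (tsz a + 1) := fun a j =>
    (hd j a).trans (Nat.mul_le_mul_right _ (hDj j))
  have htG : ∀ a : Fin k → ℕ, tsz (fun j => G j a) + 1 ≤ (k' * D + 1) * (tsz a + 1) := by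
    intro a
    have := tsz_le _ (hsG a)
    nlinarith
  have htG' : ∀ (a : Fin k → ℕ) (e : ℕ), e * (tsz (fun j => G j a) + 1) ≤
      e * (k' * D + 1) * (tsz a + 1) := by
    intro a e
    rw [mul_assoc]
    exact Nat.mul_le_mul_left _ (htG a)
  -- the first part
  have hst : ∀ (a : Fin k → ℕ) (R : ℕ → ℕ), Reg T a R →
      ∃ R', NRuns (c * (tsz a + 1)) (.seq S Q0) R R' (τS + τ0 + 1) ∧
        Reg W (fun j => G j a) R' ∧ (∀ j : Fin k, R' (W + j) = a j) ∧
        ∀ i, W + k ≤ i → i < T → R' i = 0 := by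
    intro a R hR
    set R1 : ℕ → ℕ → ℕ := fun j i => if W ≤ i ∧ i < W + j then R (i - W) else R i with hR1
    have s1 := NRuns.seqN (κ := κ) (L := c * (tsz a + 1)) (fun j => ncopy j (W + j)) R1 k 1
      (by
        rw [hR1]
        simp only
        rw [if_neg (by omega)]
        exact hR.size (hsa a) (by omega)) (fun j hj => by
        have e1 : R1 j j = R j := by
          rw [hR1]
          simp only
          rw [if_neg (by omega)]
        have s2 := runs_ncopy (κ := κ) (L := c * (tsz a + 1)) (i := j) (j := W + j) (R := R1 j)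
          (by rw [e1]; exact hR.size (hsa a) (by omega))
        rw [e1] at s2
        have e2 : update (R1 j) (W + j) (R j) = R1 (j + 1) := by
          funext i
          rw [hR1]
          simp only
          by_cases hi : i = W + j
          · subst hi
            rw [update_self, if_pos ⟨by omega, by omega⟩]
            congr 1
            omega
          · rw [update_of_ne hi]
            by_cases hc : W ≤ i ∧ i < W + j
            · rw [if_pos hc, if_pos ⟨hc.1, by omega⟩]
            · rw [if_neg hc, if_neg (by omega)]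
        rw [e2] at s2
        exact s2)
    have h10 : R1 0 = R := by
      funext i
      rw [hR1]
      simp only
      rw [if_neg (by omega)]
    rw [h10] at s1
    have g1 : Reg W a (R1 k) := by
      refine ⟨fun i => ?_, fun i h1 h2 => ?_⟩
      · have := i.2
        rw [hR1]
        simp only
        rw [if_neg (by omega)]
        exact hR.1 i
      · rw [hR1]
        simp only
        rw [if_neg (by omega)]
        exact hR.2 i h1 (by omega)
    obtain ⟨R2, r2, g2, f2⟩ := post_reg (κ := κ) (L := c * (tsz a + 1)) (k := 0) (m' := k)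
      (M := W - k') (M' := W) hcG0 (by omega) (by omega) (by omega) (by omega) (by omega)
      (reg_zero' g1) (fun i => hsa a _) (fun j => by
        refine le_trans ?_ ((hsG a j).trans (hcle a D (by omega)))
        refine le_of_eq (congrArg Nat.size (congrArg (G j) ?_))
        funext i
        exact congrArg a (Fin.ext (by simp)))
    refine ⟨R2, s1.seq r2, reg_zero g2 (fun j => ?_), fun j => ?_, fun i h1 h2 => ?_⟩
    · rw [Fin.append_right, hG0]
      simp only
      congr 1
      funext i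
      exact congrArg a (Fin.ext (by simp))
    · have := j.2
      rw [f2 _ (by omega), hR1]
      simp only
      rw [if_pos ⟨by omega, by omega⟩, ← hR.1 j]
      congr 1
      omega
    · rw [f2 _ (by omega), hR1]
      simp only
      rw [if_neg (by omega)]
      exact hR.2 i (by omega) h2
  -- the last part
  have hfi : ∀ (a : Fin k → ℕ) (y : Fin m → ℕ) (R : ℕ → ℕ), ρ (fun j => G j a) y →
      Reg W (Fin.append (fun j => G j a) y) R → (∀ j : Fin k, R (W + j) = a j) →
      (∀ i, W + k ≤ i → i < T → R i = 0) →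
      ∃ R', NRuns (c * (tsz a + 1)) Q1 R R' τ1 ∧ Reg T (Fin.append a y) R' := by
    intro a y R hy hR hRa hR0
    have hys : ∀ j, Nat.size (y j) ≤ c * (tsz a + 1) := fun j =>
      (hdr _ y hy j).trans ((htG' a dr).trans (hcle a _ (by omega)))
    have g1 : Reg T (fun i : Fin (0 + (W + k)) => R i) R :=
      ⟨fun i => rfl, fun i h1 h2 => hR0 i (by omega) h2⟩
    have hsz : ∀ i, i < W + k → Nat.size (R i) ≤ c * (tsz a + 1) := by
      intro i hi
      by_cases h : i < W
      · refine hR.size (fun j => ?_) h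
        refine Fin.addCases (fun j => ?_) (fun j => ?_) j
        · rw [Fin.append_left]
          exact (hsG a j).trans (hcle a D (by omega))
        · rw [Fin.append_right]
          exact hys j
      · have h2 := hRa ⟨i - W, by omega⟩
        have h3 : W + (i - W) = i := by omega
        simp only [h3] at h2
        rw [h2]
        exact hsa a _
    obtain ⟨R2, r2, g2, f2⟩ := post_reg (κ := κ) (L := c * (tsz a + 1)) (k := 0) (m' := W + k)
      (M := W + k) (M' := T) hcG1 (by omega) (by omega) (by omega) (by omega) (by omega) g1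
      (fun i => hsz i (by have := i.2; omega)) (fun j => by
        refine Fin.addCases (fun j => ?_) (fun j => ?_) j
        · rw [hG1]
          simp only [Fin.append_left]
          exact hsz _ (by
            have := j.2
            show 0 + (W + (j : ℕ)) < W + k
            omega)
        · rw [hG1]
          simp only [Fin.append_right]
          exact hsz _ (by
            have := j.2
            omega))
    refine ⟨R2, r2, reg_zero g2 fun j => ?_⟩
    rw [Fin.append_right, hG1]
    simp only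
    refine Fin.addCases (fun j => ?_) (fun j => ?_) j
    · rw [Fin.append_left, Fin.append_left]
      have := hRa j
      show R (0 + (W + (j : ℕ))) = a j
      rw [Nat.zero_add]
      exact this
    · rw [Fin.append_right, Fin.append_right]
      have := hR.1 (Fin.natAdd k' j)
      rw [Fin.append_right] at this
      exact this
  have hPW : P.Uses W := uses_mono (by omega) hP
  refine NF.mk (.seq (.seq S Q0) (.seq P Q1)) T c
    ⟨⟨nseqN_uses (by omega) fun j hj => ⟨fun _ => show j < T by omega, by omega⟩,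
      uses_mono (by omega) (post_uses (by omega) (by omega) (by omega))⟩,
      uses_mono (by omega) hP, post_uses (by omega) (by omega) (by omega)⟩ (by omega) (by omega)
    (fun a R hR => ?_) (fun a R R' hR hr => ?_) (fun a R y hR hy => ?_)
  · obtain ⟨R1, r1, g1, a1, z1⟩ := hst a R hR
    have g := h1 W (by omega) _ R1 g1
    have e1 := htG' a c1
    have b : NBd (c * (tsz a + 1)) (.seq (.seq S Q0) (.seq P Q1)) R
        ((τS + τ0 + 1) + (2 ^ (C1 * (tsz a + 1)) + τ1 + 1) + 1) := by
      refine NBd.seq r1.bd fun R1' hr1 => ?_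
      rw [r1.un _ hr1]
      refine NBd.seq (.mono (Nat.pow_le_pow_right (by norm_num) e1)
        (g.1.mono_L (e1.trans (hcle a C1 (by omega))))) fun R2 hr2 => ?_
      obtain ⟨y, hy, hR2⟩ := g.2.1 R2 hr2
      obtain ⟨R3, r3, -⟩ := hfi a y R2 hy hR2
        (fun j => by rw [hr2.frame hPW _ (by omega)]; exact a1 j)
        (fun i hi hi' => by rw [hr2.frame hPW _ (by omega)]; exact z1 i hi hi')
      exact r3.bd
    refine b.mono ?_
    have e2 := pow_add_le (C1 * (tsz a + 1)) (τS + τ0 + τ1 + 3)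
    have e3 := le_pow_self (τS + τ0 + τ1 + 3)
    have e4 : 2 ^ (C1 * (tsz a + 1) + (τS + τ0 + τ1 + 3) + 1) ≤ 2 ^ (c * (tsz a + 1)) := by
      refine Nat.pow_le_pow_right (by norm_num) ?_
      have : c * (tsz a + 1) = C1 * (tsz a + 1) + (τ0 + τ1 + τS + 10) * (tsz a + 1) +
        (D + dr * (k' * D + 1)) * (tsz a + 1) := by rw [hc]; ring
      nlinarith [Nat.zero_le (tsz a), Nat.zero_le ((D + dr * (k' * D + 1)) * (tsz a + 1))]
    omega
  · cases hr with
    | seq r1 r23 =>
      cases r23 with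
      | seq r2 r3 =>
        obtain ⟨R1, s1, g1, a1, z1⟩ := hst a R hR
        rw [s1.un _ r1] at r2
        obtain ⟨y, hy, hR2⟩ := (h1 W (by omega) _ R1 g1).2.1 _ r2
        obtain ⟨R3, s3, g3⟩ := hfi a y _ hy hR2
          (fun j => by rw [r2.frame hPW _ (by omega)]; exact a1 j)
          (fun i hi hi' => by rw [r2.frame hPW _ (by omega)]; exact z1 i hi hi')
        refine ⟨y, hy, ?_⟩
        rw [s3.un _ r3]
        exact g3
  · obtain ⟨R1, s1, g1, a1, z1⟩ := hst a R hR
    obtain ⟨R2, s2, hR2⟩ := (h1 W (by omega) _ R1 g1).2.2 y hy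
    obtain ⟨R3, s3, g3⟩ := hfi a y _ hy hR2
      (fun j => by rw [s2.frame hPW _ (by omega)]; exact a1 j)
      (fun i hi hi' => by rw [s2.frame hPW _ (by omega)]; exact z1 i hi hi')
    exact ⟨R3, .seq s1.ex (.seq s2 s3.ex), g3⟩

/-! ### Typed relations -/

variable {α β γ : Type} [Ctx α] [Ctx β] [Ctx γ]

/-- relations computed by nondeterministic programs -/
def NR (κ : Kind) {α β : Type} [Ctx α] [Ctx β] (ρ : α → β → Prop) : Prop :=
  NF κ (dim α) (dim β) fun v w => ρ (e.symm v) (e.symm w)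

theorem NR.congr {ρ σ : α → β → Prop} (h : NR κ ρ) (hρ : ∀ a y, σ a y ↔ ρ a y) : NR κ σ :=
  NF.congr h fun a y => hρ _ _

theorem NR.fn {f : α → β} (hf : Fn (KC κ) f) : NR κ (fun a y => y = f a) := by
  refine (NF.fn (G := fun j v => e (f (e.symm v)) j) hf).congr fun v w => ?_
  show e.symm w = f (e.symm v) ↔ _
  rw [Equiv.symm_apply_eq]

theorem NR.comp {ρ : α → β → Prop} {σ : α × β → γ → Prop} (hρ : NR κ ρ) (hσ : NR κ σ) :
    NR κ (fun a z => ∃ y, ρ a y ∧ σ (a, y) z) := by
  refine (NF.comp (k := dim α) (m1 := dim β) (m2 := dim γ) hρ hσ).congr fun v w => ?_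
  constructor
  · rintro ⟨y, h1, h2⟩
    refine ⟨e y, by rwa [Equiv.symm_apply_apply], ?_⟩
    have : (e : (α × β) ≃ _).symm (Fin.append v (e y)) = (e.symm v, y) := by
      rw [Equiv.symm_apply_eq, e_prod, Equiv.apply_symm_apply]
    show σ ((e : (α × β) ≃ _).symm (Fin.append v (e y))) _
    rw [this]
    exact h2
  · rintro ⟨y, h1, h2⟩
    refine ⟨e.symm y, h1, ?_⟩
    have : (e : (α × β) ≃ _).symm (Fin.append v y) = (e.symm v, e.symm y) := by
      rw [Equiv.symm_apply_eq, e_prod, Equiv.apply_symm_apply, Equiv.apply_symm_apply]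
    change σ ((e : (α × β) ≃ _).symm (Fin.append v y)) _ at h2
    rw [this] at h2
    exact h2

theorem NR.pre {ρ : β → γ → Prop} {f : α → β} (hf : Fn (KC κ) f) (hρ : NR κ ρ) :
    NR κ (fun a z => ρ (f a) z) := by
  refine (NF.pre (G := fun j v => e (f (e.symm v)) j) hf hρ).congr fun v w => ?_
  have : (fun j => e (f (e.symm v)) j) = e (f (e.symm v)) := rfl
  rw [this, Equiv.symm_apply_apply]

theorem NR.none : NR κ (fun (_ : α) (_ : β) => False) := NF.none _ _

theorem NR.ite {p : α → Prop} {ρ σ : α → β → Prop} (hp : Pr (KC κ) p) (hρ : NR κ ρ)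
    (hσ : NR κ σ) : NR κ (fun a y => (p a ∧ ρ a y) ∨ (¬ p a ∧ σ a y)) := by
  obtain ⟨f, hf, h⟩ := hp
  refine (NF.ite (F := fun v => f (e.symm v)) (hf 0) hσ hρ).congr fun v w => ?_
  show ((p (e.symm v) ∧ ρ (e.symm v) (e.symm w)) ∨ (¬ p (e.symm v) ∧ σ (e.symm v) (e.symm w))) ↔ _
  rw [h]
  tauto

theorem NR.restr {p : α → Prop} {ρ : α → β → Prop} (hp : Pr (KC κ) p) (hρ : NR κ ρ) :
    NR κ (fun a y => p a ∧ ρ a y) :=
  (NR.ite hp hρ NR.none).congr fun _ _ => by tauto

/-- guess a bit -/
theorem NR.guess : NR κ (fun (_ : α) (y : ℕ) => y = 0 ∨ y = 1) := by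
  have h : NR κ (fun (_ : Unit) (y : ℕ) => y = 0 ∨ y = 1) :=
    NF.congr NF.guess fun v w => Iff.rfl
  exact NR.pre (f := fun _ : α => ()) (Fn.const ()) h

/-- choice -/
theorem NR.or {ρ σ : α → β → Prop} (hρ : NR κ ρ) (hσ : NR κ σ) :
    NR κ (fun a y => ρ a y ∨ σ a y) := by
  have h1 : NR κ (fun (q : α × ℕ) (y : β) => (q.2 = 0 ∧ ρ q.1 y) ∨ (¬ q.2 = 0 ∧ σ q.1 y)) :=
    NR.ite (by fun_prop) (NR.pre (f := fun q : α × ℕ => q.1) (by fun_prop) hρ)
      (NR.pre (f := fun q : α × ℕ => q.1) (by fun_prop) hσ)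
  refine (NR.comp NR.guess h1).congr fun a y => ?_
  constructor
  · rintro (h | h)
    · exact ⟨0, Or.inl rfl, Or.inl ⟨rfl, h⟩⟩
    · exact ⟨1, Or.inr rfl, Or.inr ⟨by norm_num, h⟩⟩
  · rintro ⟨b, -, ⟨-, h⟩ | ⟨-, h⟩⟩
    · exact Or.inl h
    · exact Or.inr h

/-- apply a function to the result -/
theorem NR.map {ρ : α → β → Prop} {f : α × β → γ} (hρ : NR κ ρ) (hf : Fn (KC κ) f) :
    NR κ (fun a z => ∃ y, ρ a y ∧ z = f (a, y)) := NR.comp hρ (NR.fn hf)

/-- the results have linear length -/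
theorem NR.size {ρ : α → β → Prop} (h : NR κ ρ) : ∃ d, ∀ a y, ρ a y → sz y ≤ d * (sz a + 1) := by
  obtain ⟨d, hd⟩ := NF.size h
  refine ⟨dim β * d, fun a y hy => ?_⟩
  have h1 := hd (e a) (e y) (by rwa [Equiv.symm_apply_apply, Equiv.symm_apply_apply])
  exact (tsz_le _ h1).trans (le_of_eq (by unfold sz; ring))

/-- loops -/
theorem NR.loop {ρ : α × ℕ × β → β → Prop} {n : α → ℕ} {g : α → β} (hρ : NR κ ρ)
    (hn : Fn (KC κ) n) (hg : Fn (KC κ) g)
    (hb : ∃ d, ∀ a (x : ℕ → β), x 0 = g a → ∀ i ≤ n a,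
      (∀ j < i, ρ (a, j, x j) (x (j + 1))) → sz (x i) ≤ d * (sz a + 1)) :
    NR κ (fun a y => ∃ x : ℕ → β, x 0 = g a ∧ (∀ i < n a, ρ (a, i, x i) (x (i + 1))) ∧
      x (n a) = y) := by
  obtain ⟨d, hd⟩ := hb
  have happ : ∀ (v : Fin (dim α) → ℕ) (i : ℕ) (w : Fin (dim β) → ℕ),
      (e : (α × ℕ × β) ≃ _).symm (app3 v i w) = (e.symm v, i, e.symm w) := by
    intro v i w
    rw [Equiv.symm_apply_eq, e_prod, e_prod, Equiv.apply_symm_apply, Equiv.apply_symm_apply]
    rfl
  refine (NF.loop (k := dim α) (m := dim β) (n := fun v => n (e.symm v))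
    (G := fun j v => e (g (e.symm v)) j) hρ (hn 0) hg ⟨d, fun v x h0 i hi hs => ?_⟩).congr
    fun v w => ?_
  · have h1 := hd (e.symm v) (fun i => e.symm (x i)) (by
      show e.symm (x 0) = _
      rw [h0]
      exact Equiv.symm_apply_apply _ _) i hi (fun j hj => by
      have h2 := hs j hj
      change ρ ((e : (α × ℕ × β) ≃ _).symm (app3 v j (x j))) _ at h2
      rw [happ] at h2
      exact h2)
    unfold sz at h1
    rw [Equiv.apply_symm_apply, Equiv.apply_symm_apply] at h1
    exact h1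
  · constructor
    · rintro ⟨x, h0, hs, he⟩
      refine ⟨fun i => e (x i), by
        show e (x 0) = _
        rw [h0], fun i hi => ?_, ?_⟩
      · show ρ ((e : (α × ℕ × β) ≃ _).symm (app3 v i (e (x i)))) _
        rw [happ, Equiv.symm_apply_apply, Equiv.symm_apply_apply]
        exact hs i hi
      · show e (x (n (e.symm v))) = w
        rw [he, Equiv.apply_symm_apply]
    · rintro ⟨x, h0, hs, he⟩
      refine ⟨fun i => e.symm (x i), ?_, fun i hi => ?_, ?_⟩
      · show e.symm (x 0) = _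
        rw [h0]
        exact Equiv.symm_apply_apply _ _
      · have h2 := hs i hi
        change ρ ((e : (α × ℕ × β) ≃ _).symm (app3 v i (x i))) _ at h2
        rw [happ] at h2
        exact h2
      · show e.symm (x (n (e.symm v))) = _
        rw [he]

/-- a relation which is the graph of a function -/
theorem NR.single {f : α → ℕ} (h : NR κ (fun a y => y = f a)) (hdet : κ.det = false) :
    Fn (KC κ) f := by
  obtain ⟨P, M0, c, hP, hM0, hM00, h1⟩ := h
  intro j
  have hj : j = 0 := Fin.ext (by have := j.2; change (j : ℕ) < 1 at this; show (j : ℕ) = 0; omega)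
  subst hj
  refine Cmp.of_nprog P M0 hP (by change dim α + 1 ≤ M0 at hM0; omega)
    (fun h => by rw [hdet] at h; cases h) c fun a R hR hR0 => ?_
  have h2 := h1 M0 le_rfl a R ⟨hR, hR0⟩
  refine ⟨h2.1, ?_, fun R' hr => ?_⟩
  · obtain ⟨R', hr, -⟩ := h2.2.2 (e (f (e.symm a))) (by
      show e.symm (e (f (e.symm a))) = f (e.symm a)
      rw [Equiv.symm_apply_apply])
    exact ⟨R', hr⟩
  · obtain ⟨y, hy, hR'⟩ := h2.2.1 R' hr
    have h3 := hR'.1 (Fin.natAdd (dim α) (0 : Fin 1))
    rw [Fin.append_right] at h3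
    change e.symm y = f (e.symm a) at hy
    rw [Equiv.symm_apply_eq] at hy
    rw [hy] at h3
    exact h3

end LSC
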