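import Pool.Agent.H85P.Inst

/-!
# Registers and simultaneous assignments
-/

set_option autoImplicit false

namespace LSC

open H85L LSP Function

variable {κ : Kind}

/-- the registers `0, ..., k - 1` contain `a`, the registers `k, ..., M - 1` contain `0` -/
def Reg (M : ℕ) {k : ℕ} (a : Fin k → ℕ) (R : ℕ → ℕ) : Prop :=
  (∀ i : Fin k, R i = a i) ∧ ∀ i, k ≤ i → i < M → R i = 0

theorem Reg.mono {M M' k : ℕ} {a : Fin k → ℕ} {R : ℕ → ℕ} (h : Reg M a R) (hM : M' ≤ M) :
    Reg M' a R := ⟨h.1, fun i h1 h2 => h.2 i h1 (by omega)⟩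

theorem Reg.ext_frame {M M' k k' : ℕ} {a : Fin k → ℕ} {b : Fin k' → ℕ} {R R' : ℕ → ℕ}
    {P : NProg κ} (hP : P.Uses M) (hr : NRes P R R') (h : Reg M' a R) (h' : Reg M b R')
    (hk : k ≤ M) : Reg M' b R' := by
  refine ⟨h'.1, fun i h1 h2 => ?_⟩
  by_cases hi : i < M
  · exact h'.2 i h1 hi
  · rw [hr.frame hP i (by omega)]
    exact h.2 i (by omega) h2

theorem Reg.size {M k L : ℕ} {a : Fin k → ℕ} {R : ℕ → ℕ} (h : Reg M a R)
    (hL : ∀ i, Nat.size (a i) ≤ L) {i : ℕ} (hi : i < M) : Nat.size (R i) ≤ L := by
  by_cases hk : i < k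
  · rw [h.1 ⟨i, hk⟩]
    exact hL _
  · rw [h.2 i (by omega) hi]
    simp

/-- put the values of the functions `G j`, applied to the registers `0, ..., K - 1`, into the registers
`k + j` and clear the registers above -/
def post (k K m M : ℕ) (G : Fin m → (Fin K → ℕ) → ℕ) (hG : ∀ j, Cmp κ (G j)) : NProg κ :=
  .seq (nseqN (fun j => if h : j < m then
      .asg K (G ⟨j, h⟩) (hG ⟨j, h⟩) (fun i => i) (M + j) else nskip) m)
    (.seq (nseqN (fun j => ncopy (M + j) (k + j)) m) (nseqN (fun j => nzero (k + m + j)) (M - k)))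

/-- the registers afterwards -/
def postR (k K m M : ℕ) (G : Fin m → (Fin K → ℕ) → ℕ) (R : ℕ → ℕ) : ℕ → ℕ := fun i =>
  if h : k ≤ i ∧ i < k + m then G ⟨i - k, by omega⟩ (fun j => R j)
  else if k ≤ i ∧ i < M + m then 0 else R i

theorem post_uses {k K m M : ℕ} {G : Fin m → (Fin K → ℕ) → ℕ} {hG : ∀ j, Cmp κ (G j)}
    (hK : K ≤ M) (hkm : k + m ≤ M) (hM : 0 < M) : (post k K m M G hG).Uses (M + m) := by
  refine ⟨nseqN_uses (by omega) fun j hj => ?_, nseqN_uses (by omega) fun j hj =>
    ⟨fun _ => show M + j < M + m by omega, by omega⟩,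
    nseqN_uses (by omega) fun j hj => ⟨fun j => j.elim0, by omega⟩⟩
  rw [dif_pos hj]
  exact ⟨fun i => by have := i.2; show (i : ℕ) < M + m; omega, by omega⟩

theorem runs_post {k K m M L : ℕ} {G : Fin m → (Fin K → ℕ) → ℕ} (hG : ∀ j, Cmp κ (G j))
    {R : ℕ → ℕ} (hK : K ≤ M) (hkm : k + m ≤ M) (hM : 0 < M) (h0 : Nat.size (R 0) ≤ L)
    (hL : ∀ j, Nat.size (G j fun i => R i) ≤ L) :
    NRuns L (post k K m M G hG) R (postR k K m M G R) (m * 2 + 1 + (m * 2 + 1 + ((M - k) * 2 + 1) + 1)
      + 1) := by
  set R1 : ℕ → ℕ → ℕ := fun j i => if h : M ≤ i ∧ i < M + j ∧ i < M + m then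
    G ⟨i - M, by omega⟩ (fun i : Fin K => R i) else R i with hR1
  set R2 : ℕ → ℕ → ℕ := fun j i => if h : k ≤ i ∧ i < k + j ∧ i < k + m then
    G ⟨i - k, by omega⟩ (fun i : Fin K => R i) else R1 m i with hR2
  set R3 : ℕ → ℕ → ℕ := fun j i => if k + m ≤ i ∧ i < k + m + j then 0 else R2 m i with hR3
  have h1 := NRuns.seqN (κ := κ) (L := L) (fun j => if h : j < m then
      .asg K (G ⟨j, h⟩) (hG ⟨j, h⟩) (fun i => i) (M + j) else nskip) R1 m 1
    (by
      rw [hR1]
      simp only
      rw [dif_neg (by omega)]
      exact h0) (fun j hj => by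
      rw [dif_pos hj]
      have harg : (fun i : Fin K => R1 j (i : ℕ)) = fun i : Fin K => R i := by
        funext i
        have := i.2
        rw [hR1]
        simp only
        rw [dif_neg (by omega)]
      have h2 := NRuns.asg (κ := κ) (L := L) (hG ⟨j, hj⟩) (fun i : Fin K => (i : ℕ)) (M + j)
        (R1 j) (by rw [harg]; exact hL _)
      rw [harg] at h2
      have h3 : update (R1 j) (M + j) (G ⟨j, hj⟩ fun i : Fin K => R i) = R1 (j + 1) := by
        funext i
        by_cases hi : i = M + j
        · subst hi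
          rw [update_self, hR1]
          simp only
          rw [dif_pos ⟨by omega, by omega, by omega⟩]
          congr 1
          congr 1
          simp
        · rw [update_of_ne hi, hR1]
          simp only
          by_cases hc : M ≤ i ∧ i < M + j ∧ i < M + m
          · rw [dif_pos hc, dif_pos ⟨hc.1, by omega, hc.2.2⟩]
          · rw [dif_neg hc, dif_neg (by omega)]
      rw [h3] at h2
      exact h2)
  have h10 : R1 0 = R := by
    funext i
    rw [hR1]
    simp only
    rw [dif_neg (by omega)]
  have h20 : R2 0 = R1 m := by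
    funext i
    rw [hR2]
    simp only
    rw [dif_neg (by omega)]
  have h30 : R3 0 = R2 m := by
    funext i
    rw [hR3]
    simp only
    rw [if_neg (by omega)]
  have h2 := NRuns.seqN (κ := κ) (L := L) (fun j => ncopy (M + j) (k + j)) R2 m 1
    (by
      rw [h20, hR1]
      simp only
      rw [dif_neg (by omega)]
      exact h0) (fun j hj => by
      have e1 : R2 j (M + j) = G ⟨j, hj⟩ fun i : Fin K => R i := by
        rw [hR2, hR1]
        simp only
        rw [dif_neg (by omega), dif_pos ⟨by omega, by omega, by omega⟩]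
        congr 1
        congr 1
        simp
      have h3 := runs_ncopy (κ := κ) (L := L) (i := M + j) (j := k + j) (R := R2 j)
        (by rw [e1]; exact hL _)
      rw [e1] at h3
      have h4 : update (R2 j) (k + j) (G ⟨j, hj⟩ fun i : Fin K => R i) = R2 (j + 1) := by
        funext i
        by_cases hi : i = k + j
        · subst hi
          rw [update_self, hR2]
          simp only
          rw [dif_pos ⟨by omega, by omega, by omega⟩]
          congr 1
          congr 1
          simp
        · rw [update_of_ne hi, hR2]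
          simp only
          by_cases hc : k ≤ i ∧ i < k + j ∧ i < k + m
          · rw [dif_pos hc, dif_pos ⟨hc.1, by omega, hc.2.2⟩]
          · rw [dif_neg hc, dif_neg (by omega)]
      rw [h4] at h3
      exact h3)
  have h3 := NRuns.seqN (κ := κ) (L := L) (fun j => nzero (k + m + j)) R3 (M - k) 1
    (by
      rw [h30, hR2]
      simp only
      by_cases hc : k ≤ 0 ∧ 0 < k + m ∧ 0 < k + m
      · rw [dif_pos hc]
        exact hL _
      · rw [dif_neg hc, hR1]
        simp only
        rw [dif_neg (by omega)]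
        exact h0) (fun j hj => by
      have h4 := runs_nzero (κ := κ) (L := L) (i := k + m + j) (R := R3 j)
      have h5 : update (R3 j) (k + m + j) 0 = R3 (j + 1) := by
        funext i
        by_cases hi : i = k + m + j
        · subst hi
          rw [update_self, hR3]
          simp only
          rw [if_pos ⟨by omega, by omega⟩]
        · rw [update_of_ne hi, hR3]
          simp only
          by_cases hc : k + m ≤ i ∧ i < k + m + j
          · rw [if_pos hc, if_pos ⟨hc.1, by omega⟩]
          · rw [if_neg hc, if_neg (by omega)]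
      rw [h5] at h4
      exact h4)
  have hend : R3 (M - k) = postR k K m M G R := by
    funext i
    rw [hR3]
    unfold postR
    simp only
    by_cases hc : k ≤ i ∧ i < k + m
    · rw [if_neg (by omega), dif_pos hc, hR2]
      simp only
      rw [dif_pos ⟨hc.1, hc.2, hc.2⟩]
    · rw [dif_neg hc]
      by_cases hc2 : k ≤ i ∧ i < M + m
      · rw [if_pos hc2, if_pos ⟨by omega, by omega⟩]
      · rw [if_neg hc2, if_neg (by omega), hR2]
        simp only
        rw [dif_neg (by omega), hR1]
        simp only
        rw [dif_neg (by omega)]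
  rw [h10] at h1
  rw [h20] at h2
  rw [h30, hend] at h3
  exact h1.seq (h2.seq h3)

theorem reg_postR {k m' m M M' : ℕ} {G : Fin m → (Fin (k + m') → ℕ) → ℕ} {R : ℕ → ℕ}
    {b : Fin (k + m') → ℕ} (hM : M' ≤ M + m) (h : Reg M' b R) :
    Reg M' (Fin.append (fun i => b (Fin.castAdd m' i)) fun j => G j b)
      (postR k (k + m') m M G R) := by
  have hb : (fun j : Fin (k + m') => R j) = b := funext h.1
  constructor
  · intro i
    refine Fin.addCases (fun i => ?_) (fun i => ?_) i
    · rw [Fin.append_left]
      unfold postR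
      have := i.2
      rw [dif_neg (by simp), if_neg (by simp)]
      exact h.1 (Fin.castAdd m' i)
    · rw [Fin.append_right]
      unfold postR
      have := i.2
      rw [dif_pos (by simp), hb]
      congr 1
      ext
      simp
  · intro i h1 h2
    unfold postR
    rw [dif_neg (by omega), if_pos (by omega)]

end LSC
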