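import Pool.Agent.H85P.Arith
import Pool.Agent.H85L.Basic

/-!
# One move of a machine on numbers

The contents of a stack are coded by a number in the base `Nat.card Γ + 1` with nonzero digits (top letter =
last digit), a configuration by the numbers of its state, of the height of the address stack and of its
stacks. One move is a function of every class with the closure properties.
-/

set_option autoImplicit false

namespace LSC

open H85L

variable {C : NClass} [Calc C]
variable {α β : Type} [Ctx α] [Ctx β]

/-! ### Finite case distinctions -/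

theorem exists_cases {ι : Type} [Finite ι] (p : ι → α → Prop) (hp : ∀ i, Pr C (p i))
    (f : ι → α → β) (hf : ∀ i, Fn C (f i)) (hex : ∀ i j a, p i a → p j a → i = j) :
    ∃ F : α → β, Fn C F ∧ ∀ i a, p i a → F a = f i a := by
  classical
  have := Fintype.ofFinite ι
  have key : ∀ l : List ι, ∃ F : α → β, Fn C F ∧ ∀ i ∈ l, ∀ a, p i a → F a = f i a := by
    intro l
    induction l with
    | nil => exact ⟨fun _ => e.symm fun _ => 0, Fn.const _, fun i hi => by simp at hi⟩
    | cons j l ih =>
      obtain ⟨F, hF, h⟩ := ih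
      refine ⟨fun a => if p j a then f j a else F a, Fn.ite (hp j) (hf j) hF, fun i hi a ha => ?_⟩
      by_cases hj : p j a
      · show (if p j a then f j a else F a) = f i a
        rw [if_pos hj, hex j i a hj ha]
      · show (if p j a then f j a else F a) = f i a
        rw [if_neg hj]
        rcases List.mem_cons.mp hi with rfl | hi
        · exact absurd ha hj
        · exact h i hi a ha
  obtain ⟨F, hF, h⟩ := key Finset.univ.toList
  exact ⟨F, hF, fun i a ha => h i (by simp) a ha⟩

theorem Pr_fin {ι : Type} [Finite ι] {p : ι → α → Prop} (hp : ∀ i, Pr C (p i)) :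
    Pr C (fun a => ∀ i, p i a) := by
  classical
  have := Fintype.ofFinite ι
  have key : ∀ l : List ι, Pr C (fun a => ∀ i ∈ l, p i a) := by
    intro l
    induction l with
    | nil => exact (Pr.const True).congr fun a => by simp
    | cons j l ih => exact ((hp j).and ih).congr fun a => by simp
  exact (key Finset.univ.toList).congr fun a => by simp

theorem Pr_finex {ι : Type} [Finite ι] {p : ι → α → Prop} (hp : ∀ i, Pr C (p i)) :
    Pr C (fun a => ∃ i, p i a) :=
  (Pr_fin (fun i => (hp i).not)).not.congr fun a => by push Not; rfl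

/-! ### Numbers for the elements of finite types -/

/-- the number of an element -/
noncomputable def nm {X : Type} [Finite X] (x : X) : ℕ := Finite.equivFin X x

theorem nm_lt {X : Type} [Finite X] (x : X) : nm x < Nat.card X := (Finite.equivFin X x).2

theorem nm_inj {X : Type} [Finite X] {x y : X} : nm x = nm y ↔ x = y := by
  unfold nm
  rw [Fin.val_inj, EmbeddingLike.apply_eq_iff_eq]

/-- the number of an optional element -/
noncomputable def nmo {X : Type} [Finite X] : Option X → ℕ
  | none => 0
  | some x => nm x + 1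

@[simp] theorem nmo_none {X : Type} [Finite X] : nmo (none : Option X) = 0 := rfl
@[simp] theorem nmo_some {X : Type} [Finite X] (x : X) : nmo (some x) = nm x + 1 := rfl

theorem nmo_inj {X : Type} [Finite X] {x y : Option X} : nmo x = nmo y ↔ x = y := by
  cases x <;> cases y <;> simp [nm_inj]

theorem nmo_lt {X : Type} [Finite X] (x : Option X) : nmo x < Nat.card X + 1 := by
  cases x with
  | none => exact Nat.succ_pos _
  | some x => exact Nat.succ_lt_succ (nm_lt x)

/-! ### Codes of stacks and configurations -/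

/-- the number of a stack -/
noncomputable def st {Γ : Type} [Finite Γ] (l : List Γ) : ℕ :=
  l.foldr (fun g n => (Nat.card Γ + 1) * n + (nm g + 1)) 0

theorem st_nil {Γ : Type} [Finite Γ] : st ([] : List Γ) = 0 := rfl

theorem st_cons {Γ : Type} [Finite Γ] (g : Γ) (l : List Γ) :
    st (g :: l) = (Nat.card Γ + 1) * st l + (nm g + 1) := rfl

theorem st_mod {Γ : Type} [Finite Γ] (l : List Γ) : st l % (Nat.card Γ + 1) = nmo l.head? := by
  cases l with
  | nil => simp [st_nil]
  | cons g l =>
    rw [st_cons, Nat.mul_add_mod, Nat.mod_eq_of_lt (by have := nm_lt g; omega)]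
    rfl

theorem st_div {Γ : Type} [Finite Γ] (l : List Γ) : st l / (Nat.card Γ + 1) = st l.tail := by
  cases l with
  | nil => simp [st_nil]
  | cons g l =>
    rw [st_cons, Nat.mul_add_div (Nat.succ_pos _), Nat.div_eq_of_lt (by have := nm_lt g; omega)]
    rfl

/-- an operation on the number of a stack -/
noncomputable def opN {Γ : Type} [Finite Γ] (o : Op Γ) (n : ℕ) : ℕ := match o with
  | .stay => n
  | .pop => n / (Nat.card Γ + 1)
  | .push g => (Nat.card Γ + 1) * n + (nm g + 1)

theorem opN_st {Γ : Type} [Finite Γ] (o : Op Γ) (l : List Γ) : opN o (st l) = st (o.app l) := by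
  cases o with
  | stay => rfl
  | pop => exact st_div l
  | push g => exact (st_cons g l).symm

/-- an operation on the height -/
def opH {Γ : Type} (o : Op Γ) (n : ℕ) : ℕ := match o with
  | .stay => n
  | .pop => n - 1
  | .push _ => n + 1

theorem opH_len {Γ : Type} (o : Op Γ) (l : List Γ) : opH o l.length = (o.app l).length := by
  cases o with
  | stay => rfl
  | pop => exact (List.length_tail).symm
  | push g => rfl

theorem fn_opN {Γ : Type} [Finite Γ] (o : Op Γ) {f : α → ℕ} (hf : Fn C f) :
    Fn C (fun a => opN o (f a)) := by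
  cases o with
  | stay => exact hf
  | pop =>
    show Fn C (fun a => f a / (Nat.card Γ + 1))
    fun_prop
  | push g =>
    show Fn C (fun a => (Nat.card Γ + 1) * f a + (nm g + 1))
    fun_prop

theorem fn_opH {Γ : Type} (o : Op Γ) {f : α → ℕ} (hf : Fn C f) :
    Fn C (fun a => opH o (f a)) := by
  cases o with
  | stay => exact hf
  | pop =>
    show Fn C (fun a => f a - 1)
    fun_prop
  | push g =>
    show Fn C (fun a => f a + 1)
    fun_prop

/-- the type of the codes of configurations -/
abbrev CC (K : Type) : Type := ℕ × ℕ × (Fin (Nat.card K) → ℕ)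

variable {Δ Q Γ K : Type} [Finite Δ] [Finite Q] [Finite Γ] [Finite K]

/-- the code of a configuration -/
noncomputable def cc (M : Mach Δ Q Γ K) (c : Cfg Q Γ K) : CC K :=
  (nm c.q, (c.s M.adr).length, fun i => st (c.s ((Finite.equivFin K).symm i)))

/-- one move -/
theorem exists_step (M : Mach Δ Q Γ K) {look : α → ℕ → Option Δ}
    (hl : Fn C (fun p : α × ℕ => nmo (look p.1 p.2))) :
    ∃ S : α × ℕ × CC K → CC K, Fn C S ∧ ∀ a (b : Bool) c,
      S (a, b.toNat, cc M c) = cc M (M.step (fun q => look a q.length) b c) := by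
  obtain ⟨S, hS, h⟩ := exists_cases (C := C) (ι := Q × Bool × Option Δ × (K → Option Γ))
    (α := α × ℕ × CC K) (β := CC K)
    (fun i x => x.2.2.1 = nm i.1 ∧ x.2.1 = i.2.1.toNat ∧
      nmo (look x.1 x.2.2.2.1) = nmo i.2.2.1 ∧
      ∀ j, x.2.2.2.2 j % (Nat.card Γ + 1) = nmo (i.2.2.2 ((Finite.equivFin K).symm j)))
    (fun i => by
      have h1 : Fn C (fun x : α × ℕ × CC K => nmo (look x.1 x.2.2.2.1)) :=
        hl.comp (f := fun x : α × ℕ × CC K => (x.1, x.2.2.2.1)) (by fun_prop)
      have h2 : Pr C (fun x : α × ℕ × CC K => ∀ j, x.2.2.2.2 j % (Nat.card Γ + 1) =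
          nmo (i.2.2.2 ((Finite.equivFin K).symm j))) := by
        refine Pr_fin fun j => ?_
        have h3 : Fn C (fun x : α × ℕ × CC K => x.2.2.2.2 j) :=
          Fn.apply (f := fun x : α × ℕ × CC K => x.2.2.2.2) (by fun_prop) j
        fun_prop
      fun_prop)
    (fun i x => if (M.out i.1).isSome then x.2.2 else
      (nm (M.next i.1 i.2.2.2 i.2.2.1 i.2.1).1,
        opH ((M.next i.1 i.2.2.2 i.2.2.1 i.2.1).2 M.adr) x.2.2.2.1,
        fun j => opN ((M.next i.1 i.2.2.2 i.2.2.1 i.2.1).2 ((Finite.equivFin K).symm j))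
          (x.2.2.2.2 j)))
    (fun i => by
      by_cases ho : (M.out i.1).isSome
      · simp only [if_pos ho]
        fun_prop
      · simp only [if_neg ho]
        have h1 : Fn C (fun x : α × ℕ × CC K => fun j =>
            opN ((M.next i.1 i.2.2.2 i.2.2.1 i.2.1).2 ((Finite.equivFin K).symm j))
              (x.2.2.2.2 j)) :=
          Fn.pi fun j => fn_opN _
            (Fn.apply (f := fun x : α × ℕ × CC K => x.2.2.2.2) (by fun_prop) j)
        have h2 : Fn C (fun x : α × ℕ × CC K =>
            opH ((M.next i.1 i.2.2.2 i.2.2.1 i.2.1).2 M.adr) x.2.2.2.1) :=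
          fn_opH _ (by fun_prop)
        exact (Fn.const _).pair (h2.pair h1))
    (fun i j x h1 h2 => by
      obtain ⟨i1, i2, i3, i4⟩ := i
      obtain ⟨j1, j2, j3, j4⟩ := j
      obtain ⟨a1, a2, a3, a4⟩ := h1
      obtain ⟨b1, b2, b3, b4⟩ := h2
      simp only at a1 a2 a3 a4 b1 b2 b3 b4
      have e1 : i1 = j1 := nm_inj.mp (a1.symm.trans b1)
      have e2 : i2 = j2 := by
        have := a2.symm.trans b2
        revert this
        cases i2 <;> cases j2 <;> simp
      have e3 : i3 = j3 := nmo_inj.mp (a3.symm.trans b3)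
      have e4 : i4 = j4 := by
        funext k
        have := (a4 (Finite.equivFin K k)).symm.trans (b4 (Finite.equivFin K k))
        rw [Equiv.symm_apply_apply] at this
        exact nmo_inj.mp this
      rw [e1, e2, e3, e4])
  refine ⟨S, hS, fun a b c => ?_⟩
  rw [h (c.q, b, look a (c.s M.adr).length, fun k => (c.s k).head?) (a, b.toNat, cc M c)
    ⟨rfl, rfl, rfl, fun j => st_mod _⟩]
  have hlen : look a ((c.s M.adr).map M.bit).length = look a (c.s M.adr).length := by
    rw [List.length_map]
  by_cases ho : (M.out c.q).isSome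
  · rw [if_pos ho, M.step_halted _ _ _ ho]
  · rw [if_neg ho, M.step_live _ _ _ (by simpa using ho)]
    unfold cc
    simp only [hlen]
    congr 1
    congr 1
    · exact opH_len _ _
    · funext j
      exact opN_st _ _

/-- the state of a code -/
theorem pr_state (P : Q → Prop) : Pr C (fun x : CC K => ∃ q : Q, P q ∧ x.1 = nm q) := by
  refine Pr_finex fun q => ?_
  exact (Pr.const (P q)).and (by fun_prop)

theorem state_iff (M : Mach Δ Q Γ K) (P : Q → Prop) (c : Cfg Q Γ K) :
    (∃ q : Q, P q ∧ (cc M c).1 = nm q) ↔ P c.q := by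
  constructor
  · rintro ⟨q, hq, h⟩
    have : c.q = q := nm_inj.mp h
    rwa [this]
  · intro h
    exact ⟨c.q, h, rfl⟩

/-! ### The length of the codes -/

theorem size_st_le {Γ : Type} [Finite Γ] (l : List Γ) :
    Nat.size (st l) ≤ l.length * (Nat.size (Nat.card Γ + 1)) := by
  have h : st l < (Nat.card Γ + 1) ^ l.length := by
    induction l with
    | nil => simp [st_nil]
    | cons g l ih =>
      rw [st_cons, List.length_cons, pow_succ]
      have := nm_lt g
      nlinarith
  rw [Nat.size_le, mul_comm, pow_mul]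
  exact h.trans_le (Nat.pow_le_pow_left (Nat.lt_size_self _).le _)

theorem sz_cc_le (M : Mach Δ Q Γ K) : ∃ c', ∀ (c : Cfg Q Γ K) (B : ℕ),
    (∀ i, (c.s i).length ≤ B) → sz (cc M c) ≤ c' * (B + 1) := by
  refine ⟨Nat.size (Nat.card Q) + 1 + Nat.card K * Nat.size (Nat.card Γ + 1), fun c B hB => ?_⟩
  have h1 : Nat.size (nm c.q) ≤ Nat.size (Nat.card Q) := size_mono (nm_lt c.q).le
  have h2 : Nat.size (c.s M.adr).length ≤ B := (size_le_self _).trans (hB _)
  have h3 : sz (fun i => st (c.s ((Finite.equivFin K).symm i)) : Fin (Nat.card K) → ℕ) ≤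
      Nat.card K * (B * Nat.size (Nat.card Γ + 1)) :=
    tsz_le _ fun i => (size_st_le _).trans (Nat.mul_le_mul_right _ (hB _))
  show sz ((nm c.q, (c.s M.adr).length, fun i => st (c.s ((Finite.equivFin K).symm i))) : CC K) ≤ _
  rw [sz_prod, sz_prod, sz_nat, sz_nat]
  nlinarith [Nat.zero_le (Nat.card K * Nat.size (Nat.card Γ + 1)), Nat.zero_le B,
    Nat.zero_le (Nat.size (Nat.card Q))]

end LSC
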