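import Pool.Agent.H85P.Trace
import Pool.Agent.H85P.Loader

/-!
# The languages of deterministic linear exponential time, and graphs for the space kinds
-/

set_option autoImplicit false

namespace LSC

open H85L LSP

variable {C : NClass} [Calc C] {Δ : Type}

theorem accepts_det {Q Γ K : Type} {M : Mach Δ Q Γ K} (h : M.Det) (v : View Δ) {B B' : ℕ}
    (hb : M.Bounded true v B) (hB : B ≤ B') :
    M.Accepts v ↔ M.out (M.run v (fun _ => false) (2 ^ B')).q = some true := by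
  have h1 := hb.mono hB
  unfold Mach.Bounded at h1
  rw [if_pos rfl] at h1
  constructor
  · rintro ⟨g, t, hgt⟩
    rw [run_det h v g (fun _ => false)] at hgt
    have h2 : (M.out (M.run v (fun _ => false) t).q).isSome := by rw [hgt]; rfl
    have h3 : (M.out (M.run v (fun _ => false) (2 ^ B')).q).isSome := h1 _
    have h4 := M.runFrom_halted v (fun _ => false) M.init t (2 ^ B') h2
    have h5 := M.runFrom_halted v (fun _ => false) M.init (2 ^ B') t h3
    rw [add_comm] at h5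
    have h6 : M.run v (fun _ => false) (2 ^ B') = M.run v (fun _ => false) t := h5.symm.trans h4
    rw [h6, hgt]
  · intro h
    exact ⟨_, _, h⟩

variable [Finite Δ]

/-- the trace for a language of deterministic linear exponential time -/
theorem lin_trace {κ : Kind} (ht : κ.time = true) (hd : κ.det = true) {L : Set (List Δ)}
    (h : LinClass κ L) {wd : ℕ → List Δ} (hl : Fn C (fun p : ℕ × ℕ => nmo ((wd p.1)[p.2]?)))
    (hlen : ∀ a, (wd a).length ≤ Nat.size a) :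
    ∃ (r : ℕ) (g : ℕ → ℕ) (P : Fin r → ℕ × ℕ × ℕ → ℕ)
      (H : ℕ × ℕ × ℕ × (Fin r → ℕ) → ℕ) (o : ℕ × ℕ → Prop) (R : ℕ → ℕ → ℕ) (c : ℕ),
      Fn C g ∧ (∀ j, Fn C (P j)) ∧ Fn C H ∧ Pr C o ∧ (∀ a, R a 0 = g a) ∧
      (∀ a t, R a (t + 1) = H (a, t, R a t, fun j => R a (min (P j (a, t, R a t)) t))) ∧
      (∀ a t, R a t < 2 ^ (c * (Nat.size a + 1))) ∧
      ∀ a, wd a ∈ L ↔ o (a, R a (2 ^ (c * (Nat.size a + 1)))) := by
  obtain ⟨Q, Γ, K, _, _, _, M, hdet, c, hM⟩ := h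
  rw [ht] at hM
  obtain ⟨g, P, H, o, R, c', h1, h2, h3, h4, h5, h6, h7, h8⟩ := time_trace (C := C) M
    (look := fun (X : ℕ) i => (wd X)[i]?) hl c
  refine ⟨_, g, P, H, o, R, c', h1, h2, h3, h4, h5, h6, fun a t => ?_, fun a => ?_⟩
  · have := h7 a t
    rwa [sz_nat] at this
  · have h9 := h8 a
    rw [sz_nat] at h9
    rw [h9]
    refine (hM (wd a)).2.trans (accepts_det (hdet hd) _ (hM (wd a)).1 ?_)
    exact Nat.mul_le_mul_left c (Nat.add_le_add_right (hlen a) 1)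

/-- the graph for a language of linear space -/
theorem lin_graph {κ : Kind} (ht : κ.time = false) {L : Set (List Δ)}
    (h : LinClass κ L) {wd : ℕ → List Δ} (hl : Fn C (fun p : ℕ × ℕ => nmo ((wd p.1)[p.2]?)))
    (hlen : ∀ a, (wd a).length ≤ Nat.size a) :
    ∃ (E : ℕ → ℕ → ℕ → Prop) (N u0 : ℕ → ℕ) (A : ℕ → ℕ → Prop) (c : ℕ),
      Pr C (fun p : ℕ × ℕ × ℕ => E p.1 p.2.1 p.2.2) ∧ Fn C N ∧ Fn C u0 ∧
      Pr C (fun p : ℕ × ℕ => A p.1 p.2) ∧ (∀ a, N a = 2 ^ (c * (sz a + 1))) ∧ (∀ a, u0 a < N a) ∧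
      ∀ a, wd a ∈ L ↔ ∃ v < N a, A a v ∧ Reach (E a) (N a) (N a) (u0 a) v := by
  obtain ⟨Q, Γ, K, _, _, _, M, hdet, c, hM⟩ := h
  rw [ht] at hM
  obtain ⟨E, N, u0, A, c', hE, hN, hu0, hA, hNc, hlt, hacc⟩ := space_graph (C := C) M
    (look := fun (X : ℕ) i => (wd X)[i]?) hl (c0 := c) (fun X g t i => by
      refine ((hM (wd X)).1 g t i).trans (Nat.mul_le_mul_left c ?_)
      have := hlen X
      rw [sz_nat]
      omega)
  exact ⟨E, N, u0, A, c', hE, hN, hu0, hA, hNc, hlt, fun a => (hM (wd a)).2.trans (hacc a)⟩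

/-- a recursion with the history belongs to the classes of the time kinds -/
theorem fn_trace {κ : Kind} (ht : κ.time = true) {r : ℕ} {g : ℕ → ℕ} {P : Fin r → ℕ × ℕ × ℕ → ℕ}
    {H : ℕ × ℕ × ℕ × (Fin r → ℕ) → ℕ} {R : ℕ → ℕ → ℕ} {c : ℕ} (hg : Fn (KC κ) g)
    (hP : ∀ j, Fn (KC κ) (P j)) (hH : Fn (KC κ) H) (h0 : ∀ a, R a 0 = g a)
    (h1 : ∀ a t, R a (t + 1) = H (a, t, R a t, fun j => R a (min (P j (a, t, R a t)) t)))
    (h2 : ∀ a t, R a t < 2 ^ (c * (Nat.size a + 1))) :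
    Fn (KC κ) (fun p : ℕ × ℕ => R p.1 p.2) := by
  refine Fn.hist ht hg hP hH h0 h1 ⟨c + 1, fun a t => ?_⟩
  have := Nat.size_le.mpr (h2 a t)
  rw [sz_nat]
  nlinarith [Nat.zero_le (c * Nat.size t), Nat.zero_le (Nat.size a), Nat.zero_le (Nat.size t)]

/-- the languages of deterministic linear exponential time are decided in the class of the kind -/
theorem lin_time {κ : Kind} (ht : κ.time = true) (hd : κ.det = true) {L : Set (List Δ)}
    (h : LinClass κ L) : Pr (KC κ) (fun X : ℕ => (dec X : List Δ) ∈ L) := by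
  obtain ⟨r, g, P, H, o, R, c, h1, h2, h3, h4, h5, h6, h7, h8⟩ := lin_trace (C := KC κ) ht hd h
    (wd := dec) fn_look dec_len
  have hR := fn_trace ht h1 h2 h3 h5 h6 h7
  have hp := fn_pow2size (C := KC κ) c
  have h9 : Fn (KC κ) (fun a : ℕ => 2 ^ (c * (Nat.size a + 1))) :=
    (by fun_prop : Fn (KC κ) fun a : ℕ => 2 ^ (c * Nat.size a) * 2 ^ c).congr fun a => by
      rw [← pow_add]
      ring_nf
  have h10 : Fn (KC κ) (fun a : ℕ => R a (2 ^ (c * (Nat.size a + 1)))) :=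
    hR.comp (f := fun a : ℕ => (a, 2 ^ (c * (Nat.size a + 1)))) (by fun_prop)
  exact (h4.comp (f := fun a : ℕ => (a, R a (2 ^ (c * (Nat.size a + 1))))) (by fun_prop)).congr h8

/-- the languages of `DLBA`, `LBA`, `E` are decided in the class of the kind -/
theorem lin_pr {κ : Kind} (hκ : κ.det = true ∨ κ.time = false) {L : Set (List Δ)}
    (h : LinClass κ L) : Pr (KC κ) (fun X : ℕ => (dec X : List Δ) ∈ L) := by
  cases ht : κ.time with
  | false => exact lin_space ht h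
  | true =>
    refine lin_time ht ?_ h
    rcases hκ with hd | h0
    · exact hd
    · rw [ht] at h0
      exact absurd h0 (by simp)

/-- the languages of `DLBA`, `LBA`, `E` are given by the predicates of the class of the kind -/
theorem lin_iff {κ : Kind} (hκ : κ.det = true ∨ κ.time = false) {L : Set (List Δ)} :
    LinClass κ L ↔ Pr (KC κ) (fun X : ℕ => (dec X : List Δ) ∈ L) := by
  refine ⟨lin_pr hκ, fun h => ?_⟩
  have h1 := lin_of_pr (Δ := Δ) h
  have h2 : {w : List Δ | (dec (st w) : List Δ) ∈ L} = L := by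
    ext w
    show (dec (st w) : List Δ) ∈ L ↔ _
    rw [dec_st]
  rwa [h2] at h1

end LSC
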