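import Pool.Agent.H85P.Lift

/-!
# The trace of a deterministic machine

The record of the configuration at the time `t` consists of the numbers of the state, of the height of the
address stack, of the top letters and, for every stack, of an earlier time at which the stack was the
present stack without its top letter. The record at the time `t + 1` is computed from the record at the
time `t` and the records at the times given by its pointers.
-/

set_option autoImplicit false

namespace LSC

open H85L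

variable {C : NClass} [Calc C] {α : Type} [Ctx α]
variable {Δ Q Γ K : Type} [Finite Δ] [Finite Q] [Finite Γ] [Finite K]

/-- the type of the records -/
abbrev CR (K : Type) : Type := ℕ × ℕ × (Fin (Nat.card K) → ℕ) × (Fin (Nat.card K) → ℕ)

/-- the new top letter -/
noncomputable def opT {Γ : Type} [Finite Γ] (o : Op Γ) (x y : ℕ) : ℕ := match o with
  | .stay => x
  | .pop => y
  | .push g => nm g + 1

/-- the new pointer -/
def opP {Γ : Type} (o : Op Γ) (t x y : ℕ) : ℕ := match o with
  | .stay => x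
  | .pop => y
  | .push _ => t

theorem fn_opT (o : Op Γ) {f g : α → ℕ} (hf : Fn C f) (hg : Fn C g) :
    Fn C (fun a => opT o (f a) (g a)) := by
  cases o with
  | stay => exact hf
  | pop => exact hg
  | push g => exact Fn.const _

omit [Calc C] in
theorem fn_opP {Γ : Type} (o : Op Γ) {f g h : α → ℕ} (hf : Fn C f) (hg : Fn C g) (hh : Fn C h) :
    Fn C (fun a => opP o (f a) (g a) (h a)) := by
  cases o with
  | stay => exact hg
  | pop => exact hh
  | push g => exact hf

/-- the record describes the configuration at the time `t` of a sequence of configurations -/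
def Rec (M : Mach Δ Q Γ K) (run : ℕ → Cfg Q Γ K) (t : ℕ) (x : CR K) : Prop :=
  x.1 = nm (run t).q ∧ x.2.1 = ((run t).s M.adr).length ∧
    (∀ j, x.2.2.1 j = nmo ((run t).s ((Finite.equivFin K).symm j)).head?) ∧
    ∀ j, x.2.2.2 j ≤ t ∧ (run (x.2.2.2 j)).s ((Finite.equivFin K).symm j) =
      ((run t).s ((Finite.equivFin K).symm j)).tail

/-- the type of the data for the next record -/
abbrev CS (α K : Type) : Type :=
  α × ℕ × CR K × (Fin (Nat.card K) → ℕ) × (Fin (Nat.card K) → ℕ)

/-- the next record -/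
theorem exists_rstep (M : Mach Δ Q Γ K) {look : α → ℕ → Option Δ}
    (hl : Fn C (fun p : α × ℕ => nmo (look p.1 p.2))) :
    ∃ S : CS α K → CR K, Fn C S ∧
      ∀ a t x tp pp, Rec M (M.run (fun q => look a q.length) fun _ => false) t x →
        (∀ j, ∃ y, Rec M (M.run (fun q => look a q.length) fun _ => false) (x.2.2.2 j) y ∧
          tp j = y.2.2.1 j ∧ pp j = y.2.2.2 j) →
        Rec M (M.run (fun q => look a q.length) fun _ => false) (t + 1) (S (a, t, x, tp, pp)) := by
  obtain ⟨S, hS, h⟩ := exists_cases (C := C) (ι := Q × Option Δ × (K → Option Γ))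
    (α := CS α K) (β := CR K)
    (fun i p => p.2.2.1.1 = nm i.1 ∧ nmo (look p.1 p.2.2.1.2.1) = nmo i.2.1 ∧
      ∀ j, p.2.2.1.2.2.1 j = nmo (i.2.2 ((Finite.equivFin K).symm j)))
    (fun i => by
      have h1 : Fn C (fun p : CS α K => nmo (look p.1 p.2.2.1.2.1)) :=
        hl.comp (f := fun p : CS α K => (p.1, p.2.2.1.2.1)) (by fun_prop)
      have h2 : Pr C (fun p : CS α K =>
          ∀ j, p.2.2.1.2.2.1 j = nmo (i.2.2 ((Finite.equivFin K).symm j))) := by
        refine Pr_fin fun j => ?_
        have h3 : Fn C (fun p : CS α K => p.2.2.1.2.2.1 j) :=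
          Fn.apply (f := fun p : CS α K => p.2.2.1.2.2.1) (by fun_prop) j
        fun_prop
      fun_prop)
    (fun i p => if (M.out i.1).isSome then p.2.2.1 else
      (nm (M.next i.1 i.2.2 i.2.1 false).1,
        opH ((M.next i.1 i.2.2 i.2.1 false).2 M.adr) p.2.2.1.2.1,
        (fun j => opT ((M.next i.1 i.2.2 i.2.1 false).2 ((Finite.equivFin K).symm j))
          (p.2.2.1.2.2.1 j) (p.2.2.2.1 j)),
        fun j => opP ((M.next i.1 i.2.2 i.2.1 false).2 ((Finite.equivFin K).symm j)) p.2.1
          (p.2.2.1.2.2.2 j) (p.2.2.2.2 j)))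
    (fun i => by
      by_cases ho : (M.out i.1).isSome
      · simp only [if_pos ho]
        fun_prop
      · simp only [if_neg ho]
        have g1 : ∀ j, Fn C (fun p : CS α K => p.2.2.1.2.2.1 j) := fun j =>
          Fn.apply (f := fun p : CS α K => p.2.2.1.2.2.1) (by fun_prop) j
        have g2 : ∀ j, Fn C (fun p : CS α K => p.2.2.1.2.2.2 j) := fun j =>
          Fn.apply (f := fun p : CS α K => p.2.2.1.2.2.2) (by fun_prop) j
        have g3 : ∀ j, Fn C (fun p : CS α K => p.2.2.2.1 j) := fun j =>
          Fn.apply (f := fun p : CS α K => p.2.2.2.1) (by fun_prop) j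
        have g4 : ∀ j, Fn C (fun p : CS α K => p.2.2.2.2 j) := fun j =>
          Fn.apply (f := fun p : CS α K => p.2.2.2.2) (by fun_prop) j
        refine (Fn.const _).pair (Fn.pair (fn_opH _ (by fun_prop)) (Fn.pair (Fn.pi fun j => ?_)
          (Fn.pi fun j => ?_)))
        · exact fn_opT _ (g1 j) (g3 j)
        · exact fn_opP _ (by fun_prop) (g2 j) (g4 j))
    (fun i j p h1 h2 => by
      obtain ⟨i1, i3, i4⟩ := i
      obtain ⟨j1, j3, j4⟩ := j
      obtain ⟨a1, a3, a4⟩ := h1
      obtain ⟨b1, b3, b4⟩ := h2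
      simp only at a1 a3 a4 b1 b3 b4
      have e1 : i1 = j1 := nm_inj.mp (a1.symm.trans b1)
      have e3 : i3 = j3 := nmo_inj.mp (a3.symm.trans b3)
      have e4 : i4 = j4 := by
        funext k
        have := (a4 (Finite.equivFin K k)).symm.trans (b4 (Finite.equivFin K k))
        rw [Equiv.symm_apply_apply] at this
        exact nmo_inj.mp this
      rw [e1, e3, e4])
  refine ⟨S, hS, fun a t x tp pp hr hrs => ?_⟩
  set run := M.run (fun q => look a q.length) fun _ => false with hrun
  obtain ⟨r1, r2, r3, r4⟩ := hr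
  have hcase := h ((run t).q, look a ((run t).s M.adr).length, fun k => ((run t).s k).head?)
    (a, t, x, tp, pp) ⟨r1, by
      show nmo (look a x.2.1) = _
      rw [r2], r3⟩
  rw [hcase]
  have hlen : look a (((run t).s M.adr).map M.bit).length = look a ((run t).s M.adr).length := by
    rw [List.length_map]
  have hst : run (t + 1) = M.step (fun q => look a q.length) false (run t) := rfl
  by_cases ho : (M.out (run t).q).isSome
  · rw [if_pos ho]
    have h1 : run (t + 1) = run t := by rw [hst, M.step_halted _ _ _ ho]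
    refine ⟨by rw [h1]; exact r1, by rw [h1]; exact r2, fun j => by rw [h1]; exact r3 j,
      fun j => ⟨(r4 j).1.trans (Nat.le_succ t), by rw [h1]; exact (r4 j).2⟩⟩
  · rw [if_neg ho]
    have h1 : run (t + 1) = ⟨(M.next (run t).q (fun i => ((run t).s i).head?)
          (look a ((run t).s M.adr).length) false).1,
        fun i => ((M.next (run t).q (fun i => ((run t).s i).head?)
          (look a ((run t).s M.adr).length) false).2 i).app ((run t).s i)⟩ := by
      rw [hst, M.step_live _ _ _ (by simpa using ho)]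
      simp only [hlen]
    refine ⟨?_, ?_, fun j => ?_, fun j => ?_⟩
    · rw [h1]
    · rw [h1]
      show opH _ x.2.1 = _
      rw [r2]
      exact opH_len _ _
    · rw [h1]
      obtain ⟨y, hy, hy1, -⟩ := hrs j
      show opT _ (x.2.2.1 j) (tp j) = nmo (Op.app _ _).head?
      rw [r3 j, hy1, hy.2.2.1 j, (r4 j).2]
      cases ((M.next (run t).q (fun i => ((run t).s i).head?)
          (look a ((run t).s M.adr).length) false).2 ((Finite.equivFin K).symm j)) with
      | stay => rfl
      | pop => rfl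
      | push g => rfl
    · obtain ⟨y, hy, -, hy2⟩ := hrs j
      have h4 := r4 j
      have h3 := hy.2.2.2 j
      have h5 : (run (t + 1)).s ((Finite.equivFin K).symm j) =
          ((M.next (run t).q (fun i => ((run t).s i).head?)
            (look a ((run t).s M.adr).length) false).2 ((Finite.equivFin K).symm j)).app
            ((run t).s ((Finite.equivFin K).symm j)) := by rw [h1]
      show opP _ t (x.2.2.2 j) (pp j) ≤ t + 1 ∧ (run (opP _ t (x.2.2.2 j) (pp j))).s _ = _
      rw [h5, hy2]
      cases ((M.next (run t).q (fun i => ((run t).s i).head?)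
          (look a ((run t).s M.adr).length) false).2 ((Finite.equivFin K).symm j)) with
      | stay => exact ⟨h4.1.trans (Nat.le_succ t), h4.2⟩
      | pop =>
        refine ⟨h3.1.trans (h4.1.trans (Nat.le_succ t)), ?_⟩
        show (run (y.2.2.2 j)).s _ = ((run t).s _).tail.tail
        rw [h3.2, h4.2]
      | push g => exact ⟨Nat.le_succ t, rfl⟩

theorem e_lt_prod {α β : Type} [Ctx α] [Ctx β] {a : α} {b : β} {n : ℕ} (ha : ∀ j, e a j < n)
    (hb : ∀ j, e b j < n) (j : Fin (dim (α × β))) : e (a, b) j < n := by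
  show Fin.append (e a) (e b) j < n
  refine Fin.addCases (fun i => ?_) (fun i => ?_) j
  · rw [Fin.append_left]
    exact ha i
  · rw [Fin.append_right]
    exact hb i

omit [Finite K] in
theorem e_cr (x : CR K) (n : ℕ) (h1 : x.1 < n) (h2 : x.2.1 < n) (h3 : ∀ j, x.2.2.1 j < n)
    (h4 : ∀ j, x.2.2.2 j < n) : ∀ j, e x j < n := by
  obtain ⟨x1, x2, x3, x4⟩ := x
  exact e_lt_prod (fun _ => h1) (e_lt_prod (fun _ => h2) (e_lt_prod h3 h4))

/-- the trace -/
theorem time_trace (M : Mach Δ Q Γ K) {look : α → ℕ → Option Δ}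
    (hl : Fn C (fun p : α × ℕ => nmo (look p.1 p.2))) (c0 : ℕ) :
    ∃ (g : α → ℕ) (P : Fin (Nat.card K) → α × ℕ × ℕ → ℕ)
      (H : α × ℕ × ℕ × (Fin (Nat.card K) → ℕ) → ℕ) (o : α × ℕ → Prop) (R : α → ℕ → ℕ) (c : ℕ),
      Fn C g ∧ (∀ j, Fn C (P j)) ∧ Fn C H ∧ Pr C o ∧ (∀ a, R a 0 = g a) ∧
      (∀ a t, R a (t + 1) = H (a, t, R a t, fun j => R a (min (P j (a, t, R a t)) t))) ∧
      (∀ a t, R a t < 2 ^ (c * (sz a + 1))) ∧
      ∀ a, o (a, R a (2 ^ (c * (sz a + 1)))) ↔
        M.out (M.run (fun q => look a q.length) (fun _ => false) (2 ^ (c0 * (sz a + 1)))).q =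
          some true := by
  obtain ⟨S, hS, hSr⟩ := exists_rstep (C := C) M hl
  set D := dim (CR K) with hD
  have hD2 : 1 ≤ D := by
    show 1 ≤ 1 + (1 + (Nat.card K + Nat.card K))
    omega
  set c1 := c0 + Nat.size (Nat.card Q) + Nat.size (Nat.card Γ + 1) + 1 with hc1
  set T : α → ℕ := fun a => 2 ^ (c0 * (sz a + 1)) with hT
  set b : α → ℕ := fun a => c1 * (sz a + 1) with hb
  have fb : Fn C b := by rw [hb]; fun_prop
  have fT : Fn C T := Fn.pow2 (by fun_prop) c0 fun a => le_rfl
  have fup : ∀ {β : Type} [Ctx β] {f : β → α} {y : β → ℕ}, Fn C f → Fn C y → (∀ p, sz (f p) ≤ sz p) →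
      Fn C (fun p : β => (upk (b (f p)) (y p) : CR K)) := by
    intro β _ f y hf hy hsz
    exact Fn.upk (c := c1) (fb.comp hf) (fun p => Nat.mul_le_mul_left c1 (by have := hsz p; omega)) hy
  set g : α → ℕ := fun a => pk (b a) ((nm M.start, 0, fun _ => 0, fun _ => 0) : CR K) with hg
  set P : Fin (Nat.card K) → α × ℕ × ℕ → ℕ := fun j p => (upk (b p.1) p.2.2 : CR K).2.2.2 j with hP
  set H : α × ℕ × ℕ × (Fin (Nat.card K) → ℕ) → ℕ := fun p =>
    if p.2.1 < T p.1 then pk (b p.1) (S (p.1, p.2.1, upk (b p.1) p.2.2.1,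
      (fun j => (upk (b p.1) (p.2.2.2 j) : CR K).2.2.1 j),
      fun j => (upk (b p.1) (p.2.2.2 j) : CR K).2.2.2 j)) % 2 ^ (b p.1 * D) else p.2.2.1 with hH
  set o : α × ℕ → Prop := fun p => ∃ q : Q, M.out q = some true ∧ (upk (b p.1) p.2 : CR K).1 = nm q
    with ho
  have fg : Fn C g := Fn.pk (c := c1) fb (fun a => le_rfl) (Fn.const _)
  have fP : ∀ j, Fn C (P j) := by
    intro j
    refine Fn.apply (f := fun p : α × ℕ × ℕ => (upk (b p.1) p.2.2 : CR K).2.2.2) ?_ j
    exact (fup (f := fun p : α × ℕ × ℕ => p.1) (by fun_prop) (by fun_prop) fun p => by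
      obtain ⟨a, q⟩ := p
      rw [sz_prod]
      exact Nat.le_add_right _ _).snd'.snd'.snd'
  have fH : Fn C H := by
    have hle : ∀ p : α × ℕ × ℕ × (Fin (Nat.card K) → ℕ), sz p.1 ≤ sz p := fun p => by
      obtain ⟨a, q⟩ := p
      rw [sz_prod]
      exact Nat.le_add_right _ _
    have f1 := fup (f := fun p : α × ℕ × ℕ × (Fin (Nat.card K) → ℕ) => p.1)
      (y := fun p => p.2.2.1) (by fun_prop) (by fun_prop) hle
    have f2 : ∀ j, Fn C (fun p : α × ℕ × ℕ × (Fin (Nat.card K) → ℕ) =>
        (upk (b p.1) (p.2.2.2 j) : CR K)) := fun j =>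
      fup (f := fun p : α × ℕ × ℕ × (Fin (Nat.card K) → ℕ) => p.1)
        (y := fun p => p.2.2.2 j) (by fun_prop)
        (Fn.apply (f := fun p : α × ℕ × ℕ × (Fin (Nat.card K) → ℕ) => p.2.2.2) (by fun_prop) j) hle
    have f3 : Fn C (fun p : α × ℕ × ℕ × (Fin (Nat.card K) → ℕ) =>
        fun j => (upk (b p.1) (p.2.2.2 j) : CR K).2.2.1 j) := Fn.pi fun j =>
      Fn.apply (f := fun p : α × ℕ × ℕ × (Fin (Nat.card K) → ℕ) =>
        (upk (b p.1) (p.2.2.2 j) : CR K).2.2.1) (f2 j).snd'.snd'.fst' j
    have f4 : Fn C (fun p : α × ℕ × ℕ × (Fin (Nat.card K) → ℕ) =>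
        fun j => (upk (b p.1) (p.2.2.2 j) : CR K).2.2.2 j) := Fn.pi fun j =>
      Fn.apply (f := fun p : α × ℕ × ℕ × (Fin (Nat.card K) → ℕ) =>
        (upk (b p.1) (p.2.2.2 j) : CR K).2.2.2) (f2 j).snd'.snd'.snd' j
    have f5 : Fn C (fun p : α × ℕ × ℕ × (Fin (Nat.card K) → ℕ) =>
        S (p.1, p.2.1, upk (b p.1) p.2.2.1,
        (fun j => (upk (b p.1) (p.2.2.2 j) : CR K).2.2.1 j),
        fun j => (upk (b p.1) (p.2.2.2 j) : CR K).2.2.2 j)) :=
      hS.comp ((by fun_prop : Fn C fun p : α × ℕ × ℕ × (Fin (Nat.card K) → ℕ) => p.1).pair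
        ((by fun_prop : Fn C fun p : α × ℕ × ℕ × (Fin (Nat.card K) → ℕ) => p.2.1).pair
          (f1.pair (f3.pair f4))))
    have f6 := Fn.pk (c := c1) (b := fun p : α × ℕ × ℕ × (Fin (Nat.card K) → ℕ) => b p.1)
      (by fun_prop) (fun p => Nat.mul_le_mul_left c1 (by have := hle p; omega)) f5
    have f7 := fn_pow2mul (C := C) (c := c1) (b := fun p : α × ℕ × ℕ × (Fin (Nat.card K) → ℕ) => b p.1)
      (by fun_prop) (fun p => Nat.mul_le_mul_left c1 (by have := hle p; omega)) D
    exact Fn.ite (by fun_prop) (f6.mod f7) (by fun_prop)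
  have fo : Pr C o := by
    refine Pr_finex fun q => (Pr.const _).and ?_
    have f1 := fup (f := fun p : α × ℕ => p.1) (y := fun p => p.2) (by fun_prop) (by fun_prop)
      (fun p => by
        obtain ⟨a, q⟩ := p
        rw [sz_prod]
        exact Nat.le_add_right _ _)
    exact Pr.eq f1.fst' (Fn.const _)
  choose R hR0 hR1 using fun a => exists_hist (g a) (fun t x (j : Fin (Nat.card K)) => P j (a, t, x))
    (fun t x ys => H (a, t, x, ys))
  -- the size of the components
  have hlt : ∀ a t x, t ≤ T a → Rec M (M.run (fun q => look a q.length) fun _ => false) t x →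
      ∀ j, e x j < 2 ^ b a := by
    intro a t x ht hr
    have hcs : ∀ n : ℕ, n ≤ c1 → n ≤ c1 * (sz a + 1) := fun n hn =>
      hn.trans (Nat.le_mul_of_pos_right _ (Nat.succ_pos _))
    have hTb : T a < 2 ^ b a := by
      refine Nat.pow_lt_pow_right (by norm_num) ?_
      rw [hb]
      exact Nat.mul_lt_mul_of_pos_right (by omega) (Nat.succ_pos _)
    refine e_cr x _ ?_ ?_ (fun j => ?_) fun j => ?_
    · rw [hr.1]
      exact (nm_lt _).trans ((Nat.lt_size_self _).trans_le
        (Nat.pow_le_pow_right (by norm_num) (hcs _ (by omega))))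
    · rw [hr.2.1]
      have := M.runFrom_length_le (fun q => look a q.length) (fun _ => false) M.init t M.adr
      have h0 : (M.init.s M.adr).length = 0 := rfl
      exact lt_of_le_of_lt (this.trans (by omega)) hTb
    · rw [hr.2.2.1 j]
      exact (nmo_lt _).trans ((Nat.lt_size_self _).trans_le
        (Nat.pow_le_pow_right (by norm_num) (hcs _ (by omega))))
    · exact lt_of_le_of_lt ((hr.2.2.2 j).1.trans ht) hTb
  have hrec : ∀ a t, t ≤ T a →
      Rec M (M.run (fun q => look a q.length) fun _ => false) t (upk (b a) (R a t)) := by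
    intro a t
    induction t using Nat.strong_induction_on with
    | _ t ih =>
      intro ht
      cases t with
      | zero =>
        have h1 : Rec M (M.run (fun q => look a q.length) fun _ => false) 0
            ((nm M.start, 0, fun _ => 0, fun _ => 0) : CR K) :=
          ⟨rfl, rfl, fun j => rfl, fun j => ⟨le_rfl, rfl⟩⟩
        rw [hR0, hg]
        simp only
        rw [upk_pk' _ _ (hlt a 0 _ ht h1)]
        exact h1
      | succ t =>
        have h1 := ih t (Nat.lt_succ_self t) (by omega)
        have h2 := hSr a t (upk (b a) (R a t))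
          (fun j => (upk (b a) (R a (min (P j (a, t, R a t)) t)) : CR K).2.2.1 j)
          (fun j => (upk (b a) (R a (min (P j (a, t, R a t)) t)) : CR K).2.2.2 j) h1 (fun j => by
            have h3 : min (P j (a, t, R a t)) t = (upk (b a) (R a t) : CR K).2.2.2 j :=
              min_eq_left (h1.2.2.2 j).1
            refine ⟨_, ?_, rfl, rfl⟩
            rw [h3]
            exact ih _ (by have := (h1.2.2.2 j).1; omega) ((h1.2.2.2 j).1.trans (by omega)))
        have h4 := hlt a (t + 1) _ ht h2
        have h5 := pk_lt' _ _ h4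
        rw [hR1, hH]
        simp only
        rw [if_pos (by omega), Nat.mod_eq_of_lt h5, upk_pk' _ _ h4]
        exact h2
  have hfrz : ∀ a t, T a ≤ t → R a t = R a (T a) := by
    intro a t ht
    induction t, ht using Nat.le_induction with
    | base => rfl
    | succ t ht ih =>
      rw [hR1, hH]
      simp only
      rw [if_neg (by omega), ih]
  refine ⟨g, P, H, o, R, c1 * D, fg, fP, fH, fo, hR0, hR1, fun a t => ?_, fun a => ?_⟩
  · have e1 : c1 * D * (sz a + 1) = b a * D := by rw [hb]; ring
    rw [e1]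
    induction t with
    | zero =>
      rw [hR0]
      refine pk_lt' _ _ (e_cr _ _ ?_ (by positivity) (fun _ => by positivity) fun _ => by positivity)
      exact (nm_lt _).trans ((Nat.lt_size_self _).trans_le (Nat.pow_le_pow_right (by norm_num)
        ((show Nat.size (Nat.card Q) ≤ c1 by omega).trans
          (Nat.le_mul_of_pos_right _ (Nat.succ_pos _)))))
    | succ t ih =>
      rw [hR1, hH]
      simp only
      split_ifs with h
      · exact Nat.mod_lt _ (by positivity)
      · exact ih
  · have h1 : T a ≤ 2 ^ (c1 * D * (sz a + 1)) := by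
      refine Nat.pow_le_pow_right (by norm_num) (Nat.mul_le_mul_right _ ?_)
      calc c0 ≤ c1 * 1 := by omega
        _ ≤ c1 * D := Nat.mul_le_mul_left _ hD2
    rw [hfrz a _ h1]
    have h2 := hrec a (T a) le_rfl
    show (∃ q : Q, M.out q = some true ∧ (upk (b a) (R a (T a)) : CR K).1 = nm q) ↔ _
    rw [h2.1]
    constructor
    · rintro ⟨q, hq, h⟩
      rw [nm_inj.mp h]
      exact hq
    · intro h
      exact ⟨_, h, rfl⟩

end LSC
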