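import Pool.Agent.H85P.IS

/-!
# Words as numbers, and the black boxes for the space kinds

`dec X` is the word over the finite alphabet `Δ` whose letters are the digits of `X` in the base
`Nat.card Δ + 1`, up to the first digit `0`; `dec (st w) = w`.
-/

set_option autoImplicit false

namespace LSC

open H85L LSP Function

variable {C : NClass} [Calc C] {α β : Type} [Ctx α] [Ctx β]

/-- the letter with the number `d - 1` -/
noncomputable def unm {X : Type} [Finite X] (d : ℕ) : Option X :=
  if h : 0 < d ∧ d ≤ Nat.card X then some ((Finite.equivFin X).symm ⟨d - 1, by omega⟩) else none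

theorem unm_nmo {X : Type} [Finite X] (o : Option X) : unm (nmo o) = o := by
  cases o with
  | none => simp [unm]
  | some x =>
    unfold unm
    have := nm_lt x
    rw [dif_pos ⟨by simp, by simp; omega⟩]
    congr 1
    rw [Equiv.symm_apply_eq]
    exact Fin.ext (by simp [nm])

theorem nmo_unm {X : Type} [Finite X] {d : ℕ} (h : d ≤ Nat.card X) : nmo (unm d : Option X) = d := by
  unfold unm
  by_cases hd : 0 < d
  · rw [dif_pos ⟨hd, h⟩, nmo_some]
    unfold nm
    rw [Equiv.apply_symm_apply]
    show d - 1 + 1 = d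
    omega
  · rw [dif_neg (by omega), nmo_none]
    omega

variable {Δ : Type} [Finite Δ]

/-- decoding with fuel -/
noncomputable def decF : ℕ → ℕ → List Δ
  | 0, _ => []
  | n + 1, X => match (unm (X % (Nat.card Δ + 1)) : Option Δ) with
    | none => []
    | some g => g :: decF n (X / (Nat.card Δ + 1))

/-- the word of a number -/
noncomputable def dec (X : ℕ) : List Δ := decF (Nat.size X) X

theorem decF_st (n : ℕ) (w : List Δ) (h : w.length ≤ n) : decF n (st w) = w := by
  induction n generalizing w with
  | zero =>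
    have : w = [] := List.length_eq_zero_iff.mp (by omega)
    rw [this]
    rfl
  | succ n ih =>
    unfold decF
    rw [st_mod, st_div, unm_nmo]
    cases w with
    | nil => rfl
    | cons g w =>
      show g :: decF n (st w) = g :: w
      rw [ih w (by simpa using h)]

theorem len_le_size (w : List Δ) : w.length ≤ Nat.size (st w) := by
  induction w with
  | nil => simp
  | cons g w ih =>
    have h0 : 0 < Nat.card Δ := Nat.card_pos_iff.mpr ⟨⟨g⟩, inferInstance⟩
    rw [st_cons, List.length_cons]
    have h1 : 2 * st w + 1 ≤ (Nat.card Δ + 1) * st w + (nm g + 1) := by nlinarith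
    refine le_trans ?_ (size_mono h1)
    have h2 : Nat.size (2 * st w + 1) = Nat.size (st w) + 1 := by
      have := Nat.size_bit (b := true) (n := st w) (by simp [Nat.bit_val])
      rw [Nat.bit_val] at this
      exact this
    omega

theorem dec_st (w : List Δ) : dec (st w) = w := decF_st _ _ (len_le_size w)

theorem decF_len (n X : ℕ) : (decF n X : List Δ).length ≤ n := by
  induction n generalizing X with
  | zero => simp [decF]
  | succ n ih =>
    unfold decF
    cases (unm (X % (Nat.card Δ + 1)) : Option Δ) with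
    | none => simp
    | some g => simpa using ih _

theorem dec_len (X : ℕ) : (dec X : List Δ).length ≤ Nat.size X := decF_len _ _

/-- the digits -/
def dg (b X i : ℕ) : ℕ := X / b ^ i % b

theorem dg_succ (b X i : ℕ) : dg b X (i + 1) = dg b (X / b) i := by
  unfold dg
  rw [pow_succ', Nat.div_div_eq_div_mul]

theorem decF_get (n X i : ℕ) (hi : i < n) : nmo ((decF n X : List Δ)[i]?) =
    if ∀ j ≤ i, dg (Nat.card Δ + 1) X j ≠ 0 then dg (Nat.card Δ + 1) X i else 0 := by
  induction n generalizing X i with
  | zero => omega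
  | succ n ih =>
    have hm : X % (Nat.card Δ + 1) ≤ Nat.card Δ := Nat.lt_succ_iff.mp (Nat.mod_lt _ (Nat.succ_pos _))
    have hd0 : dg (Nat.card Δ + 1) X 0 = X % (Nat.card Δ + 1) := by simp [dg]
    unfold decF
    cases ho : (unm (X % (Nat.card Δ + 1)) : Option Δ) with
    | none =>
      have h1 := nmo_unm (X := Δ) hm
      rw [ho, nmo_none] at h1
      rw [if_neg (by
        intro h
        exact h 0 (Nat.zero_le _) (by rw [hd0]; exact h1.symm))]
      simp
    | some g =>
      have h1 := nmo_unm (X := Δ) hm
      rw [ho, nmo_some] at h1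
      cases i with
      | zero =>
        rw [if_pos (by
          intro j hj
          obtain rfl : j = 0 := by omega
          rw [hd0, ← h1]
          omega), hd0]
        simp only [List.getElem?_cons_zero, nmo_some]
        exact h1
      | succ i =>
        simp only [List.getElem?_cons_succ]
        rw [ih _ i (by omega), dg_succ]
        have : (∀ j ≤ i + 1, dg (Nat.card Δ + 1) X j ≠ 0) ↔
            ∀ j ≤ i, dg (Nat.card Δ + 1) (X / (Nat.card Δ + 1)) j ≠ 0 := by
          constructor
          · intro h j hj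
            rw [← dg_succ]
            exact h (j + 1) (by omega)
          · intro h j hj
            cases j with
            | zero =>
              rw [hd0, ← h1]
              omega
            | succ j =>
              rw [dg_succ]
              exact h j (by omega)
        by_cases hc : ∀ j ≤ i, dg (Nat.card Δ + 1) (X / (Nat.card Δ + 1)) j ≠ 0
        · rw [if_pos hc, if_pos (this.mpr hc)]
        · rw [if_neg hc, if_neg (fun h => hc (this.mp h))]

theorem dg_size (b X : ℕ) (i : ℕ) (hi : Nat.size X ≤ i) : dg b X i = 0 := by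
  unfold dg
  rcases Nat.lt_or_ge b 2 with h | h
  · rcases Nat.eq_zero_or_pos b with h0 | h0
    · subst h0
      rcases Nat.eq_zero_or_pos i with h1 | h1
      · subst h1
        have : X = 0 := Nat.size_eq_zero.mp (by omega)
        simp [this]
      · simp [zero_pow (by omega : i ≠ 0)]
    · obtain rfl : b = 1 := by omega
      simp [Nat.mod_one]
  · have h1 : X < b ^ i := (Nat.lt_size_self X).trans_le
      ((Nat.pow_le_pow_right (by norm_num) hi).trans (Nat.pow_le_pow_left h _))
    rw [Nat.div_eq_of_lt h1]
    exact Nat.zero_mod _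

theorem dec_get (X i : ℕ) : nmo ((dec X : List Δ)[i]?) =
    if ∀ j ≤ i, dg (Nat.card Δ + 1) X j ≠ 0 then dg (Nat.card Δ + 1) X i else 0 := by
  by_cases hi : i < Nat.size X
  · exact decF_get _ _ _ hi
  · rw [if_neg (fun h => h i le_rfl (dg_size _ _ _ (by omega))),
      List.getElem?_eq_none ((dec_len X).trans (by omega)), nmo_none]

/-- digits belong to every class -/
theorem fn_dg (b : ℕ) : Fn C (fun p : ℕ × ℕ => dg b p.1 p.2) := by
  have h1 : Fn C (fun p : ℕ × ℕ => b ^ min p.2 (Nat.size p.1)) := by
    refine Fn.pow (by fun_prop) (by fun_prop) ⟨Nat.size b + 1, fun p => ?_⟩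
    rw [sz_nat, Nat.size_le]
    have e1 : b ^ min p.2 (Nat.size p.1) ≤ (2 ^ Nat.size b) ^ min p.2 (Nat.size p.1) :=
      Nat.pow_le_pow_left (Nat.lt_size_self b).le _
    rw [← pow_mul] at e1
    refine e1.trans_lt (Nat.pow_lt_pow_right (by norm_num) ?_)
    obtain ⟨x, y⟩ := p
    have e2 : min y (Nat.size x) ≤ Nat.size x := min_le_right _ _
    have e3 : Nat.size b * min y (Nat.size x) ≤ Nat.size b * Nat.size x := Nat.mul_le_mul_left _ e2
    simp only [sz_prod, sz_nat]
    nlinarith [Nat.zero_le (Nat.size b * Nat.size y)]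
  have h2 : Fn C (fun p : ℕ × ℕ => if p.2 < Nat.size p.1 then
      p.1 / b ^ min p.2 (Nat.size p.1) % b else 0) := by fun_prop
  refine h2.congr fun p => ?_
  obtain ⟨x, y⟩ := p
  by_cases h : y < Nat.size x
  · simp only [if_pos h, min_eq_left h.le]
    rfl
  · simp only [if_neg h]
    exact dg_size _ _ _ (by omega)

theorem fn_look : Fn C (fun p : ℕ × ℕ => nmo ((dec p.1 : List Δ)[p.2]?)) := by
  classical
  have h1 := fn_dg (C := C) (Nat.card Δ + 1)
  have h2 : Pr C (fun p : ℕ × ℕ => ∀ j < p.2 + 1, dg (Nat.card Δ + 1) p.1 j ≠ 0) := by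
    refine Pr.all (by fun_prop) ?_
    have h3 : Fn C (fun q : (ℕ × ℕ) × ℕ => dg (Nat.card Δ + 1) q.1.1 q.2) :=
      h1.comp (f := fun q : (ℕ × ℕ) × ℕ => (q.1.1, q.2)) (by fun_prop)
    fun_prop
  refine (Fn.ite h2 h1 (Fn.const 0)).congr fun p => ?_
  rw [dec_get]
  simp only [Nat.lt_succ_iff]

/-- every language of `DLBA` is decided in every class with the closure properties -/
theorem lin_det {κ : Kind} (hd : κ.det = true) (ht : κ.time = false) {L : Set (List Δ)}
    (h : LinClass κ L) : Pr C (fun X : ℕ => (dec X : List Δ) ∈ L) := by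
  obtain ⟨Q, Γ, K, _, _, _, M, hdet, c, hM⟩ := h
  rw [ht] at hM
  have key := det_space (C := C) M (look := fun (X : ℕ) i => (dec X : List Δ)[i]?) fn_look
    (hdet hd) (c0 := c) (fun X g t i => by
      refine ((hM (dec X)).1 g t i).trans (Nat.mul_le_mul_left c ?_)
      have := dec_len (Δ := Δ) X
      rw [sz_nat]
      omega)
  exact key.congr fun X => (hM (dec X)).2

/-- every language of `DLBA` or `LBA` is decided in the class of its kind -/
theorem lin_space {κ : Kind} (ht : κ.time = false) {L : Set (List Δ)} (h : LinClass κ L) :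
    Pr (KC κ) (fun X : ℕ => (dec X : List Δ) ∈ L) := by
  cases hd : κ.det with
  | true => exact lin_det hd ht h
  | false =>
    obtain ⟨Q, Γ, K, _, _, _, M, hdet, c, hM⟩ := h
    rw [ht] at hM
    obtain ⟨E, N, u0, A, c', hE, hN, hu0, hA, -, hlt, hacc⟩ := space_graph (C := KC κ) M
      (look := fun (X : ℕ) i => (dec X : List Δ)[i]?) fn_look (c0 := c) (fun X g t i => by
        refine ((hM (dec X)).1 g t i).trans (Nat.mul_le_mul_left c ?_)
        have := dec_len (Δ := Δ) X
        rw [sz_nat]
        omega)
    have hR := reach_decidable hd hE hN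
    have key : Pr (KC κ) (fun X : ℕ => ∃ v < N X, A X v ∧ ((u0 X < N X ∧ v < N X) ∧
        Reach (E X) (N X) (N X) (u0 X) v)) := by
      refine Pr.ex hN ?_
      have h1 : Pr (KC κ) (fun q : ℕ × ℕ => (u0 q.1 < N q.1 ∧ q.2 < N q.1) ∧
          Reach (E q.1) (N q.1) (N q.1) (u0 q.1) q.2) :=
        hR.comp (f := fun q : ℕ × ℕ => (q.1, u0 q.1, N q.1, q.2)) (by fun_prop)
      exact hA.and h1
    refine key.congr fun X => ?_
    have h1 : (dec X : List Δ) ∈ L ↔ M.Accepts (fun q => (dec X : List Δ)[q.length]?) :=
      (hM (dec X)).2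
    rw [h1, hacc]
    constructor
    · rintro ⟨v, hv, h2, h3⟩
      exact ⟨v, hv, h2, ⟨hlt X, hv⟩, h3⟩
    · rintro ⟨v, hv, h2, -, h3⟩
      exact ⟨v, hv, h2, h3⟩

end LSC
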